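import Pool.Agent.H4.AV.Chi

/-!
# The choice of the parameter
-/

set_option autoImplicit false
set_option linter.all false

open Filter

namespace Pool.Agent.H4.AV

/-- The parameter. -/
def LL (n : ℕ) : ℕ := 14 * (Nat.log 2 (n + 1) + 1)

theorem LL_ge (n : ℕ) : 13 ≤ LL n := by
  unfold LL
  omega

theorem log_LL {n : ℕ} (hn : 3 ≤ n) : (LL n : ℝ) ≤ 70 * Real.log n := by
  have hn3 : (3 : ℝ) ≤ n := by exact_mod_cast hn
  have h1 : (1 : ℝ) ≤ Real.log n := by
    rw [Real.le_log_iff_exp_le (by linarith)]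
    exact (Real.exp_one_lt_d9.le.trans (by norm_num)).trans hn3
  have h2 : ((Nat.log 2 (n + 1) : ℕ) : ℝ) ≤ Real.logb 2 ((n + 1 : ℕ) : ℝ) := Real.natLog_le_logb _ _
  have h3 : Real.logb 2 ((n + 1 : ℕ) : ℝ) ≤ 2 * (Real.log n + 1) := by
    have hl2 : 1 / 2 < Real.log 2 := by
      have := Real.log_two_gt_d9
      linarith
    have h4 : Real.log ((n + 1 : ℕ) : ℝ) ≤ Real.log n + 1 := by
      have h5 : ((n + 1 : ℕ) : ℝ) ≤ n * Real.exp 1 := by
        have := Real.exp_one_gt_d9
        push_cast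
        nlinarith
      have h6 := Real.log_le_log (by positivity) h5
      rw [Real.log_mul (by linarith) (Real.exp_pos 1).ne', Real.log_exp] at h6
      exact h6
    rw [← Real.log_div_log, div_le_iff₀ (by linarith)]
    nlinarith
  unfold LL
  push_cast at h2 h3 ⊢
  linarith

theorem pow_LL (n : ℕ) : ((n : ℝ) + 1) ^ 10 ≤ (17 / 10 : ℝ) ^ LL n := by
  unfold LL
  rw [pow_mul]
  have h1 : (2 : ℝ) ^ 10 ≤ (17 / 10) ^ 14 := by norm_num
  have h2 : ((2 : ℝ) ^ 10) ^ (Nat.log 2 (n + 1) + 1) ≤ ((17 / 10) ^ 14) ^ (Nat.log 2 (n + 1) + 1) :=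
    pow_le_pow_left₀ (by norm_num) h1 _
  refine le_trans ?_ h2
  rw [← pow_mul, mul_comm, pow_mul]
  refine pow_le_pow_left₀ (by positivity) ?_ 10
  have h3 : n + 1 < 2 ^ (Nat.log 2 (n + 1) + 1) := Nat.lt_pow_succ_log_self (by norm_num) _
  exact_mod_cast h3.le

theorem exp_tend (C : ℝ) : Tendsto (fun n : ℕ => 16 * Real.exp (C - Real.log n / 10)) atTop (nhds 0) := by
  have h1 : Tendsto (fun n : ℕ => C - Real.log n / 10) atTop atBot := by
    have h2 : Tendsto (fun n : ℕ => Real.log n / 10) atTop atTop :=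
      (Real.tendsto_log_atTop.comp tendsto_natCast_atTop_atTop).atTop_div_const (by norm_num)
    have h3 := tendsto_neg_atTop_atBot.comp h2
    have h4 := tendsto_atBot_add_const_left atTop C h3
    refine h4.congr fun n => ?_
    simp only [Function.comp_apply]
    ring
  have h2 := (Real.tendsto_exp_atBot.comp h1).const_mul 16
  rw [mul_zero] at h2
  exact h2

theorem inv_tend (C : ℝ) : Tendsto (fun n : ℕ => C / ((n : ℝ) + 1)) atTop (nhds 0) :=
  tendsto_const_nhds.div_atTop (tendsto_atTop_add_const_right _ _ tendsto_natCast_atTop_atTop)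

theorem log_tend : Tendsto (fun n : ℕ => 70 * Real.log n / n) atTop (nhds 0) := by
  have h1 : Tendsto (fun x : ℝ => Real.log x / x) atTop (nhds 0) := by
    have := Real.isLittleO_log_id_atTop.tendsto_div_nhds_zero
    exact this
  have h2 := (h1.comp tendsto_natCast_atTop_atTop).const_mul 70
  rw [mul_zero] at h2
  refine h2.congr fun n => ?_
  simp only [Function.comp_apply]
  ring

/-- The error terms tend to zero, uniformly in the field. -/
theorem exists_n0 {ε : ℝ} (hε : 0 < ε) : ∃ n0 : ℕ, ∀ n, n0 ≤ n → 4 ≤ n ∧ LL n ≤ n ∧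
    ∀ (k : Type) [Field k] [Fintype k], (2 : k) ≠ 0 → Er k (LL n) n ≤ ε ∧
      (LL n : ℝ) / n + 38 * (n + 1) ^ 2 / rq k ^ LL n ≤ ε := by
  set C : ℝ := 4 + 16 / 5 * (Real.log 70 + Real.log 32 - 1) with hC
  have t1 := (exp_tend C).eventually (gt_mem_nhds (half_pos hε))
  have t2 := (inv_tend (165 * Real.exp 4)).eventually (gt_mem_nhds (half_pos hε))
  have t3 := (inv_tend 38).eventually (gt_mem_nhds (half_pos hε))
  have t4 := log_tend.eventually (gt_mem_nhds (half_pos hε))
  have t5 := log_tend.eventually (gt_mem_nhds (one_pos (α := ℝ)))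
  obtain ⟨n0, h0⟩ := eventually_atTop.1 ((((t1.and t2).and t3).and t4).and t5)
  refine ⟨max n0 4, fun n hn => ?_⟩
  obtain ⟨⟨⟨⟨s1, s2⟩, s3⟩, s4⟩, s5⟩ := h0 n ((le_max_left _ _).trans hn)
  have hn4 : 4 ≤ n := (le_max_right _ _).trans hn
  have hn0 : (4 : ℝ) ≤ n := by exact_mod_cast hn4
  have hpos : (0 : ℝ) < n := by linarith
  have hLL := log_LL (n := n) (by omega)
  refine ⟨hn4, ?_, fun k _ _ h2 => ?_⟩
  · have h5 : (LL n : ℝ) ≤ n := by
      rw [div_lt_one hpos] at s5
      linarith
    exact_mod_cast h5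
  · have hr : ((n : ℝ) + 1) ^ 10 ≤ rq k ^ LL n :=
      (pow_LL n).trans (pow_le_pow_left₀ (by norm_num) (rq_ge h2) _)
    have hb : (1 : ℝ) ≤ n + 1 := by linarith
    have hrp : 0 < rq k ^ LL n := lt_of_lt_of_le (by positivity) hr
    constructor
    · unfold Er
      have e1 : 165 * Real.exp 4 * ((n : ℝ) + 1) ^ 6 / rq k ^ LL n ≤ 165 * Real.exp 4 / (n + 1) := by
        rw [div_le_div_iff₀ hrp (by positivity)]
        have h3 : ((n : ℝ) + 1) ^ 6 * (n + 1) ≤ ((n : ℝ) + 1) ^ 10 := by
          rw [← pow_succ]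
          exact pow_le_pow_right₀ hb (by norm_num)
        have h4 := h3.trans hr
        have h5 : 165 * Real.exp 4 * ((n : ℝ) + 1) ^ 6 * (n + 1) =
            165 * Real.exp 4 * (((n : ℝ) + 1) ^ 6 * (n + 1)) := by ring
        rw [h5]
        exact mul_le_mul_of_nonneg_left h4 (by positivity)
      have e2 : 16 * Real.exp (4 + 4 / 5 * Real.log n + 16 / 5 * Real.log (LL n)) / n ≤
          16 * Real.exp (C - Real.log n / 10) := by
        rw [div_le_iff₀ hpos, mul_assoc]
        refine mul_le_mul_of_nonneg_left ?_ (by norm_num)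
        have h3 : Real.exp (C - Real.log n / 10) * n = Real.exp (C - Real.log n / 10 + Real.log n) := by
          rw [Real.exp_add, Real.exp_log hpos]
        rw [h3]
        refine Real.exp_le_exp.2 ?_
        have hx : 1 ≤ Real.log n := by
          rw [Real.le_log_iff_exp_le (by linarith)]
          exact (Real.exp_one_lt_d9.le.trans (by norm_num)).trans hn0
        have hLpos : (0 : ℝ) < LL n := by
          have := LL_ge n
          exact_mod_cast (by omega : 0 < LL n)
        have h4 : Real.log (LL n) ≤ Real.log 70 + Real.log (Real.log n) := by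
          rw [← Real.log_mul (by norm_num) (by linarith)]
          exact Real.log_le_log hLpos hLL
        have h5 : Real.log (Real.log n) ≤ Real.log n / 32 - 1 + Real.log 32 := by
          have h6 := Real.log_le_sub_one_of_pos (x := Real.log n / 32) (by positivity)
          rw [Real.log_div (by linarith) (by norm_num)] at h6
          linarith
        rw [hC]
        linarith
      linarith
    · have e1 : 38 * ((n : ℝ) + 1) ^ 2 / rq k ^ LL n ≤ 38 / (n + 1) := by
        rw [div_le_div_iff₀ hrp (by positivity)]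
        have h3 : ((n : ℝ) + 1) ^ 2 * (n + 1) ≤ ((n : ℝ) + 1) ^ 10 := by
          rw [← pow_succ]
          exact pow_le_pow_right₀ hb (by norm_num)
        have h4 := h3.trans hr
        have h5 : 38 * ((n : ℝ) + 1) ^ 2 * (n + 1) = 38 * (((n : ℝ) + 1) ^ 2 * (n + 1)) := by ring
        rw [h5]
        exact mul_le_mul_of_nonneg_left h4 (by positivity)
      have e2 : (LL n : ℝ) / n ≤ 70 * Real.log n / n :=
        div_le_div_of_nonneg_right hLL hpos.le
      linarith

end Pool.Agent.H4.AV
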