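import Pool.Agent.H4.AV.Tot

/-!
# The weights of the primes of a given degree
-/

set_option autoImplicit false
set_option linter.all false

open Polynomial
open scoped Classical

namespace Pool.Agent.H4.AV

open Pool.Agent.H341R2.Sharp (lam)
open Pool.Agent.Y164.PS (lam_mem lam_eq_zero_iff lam_mul_left lam_irr Pr mem_Pr card_Pr_le card_Pr_ge
  abs_lam_le char_sum lam_one_left)
open Pool.Agent.X261.TD (ones)
open Pool.Agent.TH943.HJ (primes mem_primes)
open Pool.Agent.H4.SA

theorem pow_big (d : ℕ) (hd : 14 ≤ d) : (60 : ℝ) * d ≤ (17 / 10) ^ d := by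
  induction d, hd using Nat.le_induction with
  | base => norm_num
  | succ d hd ih =>
    rw [pow_succ]
    push_cast
    have : (14 : ℝ) ≤ d := by exact_mod_cast hd
    nlinarith

section fin

variable {k : Type} [Field k] [Fintype k] {f : k[X]} {u : k}

theorem Gf_empty (d : ℕ) : Gf f d ∅ = Gp f d := by
  unfold Gf
  exact Finset.filter_true_of_mem fun P _ κ' h' => absurd h' (Finset.notMem_empty _)

theorem card_Gp_le (hf : Cub f) {d : ℕ} (hd : 1 ≤ d) : (d : ℝ) * (Gp f d).card ≤ qq k ^ d := by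
  have h1 : ((Gp f d).card : ℝ) ≤ (Pr k d).card := by exact_mod_cast Finset.card_filter_le _ _
  have h2 := card_Pr_le (k := k) hf.rc d hd
  have h3 : (Fintype.card k : ℝ) = qq k := rfl
  rw [h3] at h2
  exact (mul_le_mul_of_nonneg_left h1 (Nat.cast_nonneg d)).trans h2

theorem sum_card_ones (hf : Cub f) (d : ℕ) :
    ((∑ P ∈ Gp f d, (ones f P).card : ℕ) : ℝ) = (Rs f d ∅).card := by
  have h := sum_Rs' hf d ∅ (fun _ : k[X] => (1 : ℕ))
  rw [Gf_empty] at h
  simp only [← Finset.card_eq_sum_ones] at h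
  exact_mod_cast h.symm

theorem sum_ones_le (hf : Cub f) {d : ℕ} (hd : 1 ≤ d) :
    (d : ℝ) * ∑ P ∈ Gp f d, ((ones f P).card : ℝ) ≤ qq k ^ d := by
  have h := sum_card_ones hf d
  push_cast at h
  rw [h]
  have h1 : ((Rs f d ∅).card : ℝ) ≤ (Pr k d).card := by
    exact_mod_cast Finset.card_le_card (Rs_sub hf d ∅)
  have h2 := card_Pr_le (k := k) hf.rc d hd
  have h3 : (Fintype.card k : ℝ) = qq k := rfl
  rw [h3] at h2
  exact (mul_le_mul_of_nonneg_left h1 (Nat.cast_nonneg d)).trans h2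

theorem sum_ones_ge (hf : Cub f) {d : ℕ} (hd : 1 ≤ d) :
    ((Pr k d).card : ℝ) - (6 * rq k ^ d + 6) ≤ ∑ P ∈ Gp f d, ((ones f P).card : ℝ) := by
  have h := sum_card_ones hf d
  push_cast at h
  rw [h]
  have h1 := card_compl hf hd (∅ : Finset (Tri k))
  rw [Finset.card_sdiff_of_subset (Rs_sub hf d ∅), Nat.cast_sub (Finset.card_le_card (Rs_sub hf d ∅)),
    Finset.card_empty] at h1
  push_cast at h1
  linarith

/-- The weight of the type `(1, 1)`. -/
theorem bA3 (hf : Cub f) {L d : ℕ} (hL : 13 ≤ L) (hd : L < d) :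
    (d : ℝ) * bA f (A3 L) d ≤ 4 / 5 * qq k ^ d := by
  have hd1 : 1 ≤ d := by omega
  have h1 : bA f (A3 L) d ≤ ∑ P ∈ Gp f d, (1 - ((ones f P).card : ℝ) / 4) := by
    unfold bA
    rw [Finset.sum_filter, sum_trs]
    refine Finset.sum_le_sum fun P hP => ?_
    obtain ⟨hg, hPd⟩ := mem_Gp.1 hP
    have h2 : ∀ b ∈ VW f P, (if A3 L (P, b) then wt f (P, b) else 0) =
        if b = ((1 : k[X]), (1 : k[X])) then (1 : ℝ) / (VV f P).card else 0 := by
      intro b _
      have h3 : A3 L (P, b) ↔ b = ((1 : k[X]), (1 : k[X])) := by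
        unfold A3 t0
        simp only [hPd]
        constructor
        · intro h
          exact Prod.ext (h hd).1 (h hd).2
        · rintro rfl _
          exact ⟨rfl, rfl⟩
      by_cases h4 : b = ((1 : k[X]), (1 : k[X]))
      · rw [if_pos h4, if_pos (h3.2 h4)]
        rfl
      · rw [if_neg h4, if_neg fun h => h4 (h3.1 h)]
    rw [Finset.sum_congr rfl h2, Finset.sum_ite_eq', if_pos (mem_VW.2 ⟨one_mem_VV, one_mem_VV⟩)]
    rcases hw_cases hf hg with ⟨h0, -, h1⟩ | ⟨⟨R, hR, hl, h0⟩, -, h1⟩ | ⟨h0, hl, -, h1⟩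
    · rw [h1, h0]
      norm_num
    · have h3 : ones f P = {R} := by
        ext T
        rw [h0, Finset.mem_singleton]
      rw [h1, h3]
      norm_num
    · rw [h1, h0]
      norm_num
  rw [Finset.sum_sub_distrib, Finset.sum_const, nsmul_eq_mul, mul_one, ← Finset.sum_div] at h1
  have h2 := sum_ones_ge hf hd1
  have h3 := card_Gp_le hf hd1
  have h4 : ((Gp f d).card : ℝ) ≤ (Pr k d).card := by exact_mod_cast Finset.card_filter_le _ _
  have h5 : (d : ℝ) * (Pr k d).card ≤ qq k ^ d := by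
    have h2 := card_Pr_le (k := k) hf.rc d hd1
    have h3 : (Fintype.card k : ℝ) = qq k := rfl
    rwa [h3] at h2
  have h6 : (60 : ℝ) * d ≤ rq k ^ d :=
    (pow_big d (by omega)).trans (pow_le_pow_left₀ (by norm_num) (rq_ge hf.two) d)
  have h7 : rq k ^ d * rq k ^ d = qq k ^ d := rq_pow_sq d
  have h8 := rq_pow_one hf.two d
  have hd0 : (14 : ℝ) ≤ d := by exact_mod_cast (show 14 ≤ d by omega)
  have h9 : bA f (A3 L) d ≤ 3 / 4 * (Pr k d).card + 3 / 2 * rq k ^ d + 3 / 2 := by linarith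
  have h10 : (d : ℝ) * bA f (A3 L) d ≤ d * (3 / 4 * (Pr k d).card + 3 / 2 * rq k ^ d + 3 / 2) :=
    mul_le_mul_of_nonneg_left h9 (by linarith)
  nlinarith

/-- The weight of the types `(v, w)` with different nontrivial colours. -/
theorem bA2 (hf : Cub f) {L d : ℕ} (hd : L < d) :
    (d : ℝ) * bA f (A2 L) d ≤ 4 / 5 * qq k ^ d := by
  have hd1 : 1 ≤ d := by omega
  have h1 : bA f (A2 L) d ≤ ∑ P ∈ Gp f d, ((ones f P).card : ℝ) / 2 := by
    unfold bA
    rw [Finset.sum_filter, sum_trs]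
    refine Finset.sum_le_sum fun P hP => ?_
    obtain ⟨hg, hPd⟩ := mem_Gp.1 hP
    have h2 : ∑ b ∈ VW f P, (if A2 L (P, b) then wt f (P, b) else 0) ≤
        (((ones f P).offDiag).card : ℝ) * (1 / (VV f P).card) := by
      rw [← Finset.sum_filter]
      have h3 : ∀ b ∈ (VW f P).filter (fun b => A2 L (P, b)), wt f (P, b) = 1 / (VV f P).card :=
        fun b _ => rfl
      rw [Finset.sum_congr rfl h3, Finset.sum_const, nsmul_eq_mul]
      refine mul_le_mul_of_nonneg_right ?_ (by positivity)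
      have h4 : ((VW f P).filter (fun b => A2 L (P, b))).card ≤ ((ones f P).offDiag).card := by
        refine Finset.card_le_card fun b hb => ?_
        obtain ⟨h5, h6⟩ := Finset.mem_filter.1 hb
        have h7 : tX (P, b) := h6 (by simpa only [hPd] using hd)
        obtain ⟨h8, h9⟩ := mem_VW.1 h5
        rw [Finset.mem_offDiag]
        exact ⟨(mem_VV'.1 h8).resolve_left h7.1, (mem_VV'.1 h9).resolve_left h7.2.1, h7.2.2⟩
      exact_mod_cast h4
    refine h2.trans ?_
    rw [Finset.offDiag_card]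
    rcases hw_cases hf hg with ⟨h0, -, h1⟩ | ⟨⟨R, hR, hl, h0⟩, -, h1⟩ | ⟨h0, hl, -, h1⟩
    · rw [h1, h0]
      norm_num
    · have h3 : ones f P = {R} := by
        ext T
        rw [h0, Finset.mem_singleton]
      rw [h1, h3]
      norm_num
    · rw [h1, h0]
      norm_num
  rw [← Finset.sum_div] at h1
  have h2 := sum_ones_le hf hd1
  have h3 : (d : ℝ) * bA f (A2 L) d ≤ d * ((∑ P ∈ Gp f d, ((ones f P).card : ℝ)) / 2) :=
    mul_le_mul_of_nonneg_left h1 (Nat.cast_nonneg d)
  have hq : 0 < qq k ^ d := by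
    have := qq_ge hf.two
    positivity
  linarith

/-- The error term. -/
noncomputable def Er (k : Type) [Fintype k] (L n : ℕ) : ℝ :=
  165 * Real.exp 4 * (n + 1) ^ 6 / rq k ^ L +
    16 * Real.exp (4 + 4 / 5 * Real.log n + 16 / 5 * Real.log L) / n

/-- The average of the number of the admissible colourings. -/
theorem average (hf : Cub f) (hu : u ≠ 0) {e : ℕ} (he : e = 0 ∨ e = 1) {L n : ℕ} (hL : 13 ≤ L)
    (hn : L ≤ n) : |∑ S ∈ SS f n, (((Adm f u S).card : ℝ) - 3) * chi f S ^ e| ≤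
      Er k L n * qq k ^ n := by
  have hq := qq_ge hf.two
  have hr := rq_pow_one hf.two L
  have e1 : ∑ S ∈ SS f n, (((Adm f u S).card : ℝ) - 3) * chi f S ^ e =
      ∑ K ∈ KK f n, FF f u e K - 3 * ∑ S ∈ SS f n, chi f S ^ e := by
    rw [sum_Adm hf hu e n, Finset.mul_sum, ← Finset.sum_sub_distrib]
    refine Finset.sum_congr rfl fun S _ => ?_
    ring
  rw [e1]
  have h2 := mass_le hf (A2 L) (by omega) hn fun d hd => bA2 hf hd
  have h3 := mass_le hf (A3 L) (by omega) hn fun d hd => bA3 hf hL hd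
  have key : ∀ {a b α β : ℝ}, Wt f (hw f e) a b α β → 3 * (|α| + |β|) + (1 + |a| + |b|) ≤ 5 →
      |∑ K ∈ KK f n, FF f u e K - 3 * ∑ S ∈ SS f n, chi f S ^ e| ≤ Er k L n * qq k ^ n := by
    intro a b α β hh hc
    refine (total hf hu hh L n).trans ?_
    have h4 : (3 * (|α| + |β|) + (1 + |a| + |b|)) * (33 * Real.exp 4 * (n + 1) ^ 6) / rq k ^ L * qq k ^ n ≤
        5 * (33 * Real.exp 4 * (n + 1) ^ 6) / rq k ^ L * qq k ^ n := by
      refine mul_le_mul_of_nonneg_right ?_ (by positivity)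
      refine div_le_div_of_nonneg_right ?_ (by positivity)
      exact mul_le_mul_of_nonneg_right hc (by positivity)
    have h5 : Er k L n * qq k ^ n = 5 * (33 * Real.exp 4 * (n + 1) ^ 6) / rq k ^ L * qq k ^ n +
        4 * (4 * Real.exp (4 + 4 / 5 * Real.log n + 16 / 5 * Real.log L) / n * qq k ^ n) := by
      unfold Er
      ring
    rw [h5]
    linarith
  rcases he with rfl | rfl
  · refine key (hw_wt0 hf) ?_
    norm_num [abs_of_nonneg, abs_of_neg]
  · refine key (hw_wt1 hf) ?_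
    norm_num [abs_of_nonneg, abs_of_neg]

end fin

end Pool.Agent.H4.AV
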