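import Pool.Agent.H4.AV.Cnt

/-!
# The sum of the signs of the squarefree polynomials
-/

set_option autoImplicit false
set_option linter.all false

open Polynomial
open scoped Classical

namespace Pool.Agent.H4.AV

open Pool.Agent.H341R2.Sharp (lam)
open Pool.Agent.Y164.PS (lam_mem lam_eq_zero_iff lam_mul_left lam_irr Pr mem_Pr card_Pr_le card_Pr_ge
  abs_lam_le char_sum lam_one_left)
open Pool.Agent.X261.TD (ones)
open Pool.Agent.TH943.HJ (primes mem_primes)
open Pool.Agent.H4.SA

section fin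

variable {k : Type} [Field k] [Fintype k] {f : k[X]} {u : k}

/-- The sum of the signs of the primes of a given degree. -/
theorem sum_psi (hf : Cub f) (hns : Nsq (dlt f)) {d m : ℕ} (hd : 1 ≤ d) {K : Finset (Tri k)}
    (hK : K ∈ KK f m) : |∑ P ∈ Gf f d K, psi f P| ≤ (7 * m + 38) * rq k ^ d := by
  obtain ⟨hc, hm⟩ := mem_KK.1 hK
  have e1 : ∀ P ∈ Gf f d K, psi f P = 1 - ∑ R ∈ ones f P, (1 - (lam (dlt f) R : ℝ)) := by
    intro P hP
    have hg := (mem_Gp.1 (Finset.mem_filter.1 hP).1).1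
    rcases hw_cases hf hg with ⟨h0, h2, h1⟩ | ⟨⟨R, hR, hl, h0⟩, h2, h1⟩ | ⟨h0, hl, h2, h1⟩
    · rw [h0, h2]
      simp
    · have h3 : ones f P = {R} := by
        ext T
        rw [h0, Finset.mem_singleton]
      rw [h2, h3, Finset.sum_singleton, hl]
      norm_num
    · rw [h2, Finset.sum_congr rfl fun R hR => by rw [hl R hR]]
      simp
  rw [Finset.sum_congr rfl e1, Finset.sum_sub_distrib, ← sum_Rs' hf, Finset.sum_sub_distrib,
    Finset.sum_const, Finset.sum_const, nsmul_eq_mul, nsmul_eq_mul, mul_one, mul_one]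
  have h1 := card_Gf hf d K
  rw [Finset.card_sdiff_of_subset (Gf_sub d K)] at h1
  have h2 := card_compl hf hd K
  rw [Finset.card_sdiff_of_subset (Rs_sub hf d K), Nat.cast_sub (Finset.card_le_card (Rs_sub hf d K))] at h2
  have h3 : ((Gf f d K).card : ℝ) ≤ (Pr k d).card := by
    exact_mod_cast Finset.card_le_card (Gf_sub d K)
  have h4 : ((Rs f d K).card : ℝ) ≤ (Pr k d).card := by
    exact_mod_cast Finset.card_le_card (Rs_sub hf d K)
  have h5 : ((Pr k d).card : ℝ) ≤ (Gf f d K).card + 2 + K.card := by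
    have : (Pr k d).card ≤ (Gf f d K).card + 2 + K.card := by omega
    exact_mod_cast this
  have h6 : |∑ R ∈ Rs f d K, (lam (dlt f) R : ℝ)| ≤ 12 * rq k ^ d + (6 * rq k ^ d + 6 + 3 * K.card) := by
    have e2 : ∑ R ∈ Rs f d K, (lam (dlt f) R : ℝ) = ∑ R ∈ Pr k d, (lam (dlt f) R : ℝ) -
        ∑ R ∈ Pr k d \ Rs f d K, (lam (dlt f) R : ℝ) := by
      rw [eq_sub_iff_add_eq, add_comm, Finset.sum_sdiff (Rs_sub hf d K)]
    rw [e2]
    refine (abs_sub _ _).trans (add_le_add ?_ ?_)
    · refine (char_le hf.two hns hd).trans (mul_le_mul_of_nonneg_right ?_ (by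
        have := rq_pow_one hf.two d
        linarith))
      have : ((dlt f).natDegree : ℝ) ≤ 2 := by exact_mod_cast dlt_deg (f := f)
      linarith
    · refine (Finset.abs_sum_le_sum_abs _ _).trans ?_
      refine (Finset.sum_le_card_nsmul _ _ 1 fun P _ => abs_lam_le _ P).trans ?_
      rw [nsmul_eq_mul, mul_one]
      exact card_compl hf hd K
  have h7 : (K.card : ℝ) ≤ m := by exact_mod_cast card_le_deg hc hm
  have h8 := rq_pow_one hf.two d
  have hkc : (0 : ℝ) ≤ K.card := Nat.cast_nonneg _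
  rw [abs_le] at h6 ⊢
  have h9 : (m : ℝ) ≤ m * rq k ^ d := by
    have : (0 : ℝ) ≤ m := Nat.cast_nonneg _
    nlinarith
  constructor <;> nlinarith [h6.1, h6.2]

theorem mem_Gf' {d : ℕ} {K : Finset (Tri k)} {P : k[X]} :
    P ∈ Gf f d K ↔ Gd f P ∧ P.natDegree = d ∧ ∀ κ' ∈ K, κ'.1 ≠ P := by
  unfold Gf
  rw [Finset.mem_filter, mem_Gp, and_assoc]

/-- The sum over the second trivial colour. -/
theorem sum_w1 (d : ℕ) (K : Finset (Tri k)) :
    ∑ κ ∈ fr f d K, (if κ.2.2 = 1 then hw f 1 κ.1 else 0) = ∑ P ∈ Gf f d K, psi f P := by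
  unfold fr
  rw [Finset.sum_filter, sum_trs]
  unfold Gf
  rw [Finset.sum_filter]
  refine Finset.sum_congr rfl fun P hP => ?_
  by_cases h : ∀ κ' ∈ K, κ'.1 ≠ P
  · rw [if_pos h]
    have e1 : ∀ b ∈ VW f P, (if ∀ κ' ∈ K, κ'.1 ≠ (P, b).1 then
        (if (P, b).2.2 = 1 then hw f 1 (P, b).1 else 0) else 0) =
        if b.2 = 1 then hw f 1 P else 0 := fun b _ => if_pos h
    rw [Finset.sum_congr rfl e1]
    unfold VW
    rw [Finset.sum_product]
    have e2 : ∀ v ∈ VV f P, ∑ w ∈ VV f P, (if w = 1 then hw f 1 P else 0) = hw f 1 P := by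
      intro v _
      rw [Finset.sum_ite_eq' (VV f P) 1 (fun _ => hw f 1 P), if_pos one_mem_VV]
    show ∑ v ∈ VV f P, ∑ w ∈ VV f P, (if w = 1 then hw f 1 P else 0) = psi f P
    rw [Finset.sum_congr rfl e2, Finset.sum_const, nsmul_eq_mul]
    have h5 : ((VV f P).card : ℝ) ≠ 0 := by
      have : 0 < (VV f P).card := card_VV_pos
      exact_mod_cast this.ne'
    unfold hw
    rw [pow_one, mul_div_cancel₀ _ h5]
  · rw [if_neg h]
    refine Finset.sum_eq_zero fun b _ => ?_
    exact if_neg h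

/-- The sum of the signs of the sets of primes. -/
theorem sum_chi (hf : Cub f) (hns : Nsq (dlt f)) {L n : ℕ} (hn : 1 ≤ n) :
    |∑ S ∈ SS f n, chi f S| ≤ ((L : ℝ) / n + 38 * (n + 1) ^ 2 / rq k ^ L) * qq k ^ n := by
  have hn0 : (0 : ℝ) < n := by exact_mod_cast hn
  have hq := qq_ge hf.two
  have hr := rq_one hf.two
  have hu : (1 : k) ≠ 0 := one_ne_zero
  have e0 : ∑ S ∈ SS f n, chi f S = ∑ K ∈ KK f n, (if ∀ κ ∈ K, κ.2.2 = 1 then hK f 1 K else 0) := by
    have h := sum_main (u := (1 : k)) hf 1 n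
    simp only [pow_one] at h
    rw [← h]
    refine Finset.sum_congr rfl fun K _ => ?_
    split_ifs with h1
    · unfold FF
      rw [sgn_main hf h1]
      simp
    · rfl
  have e1 : (n : ℝ) * ∑ S ∈ SS f n, chi f S = ∑ K ∈ KK f n, ∑ κ ∈ K,
      (if ∀ κ ∈ K, κ.2.2 = 1 then (κ.1.natDegree : ℝ) * hK f 1 K else 0) := by
    rw [e0, Finset.mul_sum]
    refine Finset.sum_congr rfl fun K hK' => ?_
    obtain ⟨h3, h4⟩ := mem_KK.1 hK'
    by_cases h : ∀ κ ∈ K, κ.2.2 = 1
    · simp only [if_pos h]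
      rw [← Finset.sum_mul]
      congr 1
      exact_mod_cast h4.symm
    · simp only [if_neg h]
      rw [Finset.sum_const_zero, mul_zero]
  rw [isolate'] at e1
  -- the inner sums
  have h2 : ∀ m ∈ Finset.range n, ∀ K ∈ KK f m,
      |∑ κ ∈ fr f (n - m) K, (if ∀ κ' ∈ insert κ K, κ'.2.2 = 1 then
        (κ.1.natDegree : ℝ) * hK f 1 (insert κ K) else 0)| ≤
      (if ∀ κ ∈ K, κ.2.2 = 1 then wK f K else 0) *
        ((if n - m ≤ L then 1 else 0) * qq k ^ (n - m) + n * (38 * (n + 1)) * rq k ^ (n - m) *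
          (if L < n - m then 1 else 0)) := by
    intro m hm K hK'
    rw [Finset.mem_range] at hm
    by_cases h : ∀ κ ∈ K, κ.2.2 = 1
    · have e2 : ∀ κ ∈ fr f (n - m) K, (if ∀ κ' ∈ insert κ K, κ'.2.2 = 1 then
          (κ.1.natDegree : ℝ) * hK f 1 (insert κ K) else 0) =
          ((n - m : ℕ) : ℝ) * hK f 1 K * (if κ.2.2 = 1 then hw f 1 κ.1 else 0) := by
        intro κ hκ
        by_cases h1 : κ.2.2 = 1
        · have h3 : ∀ κ' ∈ insert κ K, κ'.2.2 = 1 := by
            intro κ' h'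
            rcases Finset.mem_insert.1 h' with rfl | h'
            · exact h1
            · exact h κ' h'
          rw [if_pos h3, if_pos h1, (mem_fr.1 hκ).2.1]
          unfold hK
          rw [Finset.prod_insert (fr_notMem hκ)]
          ring
        · rw [if_neg h1, if_neg fun h' => h1 (h' κ (Finset.mem_insert_self _ _)), mul_zero]
      rw [Finset.sum_congr rfl e2, ← Finset.mul_sum, sum_w1, if_pos h, abs_mul, abs_mul, abs_hK,
        Nat.abs_cast, mul_comm ((n - m : ℕ) : ℝ), mul_assoc]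
      refine mul_le_mul_of_nonneg_left ?_ (wK_nonneg K)
      have hd1 : 1 ≤ n - m := by omega
      by_cases hL : n - m ≤ L
      · rw [if_pos hL, if_neg (not_lt.2 hL), one_mul, mul_zero, add_zero]
        have h3 : |∑ P ∈ Gf f (n - m) K, psi f P| ≤ (Gf f (n - m) K).card := by
          refine (Finset.abs_sum_le_sum_abs _ _).trans ?_
          refine (Finset.sum_le_card_nsmul _ _ 1 fun P _ => ?_).trans ?_
          · rcases psi_pm (f := f) P with h | h <;> rw [h] <;> simp
          · rw [nsmul_eq_mul, mul_one]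
        have h4 : ((Gf f (n - m) K).card : ℝ) ≤ (Gp f (n - m)).card := by
          unfold Gf
          exact_mod_cast Finset.card_filter_le _ _
        exact (mul_le_mul_of_nonneg_left (h3.trans h4) (Nat.cast_nonneg _)).trans (card_Gp_le hf hd1)
      · rw [if_neg hL, if_pos (not_le.1 hL), zero_mul, zero_add, mul_one]
        have h3 := sum_psi hf hns hd1 hK'
        have h4 : ((n - m : ℕ) : ℝ) ≤ n := by exact_mod_cast Nat.sub_le n m
        have h5 : (m : ℝ) ≤ n := by exact_mod_cast hm.le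
        have h6 : (7 * (m : ℝ) + 38) * rq k ^ (n - m) ≤ (38 * (n + 1)) * rq k ^ (n - m) := by
          refine mul_le_mul_of_nonneg_right ?_ (by positivity)
          linarith
        rw [mul_assoc]
        exact mul_le_mul h4 (h3.trans h6) (abs_nonneg _) (by positivity)
    · rw [if_neg h, zero_mul]
      refine le_of_eq ?_
      rw [abs_eq_zero]
      refine Finset.sum_eq_zero fun κ _ => ?_
      rw [if_neg fun h' => h fun κ' hκ' => h' κ' (Finset.mem_insert_of_mem hκ')]
  have h3 : ∀ m, ∑ K ∈ KK f m, (if ∀ κ ∈ K, κ.2.2 = 1 then wK f K else 0) ≤ qq k ^ m := by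
    intro m
    have h := sum_main (u := (1 : k)) hf 0 m
    simp only [pow_zero, Finset.sum_const, nsmul_eq_mul, mul_one] at h
    have h4 : ∑ K ∈ KK f m, (if ∀ κ ∈ K, κ.2.2 = 1 then wK f K else 0) =
        ∑ K ∈ KK f m, (if ∀ κ ∈ K, κ.2.2 = 1 then FF f 1 0 K else 0) := by
      refine Finset.sum_congr rfl fun K _ => ?_
      split_ifs with h1
      · unfold FF
        rw [sgn_main hf h1]
        unfold wK hK wt hw
        simp
      · rfl
    rw [h4, h]
    exact card_SS_le hf m
  have h4 : |(n : ℝ) * ∑ S ∈ SS f n, chi f S| ≤ ∑ m ∈ Finset.range n, qq k ^ m *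
      ((if n - m ≤ L then 1 else 0) * qq k ^ (n - m) + n * (38 * (n + 1)) * rq k ^ (n - m) *
          (if L < n - m then 1 else 0)) := by
    rw [e1]
    refine (Finset.abs_sum_le_sum_abs _ _).trans (Finset.sum_le_sum fun m hm => ?_)
    refine (Finset.abs_sum_le_sum_abs _ _).trans ?_
    refine (Finset.sum_le_sum (h2 m hm)).trans ?_
    rw [← Finset.sum_mul]
    refine mul_le_mul_of_nonneg_right (h3 m) ?_
    split_ifs <;> positivity
  have h5 : ∀ m ∈ Finset.range n, qq k ^ m *
      ((if n - m ≤ L then 1 else 0) * qq k ^ (n - m) + n * (38 * (n + 1)) * rq k ^ (n - m) *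
          (if L < n - m then 1 else 0)) ≤
      (if n - m ≤ L then qq k ^ n else 0) + n * (38 * (n + 1)) / rq k ^ L * qq k ^ n := by
    intro m hm
    rw [Finset.mem_range] at hm
    have e2 : qq k ^ m * qq k ^ (n - m) = qq k ^ n := by
      rw [← pow_add]
      congr 1
      omega
    by_cases hL : n - m ≤ L
    · rw [if_pos hL, if_pos hL, if_neg (not_lt.2 hL), one_mul, mul_zero, add_zero, e2]
      have : 0 ≤ (n : ℝ) * (38 * (n + 1)) / rq k ^ L * qq k ^ n := by positivity
      linarith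
    · rw [if_neg hL, if_neg hL, if_pos (not_le.1 hL), zero_mul, zero_add, zero_add, mul_one]
      rw [div_mul_eq_mul_div, le_div_iff₀ (by positivity)]
      have h4 : qq k ^ m * rq k ^ (n - m) * rq k ^ L ≤ qq k ^ n := by
        have e1 : qq k ^ m = rq k ^ (2 * m) := by rw [pow_mul, pow_two, rq_sq]
        have e2 : qq k ^ n = rq k ^ (2 * n) := by rw [pow_mul, pow_two, rq_sq]
        rw [e1, e2, ← pow_add, ← pow_add]
        exact pow_le_pow_right₀ hr (by omega)
      have e3 : qq k ^ m * (n * (38 * (n + 1)) * rq k ^ (n - m)) * rq k ^ L =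
          n * (38 * (n + 1)) * (qq k ^ m * rq k ^ (n - m) * rq k ^ L) := by ring
      rw [e3]
      exact mul_le_mul_of_nonneg_left h4 (by positivity)
  have h6 := h4.trans (Finset.sum_le_sum h5)
  rw [Finset.sum_add_distrib, ← Finset.sum_filter, Finset.sum_const, Finset.sum_const,
    Finset.card_range, nsmul_eq_mul, nsmul_eq_mul, abs_mul, abs_of_pos hn0] at h6
  have h7 : (((Finset.range n).filter fun m => n - m ≤ L).card : ℝ) ≤ L := by
    have : ((Finset.range n).filter fun m => n - m ≤ L).card ≤ L := by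
      have h8 : (Finset.range n).filter (fun m => n - m ≤ L) ⊆ Finset.Ico (n - L) n := by
        intro m hm
        rw [Finset.mem_filter, Finset.mem_range] at hm
        rw [Finset.mem_Ico]
        omega
      refine (Finset.card_le_card h8).trans ?_
      rw [Nat.card_Ico]
      omega
    exact_mod_cast this
  have h8 : (n : ℝ) * |∑ S ∈ SS f n, chi f S| ≤
      n * (((L : ℝ) / n + 38 * (n + 1) ^ 2 / rq k ^ L) * qq k ^ n) := by
    refine h6.trans ?_
    have e4 : (n : ℝ) * (((L : ℝ) / n + 38 * (n + 1) ^ 2 / rq k ^ L) * qq k ^ n) =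
        L * qq k ^ n + n * (38 * (n + 1) ^ 2 / rq k ^ L * qq k ^ n) := by
      field_simp
    rw [e4]
    refine add_le_add (mul_le_mul_of_nonneg_right h7 (by positivity)) ?_
    refine mul_le_mul_of_nonneg_left ?_ hn0.le
    refine mul_le_mul_of_nonneg_right (div_le_div_of_nonneg_right ?_ (by positivity)) (by positivity)
    nlinarith
  exact le_of_mul_le_mul_left h8 hn0

end fin

end Pool.Agent.H4.AV
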