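import Pool.Agent.H4.AV.Bd
import Pool.Graph.R_seed8.Y784.SV.S2

/-!
# The squarefree polynomials prime to the discriminant
-/

set_option autoImplicit false
set_option linter.all false

open Polynomial
open scoped Classical

namespace Pool.Agent.H4.AV

open Pool.Agent.Y164.PS (Pr mem_Pr)
open Pool.Agent.TH943.HJ (primes mem_primes)
open Pool.Agent.H4.SA
open Pool.Agent.Y784.SV (mem_US card_sqf)
open Pool.Agent.Y711 (US)
open Pool.Agent.X261.TD (PSet)

section gen

variable {k : Type} [Field k] [Finite k] {f : k[X]}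

theorem dsc_ne (hf : Cub f) : dsc f ≠ 0 := by
  intro h
  have h1 := dsc_comp hf.mon hf.deg
  rw [h, zero_comp] at h1
  exact mul_ne_zero (pow_ne_zero 2 hf.der) (dlt_ne hf.mon hf.deg hf.two hf.der) h1.symm

omit [Finite k] in
theorem dsc_deg : (dsc f).natDegree ≤ 2 := by
  unfold dsc
  compute_degree

/-- The good primes are the primes which do not divide the discriminant. -/
theorem Gd_iff (hf : Cub f) {P : k[X]} (mP : P.Monic) (iP : Irreducible P) :
    Gd f P ↔ ¬ P ∣ dsc f := by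
  have hg := Pool.Agent.X261.TD.comp_ne (f := f) hf.deg iP.ne_zero
  constructor
  · intro h hd
    obtain ⟨Z, hZ⟩ := hd
    have h1 : P.comp f ∣ derivative f ^ 2 * dlt f := by
      rw [← dsc_comp hf.mon hf.deg, hZ, mul_comp]
      exact dvd_mul_right _ _
    haveI : Fintype k := Fintype.ofFinite k
    have h2 : P.comp f ∣ dlt f := ((h.cop_deriv hf).pow_right).dvd_of_dvd_mul_left h1
    have h5 := natDegree_le_of_dvd h2 (dlt_ne hf.mon hf.deg hf.two hf.der)
    rw [natDegree_comp, hf.deg] at h5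
    have h6 := dlt_deg (f := f)
    have h7 := iP.natDegree_pos
    omega
  · intro hnd
    refine ⟨mP, iP, ?_⟩
    rw [squarefree_iff_irreducible_sq_not_dvd_of_ne_zero hg]
    intro R iR hR
    have hRP : R ∣ P.comp f := (dvd_mul_right R R).trans hR
    have h2 : R ∣ derivative (P.comp f) := by
      obtain ⟨Z, hZ⟩ := hR
      rw [hZ, mul_assoc, derivative_mul, derivative_mul]
      exact dvd_add ((dvd_mul_right R Z).mul_left _) ((dvd_mul_right R _))
    rw [derivative_comp] at h2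
    have h3 : R ∣ derivative f := by
      rcases iR.prime.dvd_or_dvd h2 with h3 | h3
      · exact h3
      · exfalso
        have hsep : P.Separable := PerfectField.separable_of_irreducible iP
        obtain ⟨a, b, hab⟩ := hsep
        have h4 := congrArg (fun g : k[X] => g.comp f) hab
        simp only [add_comp, mul_comp, one_comp] at h4
        exact iR.not_isUnit (isUnit_of_dvd_one (h4 ▸ dvd_add (hRP.mul_left _) (h3.mul_left _)))
    have h4 : R ∣ (dsc f).comp f := by
      rw [dsc_comp hf.mon hf.deg]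
      exact (h3.trans (dvd_pow_self _ two_ne_zero)).mul_right _
    obtain ⟨a, b, hab⟩ := (iP.coprime_iff_not_dvd).2 hnd
    have h5 := congrArg (fun g : k[X] => g.comp f) hab
    simp only [add_comp, mul_comp, one_comp] at h5
    exact iR.not_isUnit (isUnit_of_dvd_one (h5 ▸ dvd_add (hRP.mul_left _) (h4.mul_left _)))

/-- The number of the polynomials. -/
theorem card_US_ge (hf : Cub f) {n : ℕ} (hn : 4 ≤ n) :
    2 / 9 * (Nat.card k : ℝ) ^ n ≤ ((US (dsc f) n).card : ℝ) := by
  have hq : 3 ≤ Nat.card k := Pool.Agent.Y784.SV.three_le hf.two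
  obtain ⟨m, rfl⟩ : ∃ m, n = m + 4 := ⟨n - 4, by omega⟩
  have c4 := card_sqf (k := k) (m + 2)
  have c3 := card_sqf (k := k) (m + 1)
  have c2 := card_sqf (k := k) m
  -- the polynomials which are not prime to the discriminant
  have h1 : US (1 : k[X]) (m + 4) ⊆ US (dsc f) (m + 4) ∪
      (primes (dsc f)).biUnion fun P => (US (1 : k[X]) (m + 4 - P.natDegree)).image fun D => P * D := by
    intro D hD
    rw [mem_US] at hD
    obtain ⟨a1, a2, a3, a4⟩ := hD
    rw [Finset.mem_union]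
    by_cases hc : IsCoprime D (dsc f)
    · left
      exact mem_US.2 ⟨a1, a2, hc, a4⟩
    · right
      rw [← EuclideanDomain.gcd_isUnit_iff] at hc
      have hg0 : EuclideanDomain.gcd D (dsc f) ≠ 0 := fun h0 =>
        a1.ne_zero (EuclideanDomain.gcd_eq_zero_iff.1 h0).1
      obtain ⟨Q, iQ, hQ⟩ := WfDvdMonoid.exists_irreducible_factor hc hg0
      have mN := monic_normalize iQ.ne_zero
      have iN := (normalize_associated Q).symm.irreducible iQ
      have hN1 : normalize Q ∣ D := normalize_dvd_iff.2 (hQ.trans (EuclideanDomain.gcd_dvd_left _ _))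
      have hN2 : normalize Q ∣ dsc f :=
        normalize_dvd_iff.2 (hQ.trans (EuclideanDomain.gcd_dvd_right _ _))
      obtain ⟨D', rfl⟩ := hN1
      rw [Finset.mem_biUnion]
      refine ⟨normalize Q, (mem_primes (dsc_ne hf) _).2 ⟨mN, iN, hN2⟩, ?_⟩
      rw [Finset.mem_image]
      have m1 : D'.Monic := mN.of_mul_monic_left a1
      refine ⟨D', mem_US.2 ⟨m1, ?_, isCoprime_one_right, a4.squarefree_of_dvd (dvd_mul_left _ _)⟩, rfl⟩
      rw [mN.natDegree_mul m1] at a2
      omega
  have h2 : ∀ P ∈ primes (dsc f), ((US (1 : k[X]) (m + 4 - P.natDegree)).image fun D => P * D).card ≤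
      Nat.card k ^ (m + 3) - Nat.card k ^ (m + 2) := by
    intro P hP
    obtain ⟨p1, p2, p3⟩ := (mem_primes (dsc_ne hf) P).1 hP
    have h3 := natDegree_le_of_dvd p3 (dsc_ne hf)
    have h4 := dsc_deg (f := f)
    have h5 := p2.natDegree_pos
    refine Finset.card_image_le.trans ?_
    have h6 : P.natDegree = 1 ∨ P.natDegree = 2 := by omega
    have h7 : Nat.card k ^ (m + 3) = Nat.card k ^ (m + 2) * Nat.card k := pow_succ _ _
    have h8 : Nat.card k ^ (m + 2) * 3 ≤ Nat.card k ^ (m + 2) * Nat.card k := Nat.mul_le_mul_left _ hq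
    rcases h6 with h6 | h6
    · rw [h6]
      have e : m + 4 - 1 = m + 1 + 2 := by omega
      rw [e]
      have e2 : m + 1 + 1 = m + 2 := rfl
      have e3 : m + 1 + 2 = m + 3 := rfl
      rw [e2, e3] at c3
      rw [e3]
      omega
    · rw [h6]
      have e : m + 4 - 2 = m + 2 := by omega
      rw [e]
      omega
  have h3 := (Finset.card_le_card h1).trans ((Finset.card_union_le _ _).trans
    (Nat.add_le_add_left (Finset.card_biUnion_le.trans (Finset.sum_le_card_nsmul _ _ _ h2)) _))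
  have h4 : (primes (dsc f)).card ≤ 2 := (card_primes_le (dsc_ne hf)).trans dsc_deg
  rw [smul_eq_mul] at h3
  have h5 := h3.trans (Nat.add_le_add_left (Nat.mul_le_mul_right _ h4) _)
  have hq' : (3 : ℝ) ≤ Nat.card k := by exact_mod_cast hq
  have h7 : Nat.card k ^ (m + 2) ≤ Nat.card k ^ (m + 3) := Nat.pow_le_pow_right (by omega) (by omega)
  have h6 : ((US (1 : k[X]) (m + 4)).card : ℝ) ≤ (US (dsc f) (m + 4)).card +
      2 * ((Nat.card k : ℝ) ^ (m + 3) - (Nat.card k : ℝ) ^ (m + 2)) := by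
    have : ((US (1 : k[X]) (m + 4)).card : ℝ) ≤ (((US (dsc f) (m + 4)).card +
      2 * (Nat.card k ^ (m + 3) - Nat.card k ^ (m + 2)) : ℕ) : ℝ) := by exact_mod_cast h5
    rw [Nat.cast_add, Nat.cast_mul, Nat.cast_sub h7] at this
    push_cast at this
    exact this
  have c4' : ((US (1 : k[X]) (m + 4)).card : ℝ) + (Nat.card k : ℝ) ^ (m + 3) =
      (Nat.card k : ℝ) ^ (m + 4) := by exact_mod_cast c4
  have hp : 0 ≤ (Nat.card k : ℝ) ^ (m + 2) := by positivity
  have e3 : (Nat.card k : ℝ) ^ (m + 3) = (Nat.card k : ℝ) ^ (m + 2) * Nat.card k := pow_succ _ _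
  have e4 : (Nat.card k : ℝ) ^ (m + 4) = (Nat.card k : ℝ) ^ (m + 2) * Nat.card k ^ 2 := by ring
  rw [e3] at c4' h6
  rw [e4] at c4' ⊢
  generalize (Nat.card k : ℝ) = q at *
  generalize q ^ (m + 2) = x at *
  have h8 : 0 ≤ x * ((q - 3) * (7 * q - 6)) := by
    apply mul_nonneg hp
    apply mul_nonneg <;> linarith
  nlinarith

end gen

section fin

variable {k : Type} [Field k] [Fintype k] {f : k[X]}

theorem SS_pset {n : ℕ} {S : Finset k[X]} (hS : S ∈ SS f n) : PSet S := fun P hP =>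
  ⟨((mem_SS.1 hS).1 P hP).mP, ((mem_SS.1 hS).1 P hP).iP⟩

/-- The sets of good primes are the squarefree polynomials prime to the discriminant. -/
theorem prod_mem (hf : Cub f) {n : ℕ} {S : Finset k[X]} (hS : S ∈ SS f n) :
    ∏ P ∈ S, P ∈ US (dsc f) n := by
  obtain ⟨h1, h2⟩ := mem_SS.1 hS
  rw [mem_US]
  refine ⟨monic_prod_of_monic _ _ fun P hP => (h1 P hP).mP, ?_, ?_, ?_⟩
  · rw [natDegree_prod_of_monic _ _ fun P hP => (h1 P hP).mP, h2]
  · exact IsCoprime.prod_left fun P hP => ((h1 P hP).iP.coprime_iff_not_dvd).2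
      ((Gd_iff hf (h1 P hP).mP (h1 P hP).iP).1 (h1 P hP))
  · refine Finset.squarefree_prod_of_pairwise_isCoprime ?_ fun P hP => (h1 P hP).iP.squarefree
    intro P hP Q hQ hne
    exact (Pool.Agent.X261.TD.coprime_of_ne ⟨(h1 P hP).mP, (h1 P hP).iP⟩
      ⟨(h1 Q hQ).mP, (h1 Q hQ).iP⟩ hne).isRelPrime

theorem primes_mem (hf : Cub f) {n : ℕ} {D : k[X]} (hD : D ∈ US (dsc f) n) : primes D ∈ SS f n := by
  obtain ⟨a1, a2, a3, a4⟩ := mem_US.1 hD
  have h0 := Pool.Agent.X261.TD.prod_primes a1 a4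
  rw [mem_SS]
  constructor
  · intro P hP
    obtain ⟨m1, m2, m3⟩ := (mem_primes a1.ne_zero P).1 hP
    rw [Gd_iff hf m1 m2]
    intro h4
    exact m2.not_isUnit (a3.isUnit_of_dvd' m3 h4)
  · rw [← natDegree_prod_of_monic _ _ fun P hP => ((mem_primes a1.ne_zero P).1 hP).1, h0, a2]

/-- Sums over the sets of good primes. -/
theorem sum_SS (hf : Cub f) {M : Type} [AddCommMonoid M] (n : ℕ) (Φ : Finset k[X] → M) :
    ∑ S ∈ SS f n, Φ S = ∑ D ∈ US (dsc f) n, Φ (primes D) := by
  refine Finset.sum_bij' (fun S _ => ∏ P ∈ S, P) (fun D _ => primes D) ?_ ?_ ?_ ?_ ?_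
  · intro S hS
    exact prod_mem hf hS
  · intro D hD
    exact primes_mem hf hD
  · intro S hS
    have h1 := mem_US.1 (prod_mem hf hS)
    exact (Pool.Agent.X261.TD.pset_primes h1.1.ne_zero).eq (SS_pset hS)
      (Pool.Agent.X261.TD.prod_primes h1.1 h1.2.2.2)
  · intro D hD
    obtain ⟨a1, a2, a3, a4⟩ := mem_US.1 hD
    exact Pool.Agent.X261.TD.prod_primes a1 a4
  · intro S hS
    have h1 := mem_US.1 (prod_mem hf hS)
    rw [(Pool.Agent.X261.TD.pset_primes h1.1.ne_zero).eq (SS_pset hS)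
      (Pool.Agent.X261.TD.prod_primes h1.1 h1.2.2.2)]

theorem card_SS (hf : Cub f) (n : ℕ) : (SS f n).card = (US (dsc f) n).card := by
  have h := sum_SS hf n fun _ : Finset k[X] => 1
  rwa [← Finset.card_eq_sum_ones, ← Finset.card_eq_sum_ones] at h

theorem card_SS_ge (hf : Cub f) {n : ℕ} (hn : 4 ≤ n) : 2 / 9 * qq k ^ n ≤ ((SS f n).card : ℝ) := by
  rw [card_SS hf]
  have h := card_US_ge hf hn
  rwa [Nat.card_eq_fintype_card] at h

theorem card_SS_le (hf : Cub f) (n : ℕ) : ((SS f n).card : ℝ) ≤ qq k ^ n := by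
  rw [card_SS hf]
  have h1 : (US (dsc f) n).card ≤ Nat.card k ^ n := by
    rw [← Pool.Agent.X261.TD.card_monF (k := k) n]
    refine Finset.card_le_card fun D hD => ?_
    obtain ⟨a1, a2, a3, a4⟩ := mem_US.1 hD
    unfold Pool.Agent.X261.TD.monF
    rw [Set.Finite.mem_toFinset]
    exact ⟨a1, a2⟩
  rw [Nat.card_eq_fintype_card] at h1
  unfold qq
  exact_mod_cast h1

end fin

end Pool.Agent.H4.AV
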