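import Pool.Agent.H4.AV.Num

/-!
# Coloured sets of primes
-/

set_option autoImplicit false
set_option linter.all false

open Polynomial
open scoped Classical

namespace Pool.Agent.H4.AV

open Pool.Agent.H341R2.Sharp (lam)
open Pool.Agent.Y164.PS (lam_mem lam_eq_zero_iff lam_mul_left lam_irr Pr mem_Pr)
open Pool.Agent.X261.TD (ones)
open Pool.Agent.H4.SA

/-- A prime with two colours. -/
abbrev Tri (k : Type) [Field k] : Type := k[X] × (k[X] × k[X])

/-- The two colours are colours of the prime. -/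
structure Vd {k : Type} [Field k] (f : k[X]) (κ : Tri k) : Prop where
  gd : Gd f κ.1
  v : κ.2.1 ∈ VV f κ.1
  w : κ.2.2 ∈ VV f κ.1

/-- A coloured set of primes. -/
structure Col {k : Type} [Field k] (f : k[X]) (K : Finset (Tri k)) : Prop where
  vd : ∀ κ ∈ K, Vd f κ
  inj : ∀ κ ∈ K, ∀ κ' ∈ K, κ.1 = κ'.1 → κ = κ'

theorem Col.sub {k : Type} [Field k] {f : k[X]} {K K' : Finset (Tri k)} (h : Col f K)
    (hs : K' ⊆ K) : Col f K' :=
  ⟨fun κ hκ => h.vd κ (hs hκ), fun κ hκ κ' hκ' => h.inj κ (hs hκ) κ' (hs hκ')⟩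

theorem Col.fresh {k : Type} [Field k] {f : k[X]} {K : Finset (Tri k)} {κ : Tri k}
    (h : Col f (insert κ K)) (hκ : κ ∉ K) : ∀ κ' ∈ K, κ'.1 ≠ κ.1 := fun κ' h' he =>
  hκ (h.inj κ' (Finset.mem_insert_of_mem h') κ (Finset.mem_insert_self _ _) he ▸ h')

theorem Col.insert {k : Type} [Field k] {f : k[X]} {K : Finset (Tri k)} {κ : Tri k}
    (h : Col f K) (hκ : Vd f κ) (hf : ∀ κ' ∈ K, κ'.1 ≠ κ.1) : Col f (insert κ K) := by
  refine ⟨fun κ' h' => ?_, fun κ' h' κ'' h'' he => ?_⟩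
  · rcases Finset.mem_insert.1 h' with rfl | h'
    · exact hκ
    · exact h.vd κ' h'
  · rcases Finset.mem_insert.1 h' with h' | h' <;> rcases Finset.mem_insert.1 h'' with h'' | h''
    · rw [h', h'']
    · rw [h'] at he
      exact absurd he.symm (hf κ'' h'')
    · rw [h''] at he
      exact absurd he (hf κ' h')
    · exact h.inj κ' h' κ'' h'' he

section fin

variable {k : Type} [Field k] [Fintype k]

/-- The sign of a prime with two colours. -/
noncomputable def dg (f : k[X]) (u : k) (κ : Tri k) : ℤ := dgn f u κ.1 κ.2.1 κ.2.2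

/-- The sign of an ordered pair of primes with colours. -/
noncomputable def sg (f : k[X]) (κ' κ : Tri k) : ℤ := sig f κ'.1 κ'.2.1 κ.1 κ.2.1 κ.2.2

/-- The sign of a coloured set of primes. -/
noncomputable def sgn (f : k[X]) (u : k) (K : Finset (Tri k)) : ℤ :=
  ∏ κ ∈ K, (dg f u κ * ∏ κ' ∈ K.erase κ, sg f κ' κ)

variable {f : k[X]} {u : k} {K : Finset (Tri k)} {κ : Tri k}

theorem sgn_empty : sgn f u ∅ = 1 := rfl

theorem sgn_insert (hκ : κ ∉ K) :
    sgn f u (insert κ K) = sgn f u K * (dg f u κ * ∏ κ' ∈ K, (sg f κ' κ * sg f κ κ')) := by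
  unfold sgn
  rw [Finset.prod_insert hκ, Finset.erase_insert hκ]
  have h1 : ∀ κ' ∈ K, dg f u κ' * ∏ κ'' ∈ (insert κ K).erase κ', sg f κ'' κ' =
      (dg f u κ' * ∏ κ'' ∈ K.erase κ', sg f κ'' κ') * sg f κ κ' := by
    intro κ' h'
    have hne : κ ≠ κ' := fun h => hκ (h ▸ h')
    rw [Finset.erase_insert_of_ne hne, Finset.prod_insert fun h => hκ (Finset.mem_of_mem_erase h)]
    ring
  rw [Finset.prod_congr rfl h1, Finset.prod_mul_distrib, Finset.prod_mul_distrib,
    Finset.prod_mul_distrib (s := K) (f := fun κ' => sg f κ' κ)]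
  ring

theorem sgn_sq (hf : Cub f) (hu : u ≠ 0) (hK : Col f K) : sgn f u K * sgn f u K = 1 := by
  unfold sgn
  rw [← Finset.prod_mul_distrib]
  refine Finset.prod_eq_one fun κ hκ => ?_
  have h := hK.vd κ hκ
  rw [mul_mul_mul_comm, ← Finset.prod_mul_distrib]
  have h1 : dg f u κ * dg f u κ = 1 := dgn_sq hf hu h.gd h.v h.w
  rw [h1, one_mul]
  refine Finset.prod_eq_one fun κ' hκ' => ?_
  have h' := hK.vd κ' (Finset.mem_of_mem_erase hκ')
  have hne : κ.1 ≠ κ'.1 := fun he =>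
    (Finset.mem_erase.1 hκ').1 (hK.inj κ hκ κ' (Finset.mem_of_mem_erase hκ') he).symm
  exact sig_sq hf h.gd h'.gd hne h'.v h.w

theorem sgn_pm (hf : Cub f) (hu : u ≠ 0) (hK : Col f K) : sgn f u K = 1 ∨ sgn f u K = -1 :=
  mul_self_eq_one_iff.1 (sgn_sq hf hu hK)

/-- The rotation of the colours. -/
noncomputable def rot (f : k[X]) (κ : Tri k) : Tri k := (κ.1, κ.2.2, addc f κ.1 κ.2.1 κ.2.2)

omit [Fintype k] in
theorem rot_fst : (rot f κ).1 = κ.1 := rfl

theorem rot_vd (hf : Cub f) (h : Vd f κ) : Vd f (rot f κ) :=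
  ⟨h.gd, h.w, addc_mem hf h.gd h.v h.w⟩

theorem rot_three (hf : Cub f) (h : Vd f κ) : rot f (rot f (rot f κ)) = κ := by
  obtain ⟨P, v, w⟩ := κ
  have h1 := addc_cyc hf h.gd h.v h.w
  simp only [rot]
  simp only at h1
  rw [h1.1, h1.2]

/-- The rotation of a coloured set. -/
noncomputable def rotK (f : k[X]) (K : Finset (Tri k)) : Finset (Tri k) := K.image (rot f)

omit [Fintype k] in
theorem mem_rotK : κ ∈ rotK f K ↔ ∃ κ' ∈ K, rot f κ' = κ := Finset.mem_image

theorem rotK_col (hf : Cub f) (hK : Col f K) : Col f (rotK f K) := by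
  refine ⟨fun κ hκ => ?_, fun κ hκ κ' hκ' he => ?_⟩
  · obtain ⟨a, ha, rfl⟩ := mem_rotK.1 hκ
    exact rot_vd hf (hK.vd a ha)
  · obtain ⟨a, ha, rfl⟩ := mem_rotK.1 hκ
    obtain ⟨b, hb, rfl⟩ := mem_rotK.1 hκ'
    rw [rot_fst, rot_fst] at he
    rw [hK.inj a ha b hb he]

omit [Fintype k] in
theorem rot_inj (hK : Col f K) : Set.InjOn (rot f) (K : Set (Tri k)) := fun a ha b hb he =>
  hK.inj a ha b hb (show (rot f a).1 = (rot f b).1 by rw [he])

theorem rotK_three (hf : Cub f) (hK : Col f K) : rotK f (rotK f (rotK f K)) = K := by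
  unfold rotK
  rw [Finset.image_image, Finset.image_image]
  ext κ
  rw [Finset.mem_image]
  constructor
  · rintro ⟨a, ha, rfl⟩
    show rot f (rot f (rot f a)) ∈ K
    rw [rot_three hf (hK.vd a ha)]
    exact ha
  · intro h
    exact ⟨κ, h, rot_three hf (hK.vd κ h)⟩

theorem sum_rotK {M : Type} [AddCommMonoid M] (hK : Col f K) (g : Tri k → M) :
    ∑ κ ∈ rotK f K, g κ = ∑ κ ∈ K, g (rot f κ) := Finset.sum_image (rot_inj hK)

theorem prod_rotK {M : Type} [CommMonoid M] (hK : Col f K) (g : Tri k → M) :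
    ∏ κ ∈ rotK f K, g κ = ∏ κ ∈ K, g (rot f κ) := Finset.prod_image (rot_inj hK)

/-- The sign does not change under the rotation. -/
theorem sgn_rotK (hf : Cub f) : ∀ K : Finset (Tri k), Col f K → sgn f u (rotK f K) = sgn f u K := by
  intro K
  induction K using Finset.induction_on with
  | empty => intro _; rfl
  | insert κ K hκ ih =>
    intro hK
    have hK' := hK.sub (Finset.subset_insert κ K)
    have hfr := hK.fresh hκ
    have hκv := hK.vd κ (Finset.mem_insert_self κ K)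
    have hκ' : rot f κ ∉ rotK f K := by
      intro h
      obtain ⟨a, ha, he⟩ := mem_rotK.1 h
      exact hfr a ha (show (rot f a).1 = (rot f κ).1 by rw [he])
    have e1 : rotK f (insert κ K) = insert (rot f κ) (rotK f K) := Finset.image_insert _ _ _
    rw [e1, sgn_insert hκ', sgn_insert hκ, ih hK', prod_rotK hK']
    have e2 : dg f u (rot f κ) = dg f u κ := dgn_inv hf u hκv.gd hκv.v hκv.w
    rw [e2]
    congr 2
    refine Finset.prod_congr rfl fun κ' h' => ?_
    have hv' := hK'.vd κ' h'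
    exact pair_inv hf hκv.gd hv'.gd (Ne.symm (hfr κ' h')) hκv.v hκv.w hv'.v hv'.w

/-- The sign is one if the second colours are trivial. -/
theorem sgn_main (hf : Cub f) (h : ∀ κ ∈ K, κ.2.2 = 1) : sgn f u K = 1 := by
  unfold sgn
  refine Finset.prod_eq_one fun κ hκ => ?_
  have h1 : dg f u κ = 1 := by
    unfold dg dgn
    rw [if_neg fun h' => h'.2.1 (h κ hκ)]
  rw [h1, one_mul]
  refine Finset.prod_eq_one fun κ' hκ' => ?_
  unfold sg sig
  rw [if_pos (h κ hκ), if_neg fun h' => h'.2.1 (h κ hκ), one_mul]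

end fin

end Pool.Agent.H4.AV
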