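import Pool.Agent.H4.AV.Mass

/-!
# The decomposition of the sum over the coloured sets
-/

set_option autoImplicit false
set_option linter.all false

open Polynomial
open scoped Classical

namespace Pool.Agent.H4.AV

open Pool.Agent.H341R2.Sharp (lam)
open Pool.Agent.Y164.PS (lam_mem lam_eq_zero_iff lam_mul_left lam_irr Pr mem_Pr card_Pr_le card_Pr_ge
  abs_lam_le char_sum lam_one_left)
open Pool.Agent.X261.TD (ones)
open Pool.Agent.TH943.HJ (primes mem_primes)
open Pool.Agent.H4.SA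

section fin

variable {k : Type} [Field k] [Fintype k] {f : k[X]} {u : k}

/-- The type `(v, 1)`. -/
def tA (κ : Tri k) : Prop := κ.2.1 ≠ 1 ∧ κ.2.2 = 1

/-- The type `(v, v)`. -/
def tC (κ : Tri k) : Prop := κ.2.1 ≠ 1 ∧ κ.2.1 = κ.2.2

/-- The coloured sets with the main contribution. -/
def Mn (K : Finset (Tri k)) : Prop :=
  (∀ κ ∈ K, κ.2.2 = 1) ∨ (∀ κ ∈ K, κ.2.1 = 1) ∨ (∀ κ ∈ K, κ.2.1 = κ.2.2)

/-- The product of the weights. -/
noncomputable def hK (f : k[X]) (e : ℕ) (K : Finset (Tri k)) : ℝ := ∏ κ ∈ K, hw f e κ.1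

/-- The weighted sign. -/
noncomputable def FF (f : k[X]) (u : k) (e : ℕ) (K : Finset (Tri k)) : ℝ :=
  hK f e K * (sgn f u K : ℝ)

omit [Fintype k] in
theorem abs_hw (e : ℕ) (κ : Tri k) : |hw f e κ.1| = wt f κ := by
  unfold hw wt
  rw [abs_div, abs_pow, Nat.abs_cast]
  rcases psi_pm (f := f) κ.1 with h | h <;> rw [h] <;> simp

omit [Fintype k] in
theorem abs_hK (e : ℕ) (K : Finset (Tri k)) : |hK f e K| = wK f K := by
  unfold hK wK
  rw [Finset.abs_prod]
  exact Finset.prod_congr rfl fun κ _ => abs_hw e κ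

theorem abs_FF (hf : Cub f) (hu : u ≠ 0) (e : ℕ) {K : Finset (Tri k)} (hc : Col f K) :
    |FF f u e K| = wK f K := by
  unfold FF
  rw [abs_mul, abs_hK]
  rcases sgn_pm hf hu hc with h | h <;> rw [h] <;> simp

theorem FF_insert {e : ℕ} {K : Finset (Tri k)} {d : ℕ} {κ : Tri k} (hκ : κ ∈ fr f d K) :
    FF f u e (insert κ K) = FF f u e K * (hw f e κ.1 *
      ((dg f u κ * ∏ κ' ∈ K, (sg f κ' κ * sg f κ κ') : ℤ) : ℝ)) := by
  unfold FF hK
  rw [Finset.prod_insert (fr_notMem hκ), sgn_insert (fr_notMem hκ)]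
  push_cast
  ring

theorem FF_rotK (hf : Cub f) (e : ℕ) {K : Finset (Tri k)} (hc : Col f K) :
    FF f u e (rotK f K) = FF f u e K := by
  unfold FF hK
  rw [prod_rotK hc, sgn_rotK hf K hc]
  rfl

theorem rotK_KK (hf : Cub f) {n : ℕ} {K : Finset (Tri k)} (hK : K ∈ KK f n) : rotK f K ∈ KK f n := by
  obtain ⟨h1, h2⟩ := mem_KK.1 hK
  refine mem_KK.2 ⟨rotK_col hf h1, ?_⟩
  rw [sum_rotK h1]
  exact h2

theorem sum_rot (hf : Cub f) (n : ℕ) (Φ : Finset (Tri k) → ℝ) :
    ∑ K ∈ KK f n, Φ (rotK f K) = ∑ K ∈ KK f n, Φ K := by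
  refine Finset.sum_bij' (fun K _ => rotK f K) (fun K _ => rotK f (rotK f K)) ?_ ?_ ?_ ?_ ?_
  · intro K hK
    exact rotK_KK hf hK
  · intro K hK
    exact rotK_KK hf (rotK_KK hf hK)
  · intro K hK
    exact rotK_three hf (mem_KK.1 hK).1
  · intro K hK
    exact rotK_three hf (mem_KK.1 hK).1
  · intro K hK
    rfl

/-- The number of the large primes of a given type. -/
noncomputable def cn (τ : Tri k → Prop) (L : ℕ) (K : Finset (Tri k)) : ℝ :=
  ((K.filter fun κ => L < κ.1.natDegree ∧ τ κ).card : ℝ)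

omit [Fintype k] in
theorem cn_nonneg (τ : Tri k → Prop) (L : ℕ) (K : Finset (Tri k)) : 0 ≤ cn τ L K :=
  Nat.cast_nonneg _

theorem cn_rotK (τ σ : Tri k → Prop) (L : ℕ) {K : Finset (Tri k)} (hc : Col f K)
    (h : ∀ κ ∈ K, (τ (rot f κ) ↔ σ κ)) : cn τ L (rotK f K) = cn σ L K := by
  unfold cn
  congr 1
  have e1 : (rotK f K).filter (fun κ => L < κ.1.natDegree ∧ τ κ) =
      (K.filter fun κ => L < κ.1.natDegree ∧ σ κ).image (rot f) := by
    ext κ
    rw [Finset.mem_filter, mem_rotK, Finset.mem_image]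
    constructor
    · rintro ⟨⟨κ', h', rfl⟩, h1, h2⟩
      exact ⟨κ', Finset.mem_filter.2 ⟨h', h1, (h κ' h').1 h2⟩, rfl⟩
    · rintro ⟨κ', h', rfl⟩
      obtain ⟨h1, h2, h3⟩ := Finset.mem_filter.1 h'
      exact ⟨⟨κ', h1, rfl⟩, h2, (h κ' h1).2 h3⟩
  rw [e1, Finset.card_image_of_injOn fun a ha b hb he => hc.inj a (Finset.mem_filter.1 ha).1 b
    (Finset.mem_filter.1 hb).1 (show (rot f a).1 = (rot f b).1 by rw [he])]

theorem rot_types (hf : Cub f) {κ : Tri k} (h : Vd f κ) :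
    (tB (rot f κ) ↔ tA κ) ∧ (tC (rot f κ) ↔ tB κ) ∧
      ((rot f κ).2.2 = 1 ↔ κ.2.1 = κ.2.2) ∧ ((rot f κ).2.1 = 1 ↔ κ.2.2 = 1) ∧
      ((rot f κ).2.1 = (rot f κ).2.2 ↔ κ.2.1 = 1) := by
  obtain ⟨P, v, w⟩ := κ
  have hP := h.gd
  have hv := h.v
  have hw := h.w
  simp only [tB, tA, tC, rot] at hP hv hw ⊢
  rcases pair_cases' hf hP hv hw with ⟨h1, h2⟩ | ⟨h1, h2⟩ | ⟨h1, h2⟩ | ⟨h1, h2⟩ |
    ⟨R, g1, g2, g3, g12, g13, g23, g0⟩
  · subst h1; subst h2
    simp [addc_one_left]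
  · subst h1
    have := h2.ne_one
    simp [addc_one_left, this, Ne.symm this]
  · subst h2
    have := h1.ne_one
    simp [addc_one_right, this, Ne.symm this]
  · subst h2
    have := h1.ne_one
    simp [addc_self, this]
  · rw [addc_third hf g1 g2 g3 g12 g13 g23]
    have e1 := g1.ne_one
    have e2 := g2.ne_one
    have e3 := g3.ne_one
    simp [e1, e2, e3, g12, g13, g23]

theorem Mn_rotK (hf : Cub f) {K : Finset (Tri k)} (hc : Col f K) : Mn (rotK f K) ↔ Mn K := by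
  have h1 : ∀ p : Tri k → Prop, (∀ κ ∈ rotK f K, p κ) ↔ ∀ κ ∈ K, p (rot f κ) := by
    intro p
    constructor
    · intro h κ hκ
      exact h _ (mem_rotK.2 ⟨κ, hκ, rfl⟩)
    · intro h κ hκ
      obtain ⟨κ', h', rfl⟩ := mem_rotK.1 hκ
      exact h κ' h'
  unfold Mn
  rw [h1, h1, h1]
  have e1 : (∀ κ ∈ K, (rot f κ).2.2 = 1) ↔ ∀ κ ∈ K, κ.2.1 = κ.2.2 :=
    forall₂_congr fun κ hκ => (rot_types hf (hc.vd κ hκ)).2.2.1
  have e2 : (∀ κ ∈ K, (rot f κ).2.1 = 1) ↔ ∀ κ ∈ K, κ.2.2 = 1 :=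
    forall₂_congr fun κ hκ => (rot_types hf (hc.vd κ hκ)).2.2.2.1
  have e3 : (∀ κ ∈ K, (rot f κ).2.1 = (rot f κ).2.2) ↔ ∀ κ ∈ K, κ.2.1 = 1 :=
    forall₂_congr fun κ hκ => (rot_types hf (hc.vd κ hκ)).2.2.2.2
  rw [e1, e2, e3]
  tauto

/-- The number of the large primes of the types `(v, 1)`, `(1, w)`, `(v, v)`. -/
noncomputable def EE (L : ℕ) (K : Finset (Tri k)) : ℝ := cn tA L K + cn tB L K + cn tC L K

omit [Fintype k] in
theorem EE_nonneg (L : ℕ) (K : Finset (Tri k)) : 0 ≤ EE L K := by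
  unfold EE
  have h1 := cn_nonneg tA L K
  have h2 := cn_nonneg tB L K
  have h3 := cn_nonneg tC L K
  linarith

theorem cn_rot1 (hf : Cub f) (L : ℕ) {K : Finset (Tri k)} (hc : Col f K) :
    cn tB L (rotK f K) = cn tA L K ∧ cn tC L (rotK f K) = cn tB L K ∧
      cn tA L (rotK f K) = cn tC L K := by
  have hc' := rotK_col hf hc
  refine ⟨cn_rotK _ _ L hc fun κ hκ => (rot_types hf (hc.vd κ hκ)).1,
    cn_rotK _ _ L hc fun κ hκ => (rot_types hf (hc.vd κ hκ)).2.1,
    cn_rotK _ _ L hc fun κ hκ => ?_⟩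
  obtain ⟨h1, h2, h3, h4, h5⟩ := rot_types hf (hc.vd κ hκ)
  unfold tA tC
  rw [h3, Ne, h4]
  constructor
  · rintro ⟨h6, h7⟩
    exact ⟨h7 ▸ h6, h7⟩
  · rintro ⟨h6, h7⟩
    exact ⟨h7 ▸ h6, h7⟩

theorem EE_rotK (hf : Cub f) (L : ℕ) {K : Finset (Tri k)} (hc : Col f K) :
    EE L (rotK f K) = EE L K := by
  obtain ⟨h1, h2, h3⟩ := cn_rot1 hf L hc
  unfold EE
  rw [h1, h2, h3]
  ring

/-- The function which is summed. -/
noncomputable def G1 (f : k[X]) (u : k) (e L : ℕ) (K : Finset (Tri k)) : ℝ :=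
  if ¬ Mn K ∧ 0 < EE L K then FF f u e K / EE L K else 0

theorem G1_rotK (hf : Cub f) (e L : ℕ) {K : Finset (Tri k)} (hc : Col f K) :
    G1 f u e L (rotK f K) = G1 f u e L K := by
  unfold G1
  rw [FF_rotK hf e hc, EE_rotK hf L hc, Mn_rotK hf hc]

/-- The rotation reduces the sum to one type. -/
theorem sum_G1 (hf : Cub f) (e L n : ℕ) :
    ∑ K ∈ KK f n, (if ¬ Mn K ∧ 0 < EE L K then FF f u e K else 0) =
      3 * ∑ K ∈ KK f n, G1 f u e L K * cn tB L K := by
  have e1 : ∀ K ∈ KK f n, (if ¬ Mn K ∧ 0 < EE L K then FF f u e K else 0) =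
      G1 f u e L K * cn tA L K + G1 f u e L K * cn tB L K + G1 f u e L K * cn tC L K := by
    intro K _
    rw [← mul_add, ← mul_add]
    show _ = G1 f u e L K * EE L K
    unfold G1
    split_ifs with h
    · rw [div_mul_cancel₀ _ h.2.ne']
    · rw [zero_mul]
  have e2 : ∑ K ∈ KK f n, G1 f u e L K * cn tA L K = ∑ K ∈ KK f n, G1 f u e L K * cn tB L K := by
    rw [← sum_rot hf n fun K => G1 f u e L K * cn tB L K]
    refine Finset.sum_congr rfl fun K hK => ?_
    have hc := (mem_KK.1 hK).1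
    rw [G1_rotK hf e L hc, (cn_rot1 hf L hc).1]
  have e3 : ∑ K ∈ KK f n, G1 f u e L K * cn tB L K = ∑ K ∈ KK f n, G1 f u e L K * cn tC L K := by
    rw [← sum_rot hf n fun K => G1 f u e L K * cn tC L K]
    refine Finset.sum_congr rfl fun K hK => ?_
    have hc := (mem_KK.1 hK).1
    rw [G1_rotK hf e L hc, (cn_rot1 hf L hc).2.1]
  rw [Finset.sum_congr rfl e1, Finset.sum_add_distrib, Finset.sum_add_distrib, e2, ← e3]
  ring

theorem cn_insert {τ : Tri k → Prop} {L : ℕ} {K : Finset (Tri k)} {κ : Tri k} (hκ : κ ∉ K) :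
    cn τ L (insert κ K) = cn τ L K + if L < κ.1.natDegree ∧ τ κ then 1 else 0 := by
  unfold cn
  rw [Finset.filter_insert]
  split_ifs with h
  · rw [Finset.card_insert_of_notMem fun h' => hκ (Finset.mem_filter.1 h').1]
    push_cast
    rfl
  · rw [add_zero]

theorem EE_insertB {L : ℕ} {K : Finset (Tri k)} {κ : Tri k} (hκ : κ ∉ K)
    (hL : L < κ.1.natDegree) (hB : tB κ) : EE L (insert κ K) = EE L K + 1 := by
  unfold EE
  rw [cn_insert hκ, cn_insert hκ, cn_insert hκ, if_neg (fun h => h.2.1 hB.1), if_pos ⟨hL, hB⟩,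
    if_neg (fun h => h.2.1 hB.1)]
  ring

theorem EE_insert0 {L : ℕ} {K : Finset (Tri k)} {κ : Tri k} (hκ : κ ∉ K)
    (h0 : t0 κ) : EE L (insert κ K) = EE L K := by
  unfold EE
  rw [cn_insert hκ, cn_insert hκ, cn_insert hκ, if_neg (fun h => h.2.1 h0.1),
    if_neg (fun h => h.2.2 h0.2), if_neg (fun h => h.2.1 h0.1)]
  ring

theorem Mn_insertB {K : Finset (Tri k)} {κ : Tri k} (hB : tB κ) :
    Mn (insert κ K) ↔ ∀ κ' ∈ K, κ'.2.1 = 1 := by
  unfold Mn
  constructor
  · rintro (h | h | h)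
    · exact absurd (h κ (Finset.mem_insert_self _ _)) hB.2
    · exact fun κ' h' => h κ' (Finset.mem_insert_of_mem h')
    · have := h κ (Finset.mem_insert_self _ _)
      rw [hB.1] at this
      exact absurd this.symm hB.2
  · intro h
    right; left
    intro κ' h'
    rcases Finset.mem_insert.1 h' with rfl | h'
    · exact hB.1
    · exact h κ' h'

/-- The inner sums. -/
theorem inner1 (hf : Cub f) (hu : u ≠ 0) {e : ℕ} {a b α β : ℝ} (hh : Wt f (hw f e) a b α β)
    {L m d : ℕ} (hd : 1 ≤ d) {K : Finset (Tri k)} (hK : K ∈ KK f m) :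
    |∑ κ ∈ (fr f d K).filter (fun κ => L < κ.1.natDegree ∧ tB κ), G1 f u e L (insert κ K)| ≤
      if L < d then wK f K * ((|α| + |β|) * ((33 * m + 24) * rq k ^ d)) else 0 := by
  have hc := (mem_KK.1 hK).1
  split_ifs with hL
  · have e1 : (fr f d K).filter (fun κ => L < κ.1.natDegree ∧ tB κ) = (fr f d K).filter tB := by
      refine Finset.filter_congr fun κ hκ => ?_
      rw [(mem_fr.1 hκ).2.1]
      exact ⟨fun h => h.2, fun h => ⟨hL, h⟩⟩
    rw [e1]
    by_cases hv : ∃ κ ∈ K, κ.2.1 ≠ 1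
    · obtain ⟨κ0, h0, hv0⟩ := hv
      have e2 : ∀ κ ∈ (fr f d K).filter tB, G1 f u e L (insert κ K) =
          (FF f u e K / (EE L K + 1)) * (hw f e κ.1 *
            ((dg f u κ * ∏ κ' ∈ K, (sg f κ' κ * sg f κ κ') : ℤ) : ℝ)) := by
        intro κ hκ
        obtain ⟨h1, h2⟩ := Finset.mem_filter.1 hκ
        unfold G1
        rw [EE_insertB (fr_notMem h1) ((mem_fr.1 h1).2.1 ▸ hL) h2, if_pos, FF_insert h1]
        · ring
        · refine ⟨fun h => hv0 ((Mn_insertB h2).1 h κ0 h0), ?_⟩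
          have := EE_nonneg L K
          linarith
      rw [Finset.sum_congr rfl e2, ← Finset.mul_sum, abs_mul]
      have hE := EE_nonneg L K
      have e3 : |FF f u e K / (EE L K + 1)| ≤ wK f K := by
        rw [abs_div, abs_FF hf hu e hc, abs_of_pos (by linarith : 0 < EE L K + 1)]
        exact div_le_self (wK_nonneg K) (by linarith)
      exact mul_le_mul e3 (sumB hf hh hd hK h0 hv0) (abs_nonneg _) (wK_nonneg K)
    · push Not at hv
      have e2 : ∀ κ ∈ (fr f d K).filter tB, G1 f u e L (insert κ K) = 0 := by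
        intro κ hκ
        obtain ⟨h1, h2⟩ := Finset.mem_filter.1 hκ
        unfold G1
        rw [if_neg]
        rintro ⟨h, -⟩
        exact h ((Mn_insertB h2).2 hv)
      rw [Finset.sum_congr rfl e2, Finset.sum_const_zero, abs_zero]
      have h1 := wK_nonneg (f := f) K
      have h2 := rq_nonneg (k := k)
      positivity
  · have e1 : (fr f d K).filter (fun κ => L < κ.1.natDegree ∧ tB κ) = ∅ := by
      refine Finset.filter_eq_empty_iff.2 fun κ hκ h => ?_
      rw [(mem_fr.1 hκ).2.1] at h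
      exact hL h.1
    rw [e1, Finset.sum_empty, abs_zero]

/-- The second function which is summed. -/
noncomputable def G2 (f : k[X]) (u : k) (e L : ℕ) (K : Finset (Tri k)) : ℝ :=
  if (∃ κ ∈ K, tX κ) ∧ EE L K = 0 ∧ 0 < cn t0 L K then FF f u e K / cn t0 L K else 0

theorem inner2 (hf : Cub f) (hu : u ≠ 0) {e : ℕ} {a b α β : ℝ} (hh : Wt f (hw f e) a b α β)
    {L m d : ℕ} (hd : 1 ≤ d) {K : Finset (Tri k)} (hK : K ∈ KK f m) :
    |∑ κ ∈ (fr f d K).filter (fun κ => L < κ.1.natDegree ∧ t0 κ), G2 f u e L (insert κ K)| ≤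
      if L < d then wK f K * ((1 + |a| + |b|) * ((33 * m + 24) * rq k ^ d)) else 0 := by
  have hc := (mem_KK.1 hK).1
  split_ifs with hL
  · have e1 : (fr f d K).filter (fun κ => L < κ.1.natDegree ∧ t0 κ) = (fr f d K).filter t0 := by
      refine Finset.filter_congr fun κ hκ => ?_
      rw [(mem_fr.1 hκ).2.1]
      exact ⟨fun h => h.2, fun h => ⟨hL, h⟩⟩
    rw [e1]
    have hpos : 0 ≤ wK f K * ((1 + |a| + |b|) * ((33 * m + 24) * rq k ^ d)) := by
      have h1 := wK_nonneg (f := f) K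
      have h2 := rq_nonneg (k := k)
      positivity
    by_cases hv : (∃ κ ∈ K, tX κ) ∧ EE L K = 0
    · obtain ⟨⟨κ0, h0, hX0⟩, hE0⟩ := hv
      have e2 : ∀ κ ∈ (fr f d K).filter t0, G2 f u e L (insert κ K) =
          (FF f u e K / (cn t0 L K + 1)) * (hw f e κ.1 *
            ((dg f u κ * ∏ κ' ∈ K, (sg f κ' κ * sg f κ κ') : ℤ) : ℝ)) := by
        intro κ hκ
        obtain ⟨h1, h2⟩ := Finset.mem_filter.1 hκ
        have e4 : cn t0 L (insert κ K) = cn t0 L K + 1 := by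
          rw [cn_insert (fr_notMem h1), if_pos ⟨(mem_fr.1 h1).2.1 ▸ hL, h2⟩]
        have e5 := cn_nonneg t0 L K
        unfold G2
        rw [EE_insert0 (fr_notMem h1) h2, e4, if_pos, FF_insert h1]
        · ring
        · exact ⟨⟨κ0, Finset.mem_insert_of_mem h0, hX0⟩, hE0, by linarith⟩
      rw [Finset.sum_congr rfl e2, ← Finset.mul_sum, abs_mul]
      have hE := cn_nonneg t0 L K
      have e3 : |FF f u e K / (cn t0 L K + 1)| ≤ wK f K := by
        rw [abs_div, abs_FF hf hu e hc, abs_of_pos (by linarith : 0 < cn t0 L K + 1)]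
        exact div_le_self (wK_nonneg K) (by linarith)
      exact mul_le_mul e3 (sum0 hf hh hd hK h0 hX0) (abs_nonneg _) (wK_nonneg K)
    · have e2 : ∀ κ ∈ (fr f d K).filter t0, G2 f u e L (insert κ K) = 0 := by
        intro κ hκ
        obtain ⟨h1, h2⟩ := Finset.mem_filter.1 hκ
        unfold G2
        rw [EE_insert0 (fr_notMem h1) h2, if_neg]
        rintro ⟨⟨κ', h', hX'⟩, hE0, -⟩
        apply hv
        refine ⟨⟨κ', ?_, hX'⟩, hE0⟩
        rcases Finset.mem_insert.1 h' with rfl | h'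
        · exact absurd h2.1 hX'.1
        · exact h'
      rw [Finset.sum_congr rfl e2, Finset.sum_const_zero, abs_zero]
      exact hpos
  · have e1 : (fr f d K).filter (fun κ => L < κ.1.natDegree ∧ t0 κ) = ∅ := by
      refine Finset.filter_eq_empty_iff.2 fun κ hκ h => ?_
      rw [(mem_fr.1 hκ).2.1] at h
      exact hL h.1
    rw [e1, Finset.sum_empty, abs_zero]

/-- The outer sums. -/
theorem outer (hf : Cub f) {L n : ℕ} (C : ℝ) (hC : 0 ≤ C) :
    ∑ m ∈ Finset.range n, ∑ K ∈ KK f m,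
      (if L < n - m then wK f K * (C * ((33 * m + 24) * rq k ^ (n - m))) else 0) ≤
      C * (33 * Real.exp 4 * (n + 1) ^ 6) / rq k ^ L * qq k ^ n := by
  have hr := rq_one hf.two
  have hr0 := rq_pow_one hf.two L
  have hq := qq_ge hf.two
  have h1 : ∀ m ∈ Finset.range n, ∑ K ∈ KK f m,
      (if L < n - m then wK f K * (C * ((33 * m + 24) * rq k ^ (n - m))) else 0) ≤
      C * (33 * Real.exp 4 * (n + 1) ^ 5) / rq k ^ L * qq k ^ n := by
    intro m hm
    rw [Finset.mem_range] at hm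
    have hpos : 0 ≤ C * (33 * Real.exp 4 * (n + 1) ^ 5) / rq k ^ L * qq k ^ n := by positivity
    split_ifs with hL
    · have h2 : ∑ K ∈ KK f m, wK f K * (C * ((33 * m + 24) * rq k ^ (n - m))) =
          mass f (fun _ => True) m * (C * ((33 * m + 24) * rq k ^ (n - m))) := by
        have h0 : KA f (fun _ => True) m = KK f m := by
          ext K
          rw [mem_KA]
          exact ⟨fun h => h.1, fun h => ⟨h, fun _ _ => trivial⟩⟩
        rw [← Finset.sum_mul]
        unfold mass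
        rw [h0]
      rw [h2]
      have h3 := mass_le_all hf (fun _ => True) m
      have hmn : (m : ℝ) + 1 ≤ n + 1 := by
        have : (m : ℝ) ≤ n := by exact_mod_cast hm.le
        linarith
      have h4 : qq k ^ m * rq k ^ (n - m) * rq k ^ L ≤ qq k ^ n := by
        have e1 : qq k ^ m = rq k ^ (2 * m) := by rw [pow_mul, pow_two, rq_sq]
        have e2 : qq k ^ n = rq k ^ (2 * n) := by rw [pow_mul, pow_two, rq_sq]
        rw [e1, e2, ← pow_add, ← pow_add]
        exact pow_le_pow_right₀ hr (by omega)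
      have h5 : mass f (fun _ => True) m * (C * ((33 * m + 24) * rq k ^ (n - m))) ≤
          Real.exp 4 * (n + 1) ^ 4 * qq k ^ m * (C * ((33 * (n + 1)) * rq k ^ (n - m))) := by
        have e1 : mass f (fun _ => True) m ≤ Real.exp 4 * (n + 1) ^ 4 * qq k ^ m := by
          refine h3.trans (mul_le_mul_of_nonneg_right ?_ (by positivity))
          refine mul_le_mul_of_nonneg_left ?_ (by positivity)
          exact pow_le_pow_left₀ (by positivity) hmn 4
        have e2 : C * ((33 * m + 24) * rq k ^ (n - m)) ≤ C * ((33 * (n + 1)) * rq k ^ (n - m)) := by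
          refine mul_le_mul_of_nonneg_left (mul_le_mul_of_nonneg_right ?_ (by positivity)) hC
          linarith
        exact mul_le_mul e1 e2 (by positivity) (by positivity)
      refine h5.trans ?_
      rw [div_mul_eq_mul_div, le_div_iff₀ (by positivity)]
      have h6 : Real.exp 4 * (n + 1) ^ 4 * qq k ^ m * (C * ((33 * (n + 1)) * rq k ^ (n - m))) * rq k ^ L =
          C * (33 * Real.exp 4 * (n + 1) ^ 5) * (qq k ^ m * rq k ^ (n - m) * rq k ^ L) := by ring
      rw [h6]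
      exact mul_le_mul_of_nonneg_left h4 (by positivity)
    · rw [Finset.sum_const_zero]
      exact hpos
  refine (Finset.sum_le_card_nsmul _ _ _ h1).trans ?_
  rw [Finset.card_range, nsmul_eq_mul]
  have h3 : C * (33 * Real.exp 4 * (n + 1) ^ 6) / rq k ^ L * qq k ^ n =
      ((n : ℝ) + 1) * (C * (33 * Real.exp 4 * (n + 1) ^ 5) / rq k ^ L * qq k ^ n) := by ring
  rw [h3]
  refine mul_le_mul_of_nonneg_right (by linarith) (by positivity)

theorem sumG1_le (hf : Cub f) (hu : u ≠ 0) {e : ℕ} {a b α β : ℝ} (hh : Wt f (hw f e) a b α β)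
    (L n : ℕ) : |∑ K ∈ KK f n, G1 f u e L K * cn tB L K| ≤
      (|α| + |β|) * (33 * Real.exp 4 * (n + 1) ^ 6) / rq k ^ L * qq k ^ n := by
  have e1 : ∑ K ∈ KK f n, G1 f u e L K * cn tB L K =
      ∑ K ∈ KK f n, ∑ κ ∈ K.filter (fun κ => L < κ.1.natDegree ∧ tB κ), G1 f u e L K := by
    refine Finset.sum_congr rfl fun K _ => ?_
    rw [Finset.sum_const, nsmul_eq_mul, mul_comm]
    rfl
  rw [e1, isolate n (fun κ => L < κ.1.natDegree ∧ tB κ) fun K _ => G1 f u e L K]
  refine (Finset.abs_sum_le_sum_abs _ _).trans (le_trans (Finset.sum_le_sum fun m hm => ?_)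
    (outer (f := f) (L := L) (n := n) hf (|α| + |β|) (by positivity)))
  rw [Finset.mem_range] at hm
  refine (Finset.abs_sum_le_sum_abs _ _).trans (Finset.sum_le_sum fun K hK => ?_)
  exact inner1 hf hu hh (by omega) hK

theorem sumG2_le (hf : Cub f) (hu : u ≠ 0) {e : ℕ} {a b α β : ℝ} (hh : Wt f (hw f e) a b α β)
    (L n : ℕ) : |∑ K ∈ KK f n, G2 f u e L K * cn t0 L K| ≤
      (1 + |a| + |b|) * (33 * Real.exp 4 * (n + 1) ^ 6) / rq k ^ L * qq k ^ n := by
  have e1 : ∑ K ∈ KK f n, G2 f u e L K * cn t0 L K =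
      ∑ K ∈ KK f n, ∑ κ ∈ K.filter (fun κ => L < κ.1.natDegree ∧ t0 κ), G2 f u e L K := by
    refine Finset.sum_congr rfl fun K _ => ?_
    rw [Finset.sum_const, nsmul_eq_mul, mul_comm]
    rfl
  rw [e1, isolate n (fun κ => L < κ.1.natDegree ∧ t0 κ) fun K _ => G2 f u e L K]
  refine (Finset.abs_sum_le_sum_abs _ _).trans (le_trans (Finset.sum_le_sum fun m hm => ?_)
    (outer (f := f) (L := L) (n := n) hf (1 + |a| + |b|) (by positivity)))
  rw [Finset.mem_range] at hm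
  refine (Finset.abs_sum_le_sum_abs _ _).trans (Finset.sum_le_sum fun K hK => ?_)
  exact inner2 hf hu hh (by omega) hK

end fin

end Pool.Agent.H4.AV
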