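import Pool.Agent.H4.AV.Prop
import Pool.Agent.H4.SL.Sel

/-!
# The families of twists
-/

set_option autoImplicit false
set_option linter.all false

open Polynomial
open scoped Classical

namespace Pool.Agent.H4.AV

open Pool.Agent.X261.TD (ones)
open Pool.Agent.TH943.HJ (primes mem_primes)
open Pool.Agent.H4.SA
open Pool.Agent.H4.SL
open Pool.Agent.Y784.SV (mem_US)
open Pool.Agent.Y711 (US)
open Pool.Agent.TH115.GD

/-- The monic squarefree polynomials `D` of degree `n` which are prime to the discriminant of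
`f(X) - t`. -/
def Fam {k : Type} [Field k] (f : k[X]) (n : ℕ) : Set k[X] :=
  {D | D.Monic ∧ D.natDegree = n ∧ Squarefree D ∧ IsCoprime D (dsc f)}

/-- The congruence `f(X) = t` has exactly one root modulo the prime `P` of `k[t]`: there is one
prime of `k[x]` of degree one over `P`, where `t = f(x)`. -/
def OneRoot {k : Type} [Field k] (f P : k[X]) : Prop :=
  ∃! Q : k[X], Q.Monic ∧ Irreducible Q ∧ Q ∣ P.comp f ∧ Q.natDegree = P.natDegree

/-- The number of the primes `P` which divide `D` for which `f(X) = t` has exactly one root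
modulo `P`. -/
noncomputable def numOne {k : Type} [Field k] (f D : k[X]) : ℕ :=
  {P : k[X] | P.Monic ∧ Irreducible P ∧ P ∣ D ∧ OneRoot f P}.ncard

/-- The members of the family for which this number is even. -/
def FamEven {k : Type} [Field k] (f : k[X]) (n : ℕ) : Set k[X] :=
  {D | D ∈ Fam f n ∧ Even (numOne f D)}

/-- The members of the family for which this number is odd. -/
def FamOdd {k : Type} [Field k] (f : k[X]) (n : ℕ) : Set k[X] :=
  {D | D ∈ Fam f n ∧ ¬ Even (numOne f D)}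

section gen

variable {k : Type} [Field k] {f : k[X]}

theorem oneRoot_iff (hf : Cub f) {P : k[X]} (iP : Irreducible P) :
    OneRoot f P ↔ (ones f P).card = 1 := by
  have hg := Pool.Agent.X261.TD.comp_ne (f := f) hf.deg iP.ne_zero
  have h1 : ∀ Q, Q ∈ ones f P ↔ Q.Monic ∧ Irreducible Q ∧ Q ∣ P.comp f ∧ Q.natDegree = P.natDegree := by
    intro Q
    unfold ones
    rw [Finset.mem_filter, mem_primes hg]
    tauto
  rw [Finset.card_eq_one]
  unfold OneRoot
  constructor
  · rintro ⟨Q, hQ, hu⟩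
    refine ⟨Q, ?_⟩
    ext R
    rw [h1, Finset.mem_singleton]
    constructor
    · intro h
      exact hu R h
    · rintro rfl
      exact hQ
  · rintro ⟨Q, hQ⟩
    refine ⟨Q, (h1 Q).1 (by rw [hQ]; exact Finset.mem_singleton_self Q), fun R hR => ?_⟩
    have := (h1 R).2 hR
    rw [hQ, Finset.mem_singleton] at this
    exact this

theorem numOne_eq (hf : Cub f) {D : k[X]} (hD : D ≠ 0) :
    numOne f D = ((primes D).filter fun P => (ones f P).card = 1).card := by
  unfold numOne
  rw [← Set.ncard_coe_finset]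
  congr 1
  ext P
  rw [Set.mem_setOf_eq, Finset.mem_coe, Finset.mem_filter, mem_primes hD]
  constructor
  · rintro ⟨h1, h2, h3, h4⟩
    exact ⟨⟨h1, h2, h3⟩, (oneRoot_iff hf h2).1 h4⟩
  · rintro ⟨⟨h1, h2, h3⟩, h4⟩
    exact ⟨h1, h2, h3, (oneRoot_iff hf h2).2 h4⟩

theorem chi_eq (hf : Cub f) {D : k[X]} (hD : D ≠ 0) : chi f (primes D) = (-1) ^ numOne f D := by
  rw [numOne_eq hf hD]
  unfold chi psi
  rw [Finset.prod_ite, Finset.prod_const, Finset.prod_const_one, mul_one]

theorem chi_even (hf : Cub f) {D : k[X]} (hD : D ≠ 0) :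
    chi f (primes D) = 1 ↔ Even (numOne f D) := by
  rw [chi_eq hf hD]
  rcases Nat.even_or_odd (numOne f D) with h | h
  · rw [h.neg_one_pow]
    exact ⟨fun _ => h, fun _ => rfl⟩
  · rw [h.neg_one_pow]
    constructor
    · intro h'
      norm_num at h'
    · intro h'
      exact absurd h' (Nat.not_even_iff_odd.2 h)

theorem chi_odd (hf : Cub f) {D : k[X]} (hD : D ≠ 0) :
    chi f (primes D) = -1 ↔ ¬ Even (numOne f D) := by
  rw [← chi_even hf hD]
  constructor
  · intro h
    rw [h]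
    norm_num
  · intro h
    exact (chi_pm (f := f) (primes D)).resolve_left h

end gen

section fin

variable {k : Type} [Field k] [Fintype k] {f : k[X]}

theorem mem_Fam {n : ℕ} {D : k[X]} : D ∈ Fam f n ↔ D ∈ US (dsc f) n := by
  rw [mem_US]
  unfold Fam
  rw [Set.mem_setOf_eq]
  tauto

/-- A set of polynomials of the family corresponds to a set of sets of primes. -/
theorem ncard_eq (hf : Cub f) (n : ℕ) (p : Finset k[X] → Prop) [DecidablePred p] :
    (({D | D ∈ Fam f n ∧ p (primes D)} : Set k[X]).ncard : ℝ) =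
      (((SS f n).filter p).card : ℝ) := by
  have h1 : ({D | D ∈ Fam f n ∧ p (primes D)} : Set k[X]) =
      (((US (dsc f) n).filter fun D => p (primes D) : Finset k[X]) : Set k[X]) := by
    ext D
    rw [Set.mem_setOf_eq, Finset.mem_coe, Finset.mem_filter, mem_Fam]
  rw [h1, Set.ncard_coe_finset]
  have h2 := sum_SS hf n (fun S => if p S then (1 : ℕ) else 0)
  rw [← Finset.sum_filter, ← Finset.sum_filter, ← Finset.card_eq_sum_ones,
    ← Finset.card_eq_sum_ones] at h2
  exact_mod_cast h2.symm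

theorem Fam_finite (n : ℕ) : (Fam f n).Finite := by
  have : Fam f n = ((US (dsc f) n : Finset k[X]) : Set k[X]) := by
    ext D
    rw [mem_Fam, Finset.mem_coe]
  rw [this]
  exact Finset.finite_toSet _

theorem finsum_eq (hf : Cub f) (n : ℕ) (g : k[X] → ℝ) :
    ∑ᶠ D ∈ Fam f n, g D = ∑ D ∈ US (dsc f) n, g D := by
  have : Fam f n = ((US (dsc f) n : Finset k[X]) : Set k[X]) := by
    ext D
    rw [mem_Fam, Finset.mem_coe]
  rw [this]
  exact finsum_mem_coe_finset g _

theorem finsum_eq' (hf : Cub f) (n : ℕ) (p : Finset k[X] → Prop) [DecidablePred p] (g : k[X] → ℝ) :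
    ∑ᶠ D ∈ {D | D ∈ Fam f n ∧ p (primes D)}, g D =
      ∑ D ∈ (US (dsc f) n).filter (fun D => p (primes D)), g D := by
  have h1 : ({D | D ∈ Fam f n ∧ p (primes D)} : Set k[X]) =
      (((US (dsc f) n).filter fun D => p (primes D) : Finset k[X]) : Set k[X]) := by
    ext D
    rw [Set.mem_setOf_eq, Finset.mem_coe, Finset.mem_filter, mem_Fam]
  rw [h1]
  exact finsum_mem_coe_finset g _

end fin

/-- The number of the elements of the Selmer group at two of `u D(t) y ^ 2 = f(x) - t`. -/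
noncomputable def sel (K : Type) {k : Type} [Field k] [Field K] [Algebra k[X] K]
    [IsFractionRing k[X] K] (f : k[X]) (u : k) (D : k[X]) : ℕ :=
  Nat.card (SelTwo k (tw K f (C u * D)))

section main

variable {k K : Type} [Field k] [Fintype k] [Field K] [Algebra k[X] K]
  [IsFractionRing k[X] K] {f : k[X]} {u : k} {D : k[X]}

theorem sel_le (hf : Cub f) (hu : u ≠ 0) {n : ℕ} (hD : D ∈ Fam f n) :
    Finite (SelTwo k (tw K f (C u * D))) ∧ 1 ≤ sel K f u D ∧ sel K f u D ≤ NN f u (primes D) := by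
  have h1 := mem_US.1 (mem_Fam.1 hD)
  have h2 := Pool.Agent.X261.TD.prod_primes h1.1 h1.2.2.2
  have hS := (mem_SS.1 (primes_mem hf (mem_Fam.1 hD))).1
  have h3 := card_sel_le (K := K) hf hu hS
  obtain ⟨κ, -⟩ := kummer (K := K) hf hu hS
  rw [h2] at h3 κ
  refine ⟨h3.1, ?_, h3.2⟩
  haveI := h3.1
  haveI : Nonempty (SelTwo k (tw K f (C u * D))) := ⟨κ 0⟩
  exact Nat.card_pos

theorem mw_le (hf : Cub f) (hu : u ≠ 0) {n : ℕ} (hD : D ∈ Fam f n) :
    Finite (ModTwo (tw K f (C u * D))) ∧ Nat.card (ModTwo (tw K f (C u * D))) ≤ sel K f u D := by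
  have h1 := mem_US.1 (mem_Fam.1 hD)
  have h2 := Pool.Agent.X261.TD.prod_primes h1.1 h1.2.2.2
  have hS := (mem_SS.1 (primes_mem hf (mem_Fam.1 hD))).1
  have h3 := card_modTwo_le (K := K) hf hu hS
  rw [h2] at h3
  exact h3

theorem triv_of (hf : Cub f) (hu : u ≠ 0) {n : ℕ} (hD : D ∈ Fam f n)
    (h : NN f u (primes D) ≤ 1) : sel K f u D = 1 ∧ ShaTwo k (tw K f (C u * D)) ∧
      ∀ P : Pt (tw K f (C u * D)) K, ∃ Q, P = Q + Q := by
  have h1 := mem_US.1 (mem_Fam.1 hD)
  have h2 := Pool.Agent.X261.TD.prod_primes h1.1 h1.2.2.2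
  have hS := (mem_SS.1 (primes_mem hf (mem_Fam.1 hD))).1
  have h3 := sha_of_card (K := K) hf hu hS h
  have h4 := divisible_of_card (K := K) hf hu hS h
  rw [h2] at h3 h4
  obtain ⟨-, h5, h6⟩ := sel_le (K := K) hf hu hD
  exact ⟨by omega, h3, h4⟩

theorem rank_le (hf : Cub f) (hu : u ≠ 0) {n : ℕ} (hD : D ∈ Fam f n)
    (hfin : Module.Finite ℤ (Pt (tw K f (C u * D)) K)) :
    2 ^ Module.finrank ℤ (Pt (tw K f (C u * D)) K) ≤ sel K f u D := by
  obtain ⟨h1, h2⟩ := mw_le (K := K) hf hu hD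
  have h3 : Nat.card (ModTwo (tw K f (C u * D))) =
      Pool.Agent.X261.TD.indexTwo (Pt (tw K f (C u * D)) K) := rfl
  haveI := h1
  have h4 : Pool.Agent.X261.TD.indexTwo (Pt (tw K f (C u * D)) K) ≠ 0 := by
    rw [← h3]
    exact Nat.card_pos.ne'
  exact (Pool.Agent.X261.TD.two_pow_rank_le h4 hfin).trans (h3 ▸ h2)

end main

end Pool.Agent.H4.AV
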