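import Pool.Agent.H4.AV.Col

/-!
# The coloured sets over a set of primes
-/

set_option autoImplicit false
set_option linter.all false

open Polynomial
open scoped Classical

namespace Pool.Agent.H4.AV

open Pool.Agent.H341R2.Sharp (lam)
open Pool.Agent.Y164.PS (lam_mem lam_eq_zero_iff lam_mul_left lam_irr Pr mem_Pr)
open Pool.Agent.X261.TD (ones)
open Pool.Agent.H4.SA

section gen

variable {α β : Type}

/-- The graph of a map, as an embedding. -/
def grE (S : Finset α) (c : S → β) : S ↪ α × β :=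
  ⟨fun x => (x.1, c x), fun x y h => Subtype.ext (congrArg Prod.fst h)⟩

/-- The graph of a map. -/
def gr (S : Finset α) (c : S → β) : Finset (α × β) := Finset.univ.map (grE S c)

theorem mem_gr {S : Finset α} {c : S → β} {κ : α × β} : κ ∈ gr S c ↔ ∃ x : S, (x.1, c x) = κ := by
  unfold gr
  rw [Finset.mem_map]
  constructor
  · rintro ⟨x, -, h⟩
    exact ⟨x, h⟩
  · rintro ⟨x, h⟩
    exact ⟨x, Finset.mem_univ _, h⟩

theorem gr_inj {S : Finset α} {c c' : S → β} (h : gr S c = gr S c') : c = c' := by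
  funext x
  have h1 : (x.1, c x) ∈ gr S c' := h ▸ mem_gr.2 ⟨x, rfl⟩
  obtain ⟨y, hy⟩ := mem_gr.1 h1
  have h2 : y = x := Subtype.ext (show (y.1, c' y).1 = (x.1, c x).1 by rw [hy])
  subst h2
  exact (show (y.1, c' y).2 = (y.1, c y).2 by rw [hy]).symm

theorem prod_gr {M : Type} [CommMonoid M] {S : Finset α} (c : S → β) (h : α × β → M) :
    ∏ κ ∈ gr S c, h κ = ∏ x : S, h (x.1, c x) := by
  unfold gr
  rw [Finset.prod_map]
  rfl

theorem sum_gr {M : Type} [AddCommMonoid M] {S : Finset α} (c : S → β) (h : α × β → M) :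
    ∑ κ ∈ gr S c, h κ = ∑ x : S, h (x.1, c x) := by
  unfold gr
  rw [Finset.sum_map]
  rfl

/-- The coloured sets over `S` with the colours in `T`. -/
noncomputable def col (S : Finset α) (T : α → Finset β) : Finset (Finset (α × β)) :=
  (Fintype.piFinset fun x : S => T x.1).image (gr S)

theorem sum_col {M : Type} [AddCommMonoid M] (S : Finset α) (T : α → Finset β)
    [d : DecidableEq S] (Φ : Finset (α × β) → M) :
    ∑ K ∈ col S T, Φ K = ∑ c ∈ @Fintype.piFinset S d _ (fun _ => β) fun x : S => T x.1,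
      Φ (gr S c) := by
  have h : d = fun a b => Subtype.instDecidableEq a b := Subsingleton.elim _ _
  subst h
  exact Finset.sum_image fun c _ c' _ h => gr_inj h

theorem gr_mem {S : Finset α} {T : α → Finset β} {c : S → β} (h : ∀ x : S, c x ∈ T x.1) :
    gr S c ∈ col S T :=
  Finset.mem_image.2 ⟨c, Fintype.mem_piFinset.2 h, rfl⟩

theorem mem_col {S : Finset α} {T : α → Finset β} {K : Finset (α × β)} :
    K ∈ col S T ↔ (∀ κ ∈ K, κ.2 ∈ T κ.1) ∧ (∀ κ ∈ K, ∀ κ' ∈ K, κ.1 = κ'.1 → κ = κ') ∧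
      (∀ a, a ∈ S ↔ ∃ κ ∈ K, κ.1 = a) := by
  unfold col
  rw [Finset.mem_image]
  constructor
  · rintro ⟨c, hc, rfl⟩
    rw [Fintype.mem_piFinset] at hc
    refine ⟨fun κ hκ => ?_, fun κ hκ κ' hκ' he => ?_, fun a => ?_⟩
    · obtain ⟨x, rfl⟩ := mem_gr.1 hκ
      exact hc x
    · obtain ⟨x, rfl⟩ := mem_gr.1 hκ
      obtain ⟨y, rfl⟩ := mem_gr.1 hκ'
      have : x = y := Subtype.ext he
      rw [this]
    · constructor
      · intro ha
        exact ⟨(a, c ⟨a, ha⟩), mem_gr.2 ⟨⟨a, ha⟩, rfl⟩, rfl⟩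
      · rintro ⟨κ, hκ, rfl⟩
        obtain ⟨x, rfl⟩ := mem_gr.1 hκ
        exact x.2
  · rintro ⟨h1, h2, h3⟩
    have h4 : ∀ x : S, ∃ κ, κ ∈ K ∧ κ.1 = x.1 := fun x => by
      obtain ⟨κ, hκ, he⟩ := (h3 x.1).1 x.2
      exact ⟨κ, hκ, he⟩
    choose g hg1 hg2 using h4
    refine ⟨fun x => (g x).2, ?_, ?_⟩
    · rw [Fintype.mem_piFinset]
      intro x
      have := h1 (g x) (hg1 x)
      rwa [hg2] at this
    · ext κ
      rw [mem_gr]
      constructor
      · rintro ⟨x, rfl⟩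
        have : (x.1, (g x).2) = g x := Prod.ext (hg2 x).symm rfl
        rw [this]
        exact hg1 x
      · intro hκ
        have hx : κ.1 ∈ S := (h3 κ.1).2 ⟨κ, hκ, rfl⟩
        refine ⟨⟨κ.1, hx⟩, ?_⟩
        have : g ⟨κ.1, hx⟩ = κ := h2 _ (hg1 _) _ hκ (hg2 _)
        rw [this]

theorem sum_col_prod {R : Type} [CommRing R] (S : Finset α) (T : α → Finset β) (h : α × β → R) :
    ∑ K ∈ col S T, ∏ κ ∈ K, h κ = ∏ a ∈ S, ∑ b ∈ T a, h (a, b) := by
  rw [sum_col, Finset.sum_congr rfl fun c _ => prod_gr c h, ← Finset.prod_univ_sum (fun x : S => T x.1)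
    (fun x b => h (x.1, b))]
  exact Finset.prod_coe_sort S (fun a => ∑ b ∈ T a, h (a, b))

end gen

section fin

variable {k : Type} [Field k] [Fintype k] {f : k[X]} {u : k} {S : Finset k[X]}

/-- The pairs of colours of a prime. -/
noncomputable def VW (f : k[X]) (P : k[X]) : Finset (k[X] × k[X]) := VV f P ×ˢ VV f P

theorem mem_VW {P : k[X]} {b : k[X] × k[X]} : b ∈ VW f P ↔ b.1 ∈ VV f P ∧ b.2 ∈ VV f P :=
  Finset.mem_product

theorem col_col (hS : ∀ P ∈ S, Gd f P) {K : Finset (Tri k)} (hK : K ∈ col S (VW f)) : Col f K := by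
  obtain ⟨h1, h2, h3⟩ := mem_col.1 hK
  exact ⟨fun κ hκ => ⟨hS κ.1 ((h3 κ.1).2 ⟨κ, hκ, rfl⟩), (mem_VW.1 (h1 κ hκ)).1,
    (mem_VW.1 (h1 κ hκ)).2⟩, h2⟩

theorem sgn_gr (c : S → k[X] × k[X]) :
    sgn f u (gr S c) = ∏ x : S, Lam f u S (fun y => (c y).1) x (c x).2 := by
  unfold sgn
  rw [prod_gr]
  refine Finset.prod_congr rfl fun x _ => ?_
  have h1 : (gr S c).erase (x.1, c x) = (Finset.univ.erase x).map (grE S c) := by
    unfold gr
    exact (Finset.map_erase (grE S c) Finset.univ x).symm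
  unfold Lam
  rw [h1, Finset.prod_map]
  rfl

/-- The number of the admissible colourings as a sum over the coloured sets. -/
theorem num_col (hf : Cub f) (hu : u ≠ 0) (hS : ∀ P ∈ S, Gd f P) :
    ((Adm f u S).card : ℤ) * ∏ P ∈ S, ((VV f P).card : ℤ) = ∑ K ∈ col S (VW f), sgn f u K := by
  have h1 := num_eq hf hu hS
  rw [Finset.prod_coe_sort S (fun P => ((VV f P).card : ℤ))] at h1
  rw [h1, sum_col, ← Finset.sum_product']
  refine Finset.sum_bij' (fun p _ => fun x => (p.1 x, p.2 x))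
    (fun c _ => (fun x => (c x).1, fun x => (c x).2)) ?_ ?_ ?_ ?_ ?_
  · intro p hp
    rw [Finset.mem_product, Fintype.mem_piFinset, Fintype.mem_piFinset] at hp
    rw [Fintype.mem_piFinset]
    exact fun x => mem_VW.2 ⟨hp.1 x, hp.2 x⟩
  · intro c hc
    rw [Fintype.mem_piFinset] at hc
    rw [Finset.mem_product, Fintype.mem_piFinset, Fintype.mem_piFinset]
    exact ⟨fun x => (mem_VW.1 (hc x)).1, fun x => (mem_VW.1 (hc x)).2⟩
  · intro p _
    rfl
  · intro c _
    rfl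
  · intro p _
    rw [sgn_gr]

theorem rotK_mem (hf : Cub f) (hS : ∀ P ∈ S, Gd f P) {K : Finset (Tri k)}
    (hK : K ∈ col S (VW f)) : rotK f K ∈ col S (VW f) := by
  have hc := col_col hS hK
  have hc' := rotK_col hf hc
  obtain ⟨h1, h2, h3⟩ := mem_col.1 hK
  refine mem_col.2 ⟨fun κ hκ => mem_VW.2 ⟨(hc'.vd κ hκ).v, (hc'.vd κ hκ).w⟩, hc'.inj, fun a => ?_⟩
  rw [h3]
  constructor
  · rintro ⟨κ, hκ, rfl⟩
    exact ⟨rot f κ, mem_rotK.2 ⟨κ, hκ, rfl⟩, rfl⟩
  · rintro ⟨κ, hκ, rfl⟩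
    obtain ⟨κ', h', rfl⟩ := mem_rotK.1 hκ
    exact ⟨κ', h', rfl⟩

/-- The residue modulo three. -/
theorem num_mod (hf : Cub f) (hu : u ≠ 0) (hS : ∀ P ∈ S, Gd f P) :
    (3 : ℤ) ∣ ((Adm f u S).card : ℤ) * ∏ P ∈ S, ((VV f P).card : ℤ) - 1 := by
  set K0 : Finset (Tri k) := gr S (fun _ => (1, 1)) with hK0
  have h0 : K0 ∈ col S (VW f) := gr_mem fun x => mem_VW.2 ⟨one_mem_VV, one_mem_VV⟩
  have hs0 : sgn f u K0 = 1 := by
    refine sgn_main hf fun κ hκ => ?_
    obtain ⟨x, rfl⟩ := mem_gr.1 hκ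
    rfl
  have key := mod_three (rotK f) (sgn f u) K0 (col S (VW f)) (fun K hK => rotK_mem hf hS hK)
    (fun K hK => rotK_three hf (col_col hS hK)) (fun K hK => sgn_rotK hf K (col_col hS hK)) h0 ?_
  · rw [hs0, ← num_col hf hu hS] at key
    exact key
  · intro K hK
    have hc := col_col hS hK
    obtain ⟨h1, h2, h3⟩ := mem_col.1 hK
    constructor
    · intro he
      -- every prime is fixed
      have h4 : ∀ κ ∈ K, κ.2 = (1, 1) := by
        intro κ hκ
        have h5 : rot f κ ∈ K := he ▸ mem_rotK.2 ⟨κ, hκ, rfl⟩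
        have h6 : rot f κ = κ := h2 _ h5 _ hκ rfl
        have e1 : κ.2.2 = κ.2.1 := (congrArg (fun z : Tri k => z.2.1) h6)
        have e2 : addc f κ.1 κ.2.1 κ.2.2 = κ.2.2 := (congrArg (fun z : Tri k => z.2.2) h6)
        rw [e1, addc_self] at e2
        exact Prod.ext e2.symm (e1.trans e2.symm)
      ext κ
      rw [hK0, mem_gr]
      constructor
      · intro hκ
        refine ⟨⟨κ.1, (h3 κ.1).2 ⟨κ, hκ, rfl⟩⟩, ?_⟩
        exact Prod.ext rfl (h4 κ hκ).symm
      · rintro ⟨x, rfl⟩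
        obtain ⟨κ, hκ, hx⟩ := (h3 x.1).1 x.2
        have : κ = (x.1, (1, 1)) := Prod.ext hx (h4 κ hκ)
        rw [← this]
        exact hκ
    · rintro rfl
      ext κ
      rw [mem_rotK]
      constructor
      · rintro ⟨κ', h', rfl⟩
        obtain ⟨x, rfl⟩ := mem_gr.1 h'
        have : rot f (x.1, ((1 : k[X]), (1 : k[X]))) = (x.1, (1, 1)) := by
          unfold rot
          simp only [addc_one_left]
        rw [this]
        exact h'
      · intro h'
        obtain ⟨x, rfl⟩ := mem_gr.1 h'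
        refine ⟨_, h', ?_⟩
        unfold rot
        simp only [addc_one_left]

end fin

end Pool.Agent.H4.AV
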