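import Pool.Agent.H4.AV.Gr

/-!
# The coloured sets of a given degree
-/

set_option autoImplicit false
set_option linter.all false

open Polynomial
open scoped Classical

namespace Pool.Agent.H4.AV

open Pool.Agent.H341R2.Sharp (lam)
open Pool.Agent.Y164.PS (lam_mem lam_eq_zero_iff lam_mul_left lam_irr Pr mem_Pr)
open Pool.Agent.X261.TD (ones)
open Pool.Agent.H4.SA

section fin

variable {k : Type} [Field k] [Fintype k] {f : k[X]} {u : k}

/-- The good primes of degree `d`. -/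
noncomputable def Gp (f : k[X]) (d : ℕ) : Finset k[X] := (Pr k d).filter fun P => Gd f P

theorem mem_Gp {d : ℕ} {P : k[X]} : P ∈ Gp f d ↔ Gd f P ∧ P.natDegree = d := by
  unfold Gp
  rw [Finset.mem_filter, mem_Pr]
  constructor
  · rintro ⟨⟨-, -, h1⟩, h2⟩
    exact ⟨h2, h1⟩
  · rintro ⟨h1, h2⟩
    exact ⟨⟨h1.mP, h1.iP, h2⟩, h1⟩

/-- The sets of good primes of total degree `n`. -/
noncomputable def SS (f : k[X]) (n : ℕ) : Finset (Finset k[X]) :=
  (((Finset.range (n + 1)).biUnion (Gp f)).powerset).filter fun S => ∑ P ∈ S, P.natDegree = n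

theorem mem_SS {n : ℕ} {S : Finset k[X]} :
    S ∈ SS f n ↔ (∀ P ∈ S, Gd f P) ∧ ∑ P ∈ S, P.natDegree = n := by
  unfold SS
  rw [Finset.mem_filter, Finset.mem_powerset]
  constructor
  · rintro ⟨h1, h2⟩
    refine ⟨fun P hP => ?_, h2⟩
    obtain ⟨d, -, hd⟩ := Finset.mem_biUnion.1 (h1 hP)
    exact (mem_Gp.1 hd).1
  · rintro ⟨h1, h2⟩
    refine ⟨fun P hP => ?_, h2⟩
    rw [Finset.mem_biUnion]
    refine ⟨P.natDegree, ?_, mem_Gp.2 ⟨h1 P hP, rfl⟩⟩
    rw [Finset.mem_range, Nat.lt_succ_iff, ← h2]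
    exact Finset.single_le_sum (f := fun P : k[X] => P.natDegree) (fun _ _ => Nat.zero_le _) hP

/-- The coloured sets of primes of total degree `n`. -/
noncomputable def KK (f : k[X]) (n : ℕ) : Finset (Finset (Tri k)) :=
  (SS f n).biUnion fun S => col S (VW f)

theorem sum_KK {M : Type} [AddCommMonoid M] (n : ℕ) (Φ : Finset (Tri k) → M) :
    ∑ K ∈ KK f n, Φ K = ∑ S ∈ SS f n, ∑ K ∈ col S (VW f), Φ K := by
  unfold KK
  refine Finset.sum_biUnion fun S _ S' _ hne => ?_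
  show Disjoint (col S (VW f)) (col S' (VW f))
  rw [Finset.disjoint_left]
  intro K h1 h2
  apply hne
  ext a
  rw [(mem_col.1 h1).2.2, (mem_col.1 h2).2.2]

theorem mem_KK {n : ℕ} {K : Finset (Tri k)} :
    K ∈ KK f n ↔ Col f K ∧ ∑ κ ∈ K, κ.1.natDegree = n := by
  unfold KK
  rw [Finset.mem_biUnion]
  constructor
  · rintro ⟨S, hS, hK⟩
    obtain ⟨h1, h2⟩ := mem_SS.1 hS
    have hc := col_col h1 hK
    refine ⟨hc, ?_⟩
    have h3 : S = K.image Prod.fst := by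
      ext a
      rw [(mem_col.1 hK).2.2, Finset.mem_image]
    rw [← h2, h3, Finset.sum_image fun a ha b hb he => hc.inj a ha b hb he]
  · rintro ⟨h1, h2⟩
    refine ⟨K.image Prod.fst, mem_SS.2 ⟨fun P hP => ?_, ?_⟩, mem_col.2 ⟨fun κ hκ => ?_, h1.inj,
      fun a => ?_⟩⟩
    · obtain ⟨κ, hκ, rfl⟩ := Finset.mem_image.1 hP
      exact (h1.vd κ hκ).gd
    · rw [Finset.sum_image fun a ha b hb he => h1.inj a ha b hb he, h2]
    · exact mem_VW.2 ⟨(h1.vd κ hκ).v, (h1.vd κ hκ).w⟩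
    · rw [Finset.mem_image]

/-- The coloured primes of degree `d`. -/
noncomputable def trs (f : k[X]) (d : ℕ) : Finset (Tri k) :=
  (Gp f d).biUnion fun P => (VW f P).image fun b => (P, b)

theorem mem_trs {d : ℕ} {κ : Tri k} : κ ∈ trs f d ↔ Vd f κ ∧ κ.1.natDegree = d := by
  unfold trs
  rw [Finset.mem_biUnion]
  constructor
  · rintro ⟨P, hP, hκ⟩
    obtain ⟨b, hb, rfl⟩ := Finset.mem_image.1 hκ
    obtain ⟨h1, h2⟩ := mem_Gp.1 hP
    exact ⟨⟨h1, (mem_VW.1 hb).1, (mem_VW.1 hb).2⟩, h2⟩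
  · rintro ⟨h1, h2⟩
    exact ⟨κ.1, mem_Gp.2 ⟨h1.gd, h2⟩, Finset.mem_image.2 ⟨κ.2, mem_VW.2 ⟨h1.v, h1.w⟩, rfl⟩⟩

theorem sum_trs {M : Type} [AddCommMonoid M] (d : ℕ) (g : Tri k → M) :
    ∑ κ ∈ trs f d, g κ = ∑ P ∈ Gp f d, ∑ b ∈ VW f P, g (P, b) := by
  unfold trs
  rw [Finset.sum_biUnion]
  · refine Finset.sum_congr rfl fun P _ => ?_
    rw [Finset.sum_image]
    intro a _ b _ h
    exact (Prod.mk.inj h).2
  · intro P _ P' _ hne
    show Disjoint ((VW f P).image fun b => (P, b)) ((VW f P').image fun b => (P', b))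
    rw [Finset.disjoint_left]
    intro κ h1 h2
    obtain ⟨a, -, rfl⟩ := Finset.mem_image.1 h1
    obtain ⟨b, -, h⟩ := Finset.mem_image.1 h2
    exact hne (Prod.mk.inj h).1.symm

/-- The coloured primes of degree `d` which can be added to the coloured set. -/
noncomputable def fr (f : k[X]) (d : ℕ) (K : Finset (Tri k)) : Finset (Tri k) :=
  (trs f d).filter fun κ => ∀ κ' ∈ K, κ'.1 ≠ κ.1

theorem mem_fr {d : ℕ} {K : Finset (Tri k)} {κ : Tri k} :
    κ ∈ fr f d K ↔ Vd f κ ∧ κ.1.natDegree = d ∧ ∀ κ' ∈ K, κ'.1 ≠ κ.1 := by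
  unfold fr
  rw [Finset.mem_filter, mem_trs, and_assoc]

theorem fr_notMem {d : ℕ} {K : Finset (Tri k)} {κ : Tri k} (h : κ ∈ fr f d K) : κ ∉ K := fun h' =>
  (mem_fr.1 h).2.2 κ h' rfl

/-- Isolating one prime of a coloured set. -/
theorem isolate {M : Type} [AddCommMonoid M] (n : ℕ) (τ : Tri k → Prop) [DecidablePred τ]
    (Φ : Finset (Tri k) → Tri k → M) :
    ∑ K ∈ KK f n, ∑ κ ∈ K.filter τ, Φ K κ =
      ∑ m ∈ Finset.range n, ∑ K ∈ KK f m, ∑ κ ∈ (fr f (n - m) K).filter τ, Φ (insert κ K) κ := by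
  have e1 : ∑ K ∈ KK f n, ∑ κ ∈ K.filter τ, Φ K κ =
      ∑ x ∈ (KK f n).sigma fun K => K.filter τ, Φ x.1 x.2 := by
    rw [Finset.sum_sigma]
  have e2 : ∑ m ∈ Finset.range n, ∑ K ∈ KK f m, ∑ κ ∈ (fr f (n - m) K).filter τ, Φ (insert κ K) κ =
      ∑ y ∈ (Finset.range n).sigma fun m => (KK f m).sigma fun K => (fr f (n - m) K).filter τ,
        Φ (insert y.2.2 y.2.1) y.2.2 := by
    rw [Finset.sum_sigma]
    refine Finset.sum_congr rfl fun m _ => ?_
    rw [Finset.sum_sigma]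
  rw [e1, e2]
  refine Finset.sum_bij' (fun x _ => ⟨n - x.2.1.natDegree, x.1.erase x.2, x.2⟩)
    (fun y _ => ⟨insert y.2.2 y.2.1, y.2.2⟩) ?_ ?_ ?_ ?_ ?_
  · rintro ⟨K, κ⟩ hx
    rw [Finset.mem_sigma, Finset.mem_filter] at hx
    obtain ⟨hK, hκ, hτ⟩ := hx
    obtain ⟨hc, hd⟩ := mem_KK.1 hK
    have hs := Finset.sum_erase_add K (fun κ : Tri k => κ.1.natDegree) hκ
    simp only at hs hκ hτ hK hd
    rw [hd] at hs
    have hpos := (hc.vd κ hκ).gd.iP.natDegree_pos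
    rw [Finset.mem_sigma, Finset.mem_sigma]
    refine ⟨?_, ?_, ?_⟩
    · rw [Finset.mem_range]
      simp only
      omega
    · rw [mem_KK]
      refine ⟨hc.sub (Finset.erase_subset _ _), ?_⟩
      simp only
      omega
    · rw [Finset.mem_filter, mem_fr]
      refine ⟨⟨hc.vd κ hκ, ?_, ?_⟩, hτ⟩
      · simp only
        omega
      · intro κ' h' he
        simp only at h' he
        exact (Finset.mem_erase.1 h').1 (hc.inj κ' (Finset.mem_erase.1 h').2 κ hκ he)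
  · rintro ⟨m, K, κ⟩ hy
    rw [Finset.mem_sigma, Finset.mem_sigma, Finset.mem_filter] at hy
    obtain ⟨hm, hK, hκ, hτ⟩ := hy
    rw [Finset.mem_range] at hm
    simp only at hm hK hκ hτ
    obtain ⟨hc, hd⟩ := mem_KK.1 hK
    have hnot := fr_notMem hκ
    obtain ⟨h1, h2, h3⟩ := mem_fr.1 hκ
    rw [Finset.mem_sigma]
    refine ⟨?_, ?_⟩
    · rw [mem_KK]
      simp only
      refine ⟨hc.insert h1 h3, ?_⟩
      rw [Finset.sum_insert hnot, hd, h2]
      omega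
    · rw [Finset.mem_filter]
      exact ⟨Finset.mem_insert_self _ _, hτ⟩
  · rintro ⟨K, κ⟩ hx
    rw [Finset.mem_sigma, Finset.mem_filter] at hx
    simp only
    rw [Finset.insert_erase hx.2.1]
  · rintro ⟨m, K, κ⟩ hy
    rw [Finset.mem_sigma, Finset.mem_sigma, Finset.mem_filter] at hy
    obtain ⟨hm, hK, hκ, hτ⟩ := hy
    rw [Finset.mem_range] at hm
    simp only at hm hK hκ hτ
    simp only
    rw [Finset.erase_insert (fr_notMem hκ)]
    have h2 := (mem_fr.1 hκ).2.1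
    have h3 : n - κ.1.natDegree = m := by omega
    rw [h3]
  · rintro ⟨K, κ⟩ hx
    rw [Finset.mem_sigma, Finset.mem_filter] at hx
    simp only
    rw [Finset.insert_erase hx.2.1]

theorem isolate' {M : Type} [AddCommMonoid M] (n : ℕ) (Φ : Finset (Tri k) → Tri k → M) :
    ∑ K ∈ KK f n, ∑ κ ∈ K, Φ K κ =
      ∑ m ∈ Finset.range n, ∑ K ∈ KK f m, ∑ κ ∈ fr f (n - m) K, Φ (insert κ K) κ := by
  have h := isolate (f := f) n (fun _ => True) Φ
  have e1 : ∀ K ∈ KK f n, ∑ κ ∈ K.filter (fun _ => True), Φ K κ = ∑ κ ∈ K, Φ K κ := fun K _ => by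
    rw [Finset.filter_true_of_mem (fun _ _ => trivial)]
  have e2 : ∀ m ∈ Finset.range n, ∑ K ∈ KK f m,
      ∑ κ ∈ (fr f (n - m) K).filter (fun _ => True), Φ (insert κ K) κ =
      ∑ K ∈ KK f m, ∑ κ ∈ fr f (n - m) K, Φ (insert κ K) κ := fun m _ => by
    refine Finset.sum_congr rfl fun K _ => ?_
    rw [Finset.filter_true_of_mem (fun _ _ => trivial)]
  rw [Finset.sum_congr rfl e1, Finset.sum_congr rfl e2] at h
  exact h

end fin

end Pool.Agent.H4.AV
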