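import Pool.Agent.H4.AV.Typ

/-!
# The total weight of the coloured sets with restricted colours
-/

set_option autoImplicit false
set_option linter.all false

open Polynomial
open scoped Classical

namespace Pool.Agent.H4.AV

open Pool.Agent.H341R2.Sharp (lam)
open Pool.Agent.Y164.PS (lam_mem lam_eq_zero_iff lam_mul_left lam_irr Pr mem_Pr card_Pr_le card_Pr_ge
  abs_lam_le char_sum lam_one_left)
open Pool.Agent.X261.TD (ones)
open Pool.Agent.TH943.HJ (primes mem_primes)
open Pool.Agent.H4.SA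

section fin

variable {k : Type} [Field k] [Fintype k] {f : k[X]} {u : k}

/-- The weight of a coloured prime. -/
noncomputable def wt (f : k[X]) (κ : Tri k) : ℝ := 1 / (VV f κ.1).card

omit [Fintype k] in
theorem wt_nonneg (κ : Tri k) : 0 ≤ wt f κ := by unfold wt; positivity

/-- The weight of a coloured set. -/
noncomputable def wK (f : k[X]) (K : Finset (Tri k)) : ℝ := ∏ κ ∈ K, wt f κ

omit [Fintype k] in
theorem wK_nonneg (K : Finset (Tri k)) : 0 ≤ wK f K := Finset.prod_nonneg fun κ _ => wt_nonneg κ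

/-- The coloured sets with the colours in `A`. -/
noncomputable def KA (f : k[X]) (A : Tri k → Prop) (n : ℕ) : Finset (Finset (Tri k)) :=
  (KK f n).filter fun K => ∀ κ ∈ K, A κ

theorem mem_KA {A : Tri k → Prop} {n : ℕ} {K : Finset (Tri k)} :
    K ∈ KA f A n ↔ K ∈ KK f n ∧ ∀ κ ∈ K, A κ := by
  unfold KA
  rw [Finset.mem_filter]

/-- The total weight. -/
noncomputable def mass (f : k[X]) (A : Tri k → Prop) (n : ℕ) : ℝ := ∑ K ∈ KA f A n, wK f K

theorem mass_nonneg (A : Tri k → Prop) (n : ℕ) : 0 ≤ mass f A n :=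
  Finset.sum_nonneg fun K _ => wK_nonneg K

/-- The total weight of the primes of degree `d`. -/
noncomputable def bA (f : k[X]) (A : Tri k → Prop) (d : ℕ) : ℝ := ∑ κ ∈ (trs f d).filter A, wt f κ

theorem bA_nonneg (A : Tri k → Prop) (d : ℕ) : 0 ≤ bA f A d :=
  Finset.sum_nonneg fun κ _ => wt_nonneg κ

theorem bA_le (hf : Cub f) (A : Tri k → Prop) {d : ℕ} (hd : 1 ≤ d) :
    (d : ℝ) * bA f A d ≤ 4 * qq k ^ d := by
  have h1 : bA f A d ≤ 4 * (Pr k d).card := by
    have h2 : bA f A d ≤ ∑ κ ∈ trs f d, wt f κ :=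
      Finset.sum_le_sum_of_subset_of_nonneg (Finset.filter_subset _ _) fun κ _ _ => wt_nonneg κ
    refine h2.trans ?_
    rw [sum_trs]
    have h3 : ∀ P ∈ Gp f d, ∑ b ∈ VW f P, wt f (P, b) ≤ 4 := by
      intro P hP
      have hg := (mem_Gp.1 hP).1
      show ∑ b ∈ VW f P, (1 : ℝ) / (VV f P).card ≤ 4
      rw [Finset.sum_const, VW, Finset.card_product, nsmul_eq_mul]
      have h4 : ((VV f P).card : ℝ) ≤ 4 := by exact_mod_cast card_VV_le hf hg
      have h5 : (0 : ℝ) < (VV f P).card := by exact_mod_cast card_VV_pos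
      push_cast
      rw [mul_assoc, mul_one_div_cancel h5.ne', mul_one]
      exact h4
    refine (Finset.sum_le_card_nsmul _ _ _ h3).trans ?_
    rw [nsmul_eq_mul, mul_comm]
    refine mul_le_mul_of_nonneg_left ?_ (by norm_num)
    exact_mod_cast Finset.card_filter_le _ _
  have h3 := card_Pr_le (k := k) hf.rc d hd
  have h4 : (Fintype.card k : ℝ) = qq k := rfl
  rw [h4] at h3
  have h5 : (0 : ℝ) ≤ d := Nat.cast_nonneg d
  nlinarith

/-- All coloured primes of degree at most `n`. -/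
noncomputable def Tle (f : k[X]) (n : ℕ) : Finset (Tri k) := (Finset.Icc 1 n).biUnion (trs f)

theorem mem_Tle {n : ℕ} {κ : Tri k} : κ ∈ Tle f n ↔ Vd f κ ∧ κ.1.natDegree ≤ n := by
  unfold Tle
  rw [Finset.mem_biUnion]
  constructor
  · rintro ⟨d, hd, hκ⟩
    obtain ⟨h1, h2⟩ := mem_trs.1 hκ
    exact ⟨h1, h2 ▸ (Finset.mem_Icc.1 hd).2⟩
  · rintro ⟨h1, h2⟩
    exact ⟨κ.1.natDegree, Finset.mem_Icc.2 ⟨h1.gd.iP.natDegree_pos, h2⟩, mem_trs.2 ⟨h1, rfl⟩⟩

theorem sum_Tle {M : Type} [AddCommMonoid M] (n : ℕ) (A : Tri k → Prop) (g : Tri k → M) :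
    ∑ κ ∈ (Tle f n).filter A, g κ = ∑ d ∈ Finset.Icc 1 n, ∑ κ ∈ (trs f d).filter A, g κ := by
  unfold Tle
  rw [Finset.filter_biUnion, Finset.sum_biUnion]
  intro d _ d' _ hne
  show Disjoint ((trs f d).filter A) ((trs f d').filter A)
  rw [Finset.disjoint_left]
  intro κ h1 h2
  exact hne ((mem_trs.1 (Finset.mem_filter.1 h1).1).2.symm.trans
    (mem_trs.1 (Finset.mem_filter.1 h2).1).2)

/-- The sum of the weights of the sets of degree at most `n`. -/
theorem rankin (hf : Cub f) (A : Tri k → Prop) (n : ℕ) :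
    ∑ m ∈ Finset.range (n + 1), mass f A m / qq k ^ m ≤
      Real.exp (∑ d ∈ Finset.Icc 1 n, bA f A d / qq k ^ d) := by
  have hq : 0 < qq k := by linarith [qq_ge hf.two]
  have e1 : ∑ m ∈ Finset.range (n + 1), mass f A m / qq k ^ m =
      ∑ K ∈ (Finset.range (n + 1)).biUnion (KA f A), ∏ κ ∈ K, (wt f κ / qq k ^ κ.1.natDegree) := by
    rw [Finset.sum_biUnion]
    · refine Finset.sum_congr rfl fun m _ => ?_
      unfold mass
      rw [Finset.sum_div]
      refine Finset.sum_congr rfl fun K hK => ?_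
      obtain ⟨h1, h2⟩ := mem_KA.1 hK
      obtain ⟨h3, h4⟩ := mem_KK.1 h1
      rw [Finset.prod_div_distrib, Finset.prod_pow_eq_pow_sum, h4]
      rfl
    · intro m _ m' _ hne
      show Disjoint (KA f A m) (KA f A m')
      rw [Finset.disjoint_left]
      intro K h1 h2
      exact hne ((mem_KK.1 (mem_KA.1 h1).1).2.symm.trans (mem_KK.1 (mem_KA.1 h2).1).2)
  have hpos : ∀ κ : Tri k, 0 ≤ wt f κ / qq k ^ κ.1.natDegree := fun κ =>
    div_nonneg (wt_nonneg κ) (by positivity)
  have e2 : (Finset.range (n + 1)).biUnion (KA f A) ⊆ ((Tle f n).filter A).powerset := by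
    intro K hK
    obtain ⟨m, hm, hK⟩ := Finset.mem_biUnion.1 hK
    rw [Finset.mem_range] at hm
    obtain ⟨h1, h2⟩ := mem_KA.1 hK
    obtain ⟨h3, h4⟩ := mem_KK.1 h1
    rw [Finset.mem_powerset]
    intro κ hκ
    rw [Finset.mem_filter, mem_Tle]
    refine ⟨⟨h3.vd κ hκ, ?_⟩, h2 κ hκ⟩
    have := Finset.single_le_sum (f := fun κ : Tri k => κ.1.natDegree) (fun _ _ => Nat.zero_le _) hκ
    omega
  rw [e1]
  refine (Finset.sum_le_sum_of_subset_of_nonneg e2 fun K _ _ => Finset.prod_nonneg fun κ _ => hpos κ).trans ?_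
  rw [← Finset.prod_one_add]
  have e3 : ∏ κ ∈ (Tle f n).filter A, (1 + wt f κ / qq k ^ κ.1.natDegree) ≤
      ∏ κ ∈ (Tle f n).filter A, Real.exp (wt f κ / qq k ^ κ.1.natDegree) := by
    refine Finset.prod_le_prod (fun κ _ => by have := hpos κ; linarith) fun κ _ => ?_
    rw [add_comm]
    exact Real.add_one_le_exp _
  refine e3.trans ?_
  rw [← Real.exp_sum, sum_Tle]
  refine Real.exp_le_exp.2 (le_of_eq ?_)
  refine Finset.sum_congr rfl fun d _ => ?_
  unfold bA
  rw [Finset.sum_div]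
  refine Finset.sum_congr rfl fun κ hκ => ?_
  rw [(mem_trs.1 (Finset.mem_filter.1 hκ).1).2]

/-- The recursion for the total weight. -/
theorem mass_rec (A : Tri k → Prop) (n : ℕ) :
    (n : ℝ) * mass f A n ≤
      ∑ m ∈ Finset.range n, mass f A m * (((n - m : ℕ) : ℝ) * bA f A (n - m)) := by
  have e1 : (n : ℝ) * mass f A n = ∑ K ∈ KK f n, ∑ κ ∈ K,
      (if ∀ κ ∈ K, A κ then (κ.1.natDegree : ℝ) * wK f K else 0) := by
    unfold mass KA
    rw [Finset.mul_sum, Finset.sum_filter]
    refine Finset.sum_congr rfl fun K hK => ?_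
    obtain ⟨h3, h4⟩ := mem_KK.1 hK
    split_ifs
    · rw [← Finset.sum_mul]
      congr 1
      exact_mod_cast h4.symm
    · rw [Finset.sum_const_zero]
  rw [e1, isolate']
  refine Finset.sum_le_sum fun m _ => ?_
  unfold mass
  rw [Finset.sum_mul]
  unfold KA
  rw [Finset.sum_filter]
  refine Finset.sum_le_sum fun K hK => ?_
  split_ifs with hA
  · have e2 : ∀ κ ∈ fr f (n - m) K,
        (if ∀ κ' ∈ insert κ K, A κ' then (κ.1.natDegree : ℝ) * wK f (insert κ K) else 0) ≤
        (if A κ then ((n - m : ℕ) : ℝ) * (wK f K * wt f κ) else 0) := by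
      intro κ h1
      by_cases hAκ : A κ
      · rw [if_pos hAκ]
        have h2 : wK f (insert κ K) = wK f K * wt f κ := by
          unfold wK
          rw [Finset.prod_insert (fr_notMem h1), mul_comm]
        split_ifs
        · rw [h2, (mem_fr.1 h1).2.1]
        · exact mul_nonneg (Nat.cast_nonneg _) (mul_nonneg (wK_nonneg K) (wt_nonneg κ))
      · rw [if_neg hAκ, if_neg fun h => hAκ (h κ (Finset.mem_insert_self _ _))]
    refine (Finset.sum_le_sum e2).trans ?_
    rw [← Finset.sum_filter]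
    have e3 : (fr f (n - m) K).filter A ⊆ (trs f (n - m)).filter A := by
      unfold fr
      exact Finset.filter_subset_filter _ (Finset.filter_subset _ _)
    refine (Finset.sum_le_sum_of_subset_of_nonneg e3 fun κ _ _ => mul_nonneg (Nat.cast_nonneg _)
      (mul_nonneg (wK_nonneg K) (wt_nonneg κ))).trans (le_of_eq ?_)
    unfold bA
    rw [Finset.mul_sum, Finset.mul_sum]
    refine Finset.sum_congr rfl fun κ _ => ?_
    ring
  · refine le_of_eq (Finset.sum_eq_zero fun κ _ => ?_)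
    rw [if_neg]
    intro h
    exact hA fun κ' h' => h κ' (Finset.mem_insert_of_mem h')

theorem sum_inv_le (n : ℕ) (hn : 1 ≤ n) : ∑ d ∈ Finset.Icc 1 n, (1 : ℝ) / d ≤ 1 + Real.log n := by
  have h := harmonic_le_one_add_log n
  rw [harmonic_eq_sum_Icc] at h
  push_cast at h
  simp only [one_div]
  exact h

/-- The first bound. -/
theorem mass_le_all (hf : Cub f) (A : Tri k → Prop) (n : ℕ) :
    mass f A n ≤ Real.exp 4 * (n + 1) ^ 4 * qq k ^ n := by
  have hq : 0 < qq k := by linarith [qq_ge hf.two]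
  have h1 : mass f A n / qq k ^ n ≤ ∑ m ∈ Finset.range (n + 1), mass f A m / qq k ^ m :=
    Finset.single_le_sum (f := fun m => mass f A m / qq k ^ m)
      (fun m _ => div_nonneg (mass_nonneg A m) (by positivity)) (Finset.self_mem_range_succ n)
  have h2 := h1.trans (rankin hf A n)
  have h3 : ∑ d ∈ Finset.Icc 1 n, bA f A d / qq k ^ d ≤ 4 + 4 * Real.log (n + 1) := by
    rcases Nat.eq_zero_or_pos n with rfl | hn
    · simp
    · have h4 : ∑ d ∈ Finset.Icc 1 n, bA f A d / qq k ^ d ≤ ∑ d ∈ Finset.Icc 1 n, 4 * ((1 : ℝ) / d) := by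
        refine Finset.sum_le_sum fun d hd => ?_
        have hd1 := (Finset.mem_Icc.1 hd).1
        have hd2 : (0 : ℝ) < d := by exact_mod_cast hd1
        have h5 := bA_le hf A hd1
        rw [mul_one_div, div_le_div_iff₀ (by positivity) hd2, mul_comm]
        exact h5
      rw [← Finset.mul_sum] at h4
      have h5 := sum_inv_le n hn
      have h6 : Real.log n ≤ Real.log (n + 1) := Real.log_le_log (by exact_mod_cast hn) (by linarith)
      linarith
  have h4 := h2.trans (Real.exp_le_exp.2 h3)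
  rw [div_le_iff₀ (by positivity)] at h4
  refine h4.trans (le_of_eq ?_)
  rw [Real.exp_add, mul_comm (4 : ℝ) (Real.log _), Real.exp_mul, Real.exp_log (by positivity)]
  norm_cast

/-- The second bound. -/
theorem mass_le (hf : Cub f) (A : Tri k → Prop) {L n : ℕ} (hL : 1 ≤ L) (hn : L ≤ n)
    (hA : ∀ d, L < d → (d : ℝ) * bA f A d ≤ 4 / 5 * qq k ^ d) :
    mass f A n ≤ 4 * Real.exp (4 + 4 / 5 * Real.log n + 16 / 5 * Real.log L) / n * qq k ^ n := by
  have hq : 0 < qq k := by linarith [qq_ge hf.two]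
  have hn1 : 1 ≤ n := hL.trans hn
  have hn0 : (0 : ℝ) < n := by exact_mod_cast hn1
  have h1 := mass_rec (f := f) A n
  have h2 : ∑ m ∈ Finset.range n, mass f A m * (((n - m : ℕ) : ℝ) * bA f A (n - m)) ≤
      ∑ m ∈ Finset.range n, 4 * qq k ^ n * (mass f A m / qq k ^ m) := by
    refine Finset.sum_le_sum fun m hm => ?_
    rw [Finset.mem_range] at hm
    have h3 := bA_le hf A (d := n - m) (by omega)
    have h4 : qq k ^ n = qq k ^ (n - m) * qq k ^ m := by
      rw [← pow_add]
      congr 1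
      omega
    have h5 : 4 * qq k ^ n * (mass f A m / qq k ^ m) = mass f A m * (4 * qq k ^ (n - m)) := by
      rw [h4]
      field_simp
    rw [h5]
    exact mul_le_mul_of_nonneg_left h3 (mass_nonneg A m)
  rw [← Finset.mul_sum] at h2
  have h3 : ∑ m ∈ Finset.range n, mass f A m / qq k ^ m ≤
      ∑ m ∈ Finset.range (n + 1), mass f A m / qq k ^ m :=
    Finset.sum_le_sum_of_subset_of_nonneg (Finset.range_subset_range.2 (Nat.le_succ n))
      fun m _ _ => div_nonneg (mass_nonneg A m) (by positivity)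
  have h4 := h3.trans (rankin hf A n)
  have h5 : ∑ d ∈ Finset.Icc 1 n, bA f A d / qq k ^ d ≤
      4 + 4 / 5 * Real.log n + 16 / 5 * Real.log L := by
    have h6 : ∑ d ∈ Finset.Icc 1 n, bA f A d / qq k ^ d ≤
        ∑ d ∈ Finset.Icc 1 n, (4 / 5 * ((1 : ℝ) / d) + if d ≤ L then 16 / 5 * ((1 : ℝ) / d) else 0) := by
      refine Finset.sum_le_sum fun d hd => ?_
      have hd1 := (Finset.mem_Icc.1 hd).1
      have hd2 : (0 : ℝ) < d := by exact_mod_cast hd1
      split_ifs with hdL
      · have h5 := bA_le hf A hd1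
        have : 4 / 5 * ((1 : ℝ) / d) + 16 / 5 * ((1 : ℝ) / d) = 4 / d := by ring
        rw [this, div_le_div_iff₀ (by positivity) hd2, mul_comm]
        exact h5
      · have h5 := hA d (by omega)
        rw [add_zero, mul_one_div, div_le_div_iff₀ (by positivity) hd2, mul_comm]
        exact h5
    rw [Finset.sum_add_distrib, ← Finset.mul_sum, ← Finset.sum_filter, ← Finset.mul_sum] at h6
    have h7 : (Finset.Icc 1 n).filter (fun d => d ≤ L) = Finset.Icc 1 L := by
      ext d
      simp only [Finset.mem_filter, Finset.mem_Icc]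
      omega
    rw [h7] at h6
    have h8 := sum_inv_le n hn1
    have h9 := sum_inv_le L hL
    linarith
  have h6 := h4.trans (Real.exp_le_exp.2 h5)
  have h7 : (n : ℝ) * mass f A n ≤ 4 * qq k ^ n *
      Real.exp (4 + 4 / 5 * Real.log n + 16 / 5 * Real.log L) :=
    h1.trans (h2.trans (mul_le_mul_of_nonneg_left h6 (by positivity)))
  rw [div_mul_eq_mul_div, le_div_iff₀ hn0]
  linarith

end fin

end Pool.Agent.H4.AV
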