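import Pool.Agent.H4.SA.Adm

/-!
# The number of the admissible colourings as a sum of signs
-/

set_option autoImplicit false
set_option linter.all false

open Polynomial
open scoped Classical

namespace Pool.Agent.H4.AV

open Pool.Agent.H341R2.Sharp (lam)
open Pool.Agent.Y164.PS (lam_mem lam_eq_zero_iff lam_mul_left lam_irr Pr mem_Pr)
open Pool.Agent.X261.TD (ones)
open Pool.Agent.H4.SA

/-- A finite set with an involution without fixed points has an even number of elements. -/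
theorem even_of_inv {α : Type*} (ρ : α → α) : ∀ s : Finset α, (∀ a ∈ s, ρ a ∈ s) →
    (∀ a ∈ s, ρ (ρ a) = a) → (∀ a ∈ s, ρ a ≠ a) → Even s.card := by
  intro s
  induction s using Finset.strongInduction with
  | H s ih =>
    intro h1 h2 h3
    by_cases h0 : s = ∅
    · rw [h0]
      simp
    · obtain ⟨a, ha⟩ := Finset.nonempty_iff_ne_empty.2 h0
      have hne := h3 a ha
      set t : Finset α := (s.erase a).erase (ρ a) with ht
      have hb : ρ a ∈ s.erase a := Finset.mem_erase.2 ⟨hne, h1 a ha⟩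
      have hts : t ⊂ s := (Finset.erase_ssubset hb).trans (Finset.erase_ssubset ha)
      have hcard : t.card + 2 = s.card := by
        have e1 := Finset.card_erase_add_one ha
        have e2 := Finset.card_erase_add_one hb
        rw [← ht] at e2
        omega
      have hmem : ∀ x ∈ t, x ∈ s ∧ x ≠ a ∧ x ≠ ρ a := fun x hx => by
        rw [ht, Finset.mem_erase, Finset.mem_erase] at hx
        exact ⟨hx.2.2, hx.2.1, hx.1⟩
      have h4 := ih t hts (fun x hx => by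
        obtain ⟨g1, g2, g3⟩ := hmem x hx
        rw [ht, Finset.mem_erase, Finset.mem_erase]
        refine ⟨fun he => ?_, fun he => ?_, h1 x g1⟩
        · apply g2
          have := congrArg ρ he
          rw [h2 x g1, h2 a ha] at this
          exact this
        · apply g3
          have := congrArg ρ he
          rw [h2 x g1] at this
          exact this) (fun x hx => h2 x (hmem x hx).1) (fun x hx => h3 x (hmem x hx).1)
      rw [← hcard]
      exact h4.add even_two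

section basic

variable {k : Type} [Field k] {f P : k[X]}

theorem sum_VV_zero {M : Type} [AddCommMonoid M] (h : ones f P = ∅) (g : k[X] → M) :
    ∑ ω ∈ VV f P, g ω = g 1 := by
  unfold VV
  rw [h]
  simp

theorem sum_VV_one {M : Type} [AddCommMonoid M] {Q : k[X]} (hQ : Q ≠ 1)
    (h : ∀ R, R ∈ ones f P ↔ R = Q) (g : k[X] → M) : ∑ ω ∈ VV f P, g ω = g 1 + g Q := by
  have h' : ones f P = {Q} := by
    ext R
    rw [h, Finset.mem_singleton]
  unfold VV
  rw [h', Finset.sum_pair (Ne.symm hQ)]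

theorem sum_VV_three {M : Type} [AddCommMonoid M] {Q1 Q2 Q3 : k[X]} (h1 : Q1 ≠ 1) (h2 : Q2 ≠ 1)
    (h3 : Q3 ≠ 1) (h12 : Q1 ≠ Q2) (h13 : Q1 ≠ Q3) (h23 : Q2 ≠ Q3)
    (h : ∀ R, R ∈ ones f P ↔ R = Q1 ∨ R = Q2 ∨ R = Q3)
    (g : k[X] → M) : ∑ ω ∈ VV f P, g ω = g 1 + (g Q1 + (g Q2 + g Q3)) := by
  have h' : ones f P = {Q1, Q2, Q3} := by
    ext R
    rw [h, Finset.mem_insert, Finset.mem_insert, Finset.mem_singleton]
  unfold VV
  rw [h', Finset.sum_insert (by
      simp only [Finset.mem_insert, Finset.mem_singleton, not_or]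
      exact ⟨Ne.symm h1, Ne.symm h2, Ne.symm h3⟩),
    Finset.sum_insert (by
      simp only [Finset.mem_insert, Finset.mem_singleton, not_or]
      exact ⟨h12, h13⟩), Finset.sum_pair h23]

theorem mem_VV' {v : k[X]} : v ∈ VV f P ↔ v = 1 ∨ v ∈ ones f P := by
  unfold VV
  rw [Finset.mem_insert]

theorem all_VV_zero {p : k[X] → Prop} (h : ones f P = ∅) : (∀ ω ∈ VV f P, p ω) ↔ p 1 := by
  simp only [mem_VV', h, Finset.notMem_empty, or_false, forall_eq]

theorem all_VV_one {p : k[X] → Prop} {Q : k[X]} (h : ∀ R, R ∈ ones f P ↔ R = Q) :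
    (∀ ω ∈ VV f P, p ω) ↔ p 1 ∧ p Q := by
  simp only [mem_VV', h, forall_eq_or_imp, forall_eq]

theorem all_VV_three {p : k[X] → Prop} {Q1 Q2 Q3 : k[X]}
    (h : ∀ R, R ∈ ones f P ↔ R = Q1 ∨ R = Q2 ∨ R = Q3) :
    (∀ ω ∈ VV f P, p ω) ↔ p 1 ∧ p Q1 ∧ p Q2 ∧ p Q3 := by
  simp only [mem_VV', h, forall_eq_or_imp, forall_eq]

theorem mem_VV_three {Q1 Q2 Q3 v : k[X]} (h : ∀ R, R ∈ ones f P ↔ R = Q1 ∨ R = Q2 ∨ R = Q3) :
    v ∈ VV f P ↔ v = 1 ∨ v = Q1 ∨ v = Q2 ∨ v = Q3 := by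
  rw [mem_VV', h]

theorem mem_VV_one' {Q v : k[X]} (h : ∀ R, R ∈ ones f P ↔ R = Q) :
    v ∈ VV f P ↔ v = 1 ∨ v = Q := by
  rw [mem_VV', h]

/-- The possible sets of the primes of degree one. -/
theorem ones_cases [Fintype k] [DecidableEq k] (hf : Cub f) (hP : Gd f P) :
    ones f P = ∅ ∨ (∃ Q, One f P Q ∧ lam (dlt f) Q = -1 ∧ ∀ R, R ∈ ones f P ↔ R = Q) ∨
      ∃ Q1 Q2 Q3, One f P Q1 ∧ One f P Q2 ∧ One f P Q3 ∧ Q1 ≠ Q2 ∧ Q1 ≠ Q3 ∧ Q2 ≠ Q3 ∧
        ∀ R, R ∈ ones f P ↔ R = Q1 ∨ R = Q2 ∨ R = Q3 := by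
  by_cases h0 : ones f P = ∅
  · exact Or.inl h0
  · right
    obtain ⟨Q, hQ⟩ := Finset.nonempty_iff_ne_empty.2 h0
    have h := (mem_ones hf hP.mP hP.iP).1 hQ
    rcases card_ones hf hP h with ⟨h1, h2⟩ | ⟨h1, h2⟩
    · right
      obtain ⟨Q1, Q2, hQ1, hQ2, n1, n2, n3⟩ := three_of_sq hf hP h h1
      obtain ⟨R, hR, m1, m2, m3⟩ := exists_third hf hP h hQ1 n1
      refine ⟨Q, Q1, R, h, hQ1, hR, n1, m1, m2, fun T => ?_⟩
      rw [m3, Finset.mem_insert, Finset.mem_insert, Finset.mem_singleton]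
    · left
      refine ⟨Q, h, h1, fun T => ?_⟩
      obtain ⟨R, hR⟩ := Finset.card_eq_one.1 h2
      rw [hR, Finset.mem_singleton] at hQ ⊢
      rw [hQ]

/-- The possible pairs of colours. -/
theorem pair_cases' [Fintype k] [DecidableEq k] (hf : Cub f) (hP : Gd f P) {v w : k[X]}
    (hv : v ∈ VV f P) (hw : w ∈ VV f P) :
    (v = 1 ∧ w = 1) ∨ (v = 1 ∧ One f P w) ∨ (One f P v ∧ w = 1) ∨ (One f P v ∧ v = w) ∨
      ∃ R, One f P v ∧ One f P w ∧ One f P R ∧ v ≠ w ∧ v ≠ R ∧ w ≠ R ∧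
        ∀ T, T ∈ ones f P ↔ T = v ∨ T = w ∨ T = R := by
  rcases pair_cases hf hP hv hw with h | h | h | h | ⟨R, h1, h2, h3, h12, h13, h23, h0⟩
  · exact Or.inl h
  · exact Or.inr (Or.inl h)
  · exact Or.inr (Or.inr (Or.inl h))
  · exact Or.inr (Or.inr (Or.inr (Or.inl h)))
  · refine Or.inr (Or.inr (Or.inr (Or.inr ⟨R, h1, h2, h3, h12, h13, h23, fun T => ?_⟩)))
    rw [h0, Finset.mem_insert, Finset.mem_insert, Finset.mem_singleton]

end basic

section fin

variable {k : Type} [Field k] [Fintype k] [DecidableEq k]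

variable {f : k[X]} {u : k} {S : Finset k[X]} {v : S → k[X]} {x : S}

theorem Lam_sq (hf : Cub f) (hu : u ≠ 0) (hS : ∀ P ∈ S, Gd f P) (hv : ∀ y : S, v y ∈ VV f y.1)
    {ω : k[X]} (hω : ω ∈ VV f x.1) : Lam f u S v x ω * Lam f u S v x ω = 1 := by
  unfold Lam
  rw [mul_mul_mul_comm, dgn_sq hf hu (hS x.1 x.2) (hv x) hω, one_mul, ← Finset.prod_mul_distrib]
  refine Finset.prod_eq_one fun y hy => ?_
  have hne : x.1 ≠ y.1 := fun h => (Finset.mem_erase.1 hy).1 (Subtype.ext h).symm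
  exact sig_sq hf (hS x.1 x.2) (hS y.1 y.2) hne (hv y) hω

theorem Lam_pm (hf : Cub f) (hu : u ≠ 0) (hS : ∀ P ∈ S, Gd f P) (hv : ∀ y : S, v y ∈ VV f y.1)
    {ω : k[X]} (hω : ω ∈ VV f x.1) : Lam f u S v x ω = 1 ∨ Lam f u S v x ω = -1 :=
  mul_self_eq_one_iff.1 (Lam_sq hf hu hS hv hω)

/-- The product of the signs at the three primes is one. -/
theorem Lam_three (hf : Cub f) (hu : u ≠ 0) (hS : ∀ P ∈ S, Gd f P)
    (hv : ∀ y : S, v y ∈ VV f y.1) {Q1 Q2 Q3 : k[X]} (h1 : One f x.1 Q1) (h2 : One f x.1 Q2)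
    (h3 : One f x.1 Q3) (h12 : Q1 ≠ Q2) (h13 : Q1 ≠ Q3) (h23 : Q2 ≠ Q3)
    (hx : v x = 1 ∨ v x = Q1) :
    Lam f u S v x Q1 * Lam f u S v x Q2 * Lam f u S v x Q3 = 1 := by
  have hpf : (∏ y ∈ Finset.univ.erase x, lam (zz f y.1 (v y)) Q1) *
      (∏ y ∈ Finset.univ.erase x, lam (zz f y.1 (v y)) Q2) *
      (∏ y ∈ Finset.univ.erase x, lam (zz f y.1 (v y)) Q3) = 1 := by
    rw [← Finset.prod_mul_distrib, ← Finset.prod_mul_distrib]
    refine Finset.prod_eq_one fun y hy => ?_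
    have hne : x.1 ≠ y.1 := fun h => (Finset.mem_erase.1 hy).1 (Subtype.ext h).symm
    exact prodform hf (hS x.1 x.2) (hS y.1 y.2) hne h1 h2 h3 h12 h13 h23 (hv y)
  rcases hx with hx | hx
  · rw [Lam_lin h1.ne_one (Or.inl hx), Lam_lin h2.ne_one (Or.inl hx), Lam_lin h3.ne_one (Or.inl hx)]
    exact hpf
  · rw [Lam_lin h1.ne_one (Or.inr hx), Lam_X ⟨by rw [hx]; exact h1.ne_one, h2.ne_one, by rw [hx]; exact h12⟩,
      Lam_X ⟨by rw [hx]; exact h1.ne_one, h3.ne_one, by rw [hx]; exact h13⟩, hx,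
      eta_eq hf (hS x.1 x.2) h1 h2 h3 h12 h13 h23, Finset.prod_mul_distrib, Finset.prod_mul_distrib]
    have s1 := lamC_sq hu x.1
    have s2 := eta_sq hf (hS x.1 x.2) h1 h3 h13
    have s3 : (∏ y ∈ Finset.univ.erase x, lam y.1 x.1) * (∏ y ∈ Finset.univ.erase x, lam y.1 x.1) = 1 := by
      rw [← Finset.prod_mul_distrib]
      refine Finset.prod_eq_one fun y hy => ?_
      have hne : x.1 ≠ y.1 := fun h => (Finset.mem_erase.1 hy).1 (Subtype.ext h).symm
      exact lam_self_mul (hS x.1 x.2).iP (lam_primes (hS x.1 x.2) (hS y.1 y.2) hne)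
    generalize (∏ y ∈ Finset.univ.erase x, lam (zz f y.1 (v y)) Q1) = a at *
    generalize (∏ y ∈ Finset.univ.erase x, lam (zz f y.1 (v y)) Q2) = b at *
    generalize (∏ y ∈ Finset.univ.erase x, lam (zz f y.1 (v y)) Q3) = c at *
    generalize (∏ y ∈ Finset.univ.erase x, lam y.1 x.1) = d at *
    generalize lam (C u) x.1 = e at *
    generalize eta f x.1 Q1 Q3 = g at *
    have : a * (e * g * (b * d)) * (e * g * (c * d)) = (a * b * c) * (e * e) * (g * g) * (d * d) := by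
      ring
    rw [this, hpf, s1, s2, s3]
    norm_num

/-- The sum of the signs at a prime. -/
theorem sum_Lam (hf : Cub f) (hu : u ≠ 0) (hS : ∀ P ∈ S, Gd f P) (hv : ∀ y : S, v y ∈ VV f y.1) :
    ∑ ω ∈ VV f x.1, Lam f u S v x ω =
      if ∀ ω ∈ VV f x.1, Lam f u S v x ω = 1 then ((VV f x.1).card : ℤ) else 0 := by
  split_ifs with h
  · rw [Finset.sum_congr rfl h, Finset.sum_const, nsmul_eq_mul, mul_one]
  · have hx := hS x.1 x.2
    rcases ones_cases hf hx with h0 | ⟨Q, hQ, -, h0⟩ | ⟨Q1, Q2, Q3, h1, h2, h3, h12, h13, h23, h0⟩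
    · exfalso
      rw [all_VV_zero h0] at h
      exact h Lam_one
    · rw [all_VV_one h0] at h
      rw [sum_VV_one hQ.ne_one h0, Lam_one]
      have hQm : Q ∈ VV f x.1 := (mem_VV_one' h0).2 (Or.inr rfl)
      rcases Lam_pm hf hu hS hv hQm with h4 | h4
      · exact absurd ⟨Lam_one, h4⟩ h
      · rw [h4]
        norm_num
    · have m1 : Q1 ∈ VV f x.1 := (mem_VV_three h0).2 (Or.inr (Or.inl rfl))
      have m2 : Q2 ∈ VV f x.1 := (mem_VV_three h0).2 (Or.inr (Or.inr (Or.inl rfl)))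
      have m3 : Q3 ∈ VV f x.1 := (mem_VV_three h0).2 (Or.inr (Or.inr (Or.inr rfl)))
      have hprod : Lam f u S v x Q1 * Lam f u S v x Q2 * Lam f u S v x Q3 = 1 := by
        rcases (mem_VV_three h0).1 (hv x) with hx1 | hx1 | hx1 | hx1
        · exact Lam_three hf hu hS hv h1 h2 h3 h12 h13 h23 (Or.inl hx1)
        · exact Lam_three hf hu hS hv h1 h2 h3 h12 h13 h23 (Or.inr hx1)
        · have := Lam_three hf hu hS hv h2 h1 h3 (Ne.symm h12) h23 h13 (Or.inr hx1)
          rw [mul_comm (Lam f u S v x Q1)]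
          exact this
        · have := Lam_three hf hu hS hv h3 h1 h2 (Ne.symm h13) (Ne.symm h23) h12 (Or.inr hx1)
          rw [mul_assoc, mul_comm] at this
          exact this
      rw [all_VV_three h0] at h
      rw [sum_VV_three h1.ne_one h2.ne_one h3.ne_one h12 h13 h23 h0, Lam_one]
      have hall : ¬ (Lam f u S v x Q1 = 1 ∧ Lam f u S v x Q2 = 1 ∧ Lam f u S v x Q3 = 1) :=
        fun h4 => h ⟨Lam_one, h4⟩
      clear h
      rcases Lam_pm hf hu hS hv m1 with e1 | e1 <;> rcases Lam_pm hf hu hS hv m2 with e2 | e2 <;>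
        rcases Lam_pm hf hu hS hv m3 with e3 | e3 <;> rw [e1, e2, e3] at hall hprod ⊢ <;>
        first
        | (exfalso; exact hall ⟨rfl, rfl, rfl⟩)
        | (norm_num; done)
        | (exfalso; norm_num at hprod; done)

/-- The number of the admissible colourings as a sum of signs. -/
theorem num_eq (hf : Cub f) (hu : u ≠ 0) (hS : ∀ P ∈ S, Gd f P) :
    ((Adm f u S).card : ℤ) * ∏ x : S, ((VV f x.1).card : ℤ) =
      ∑ v ∈ Fintype.piFinset fun x : S => VV f x.1, ∑ w ∈ Fintype.piFinset fun x : S => VV f x.1,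
        ∏ x : S, Lam f u S v x (w x) := by
  have h1 : ∀ v ∈ Fintype.piFinset fun x : S => VV f x.1,
      ∑ w ∈ Fintype.piFinset fun x : S => VV f x.1, ∏ x : S, Lam f u S v x (w x) =
      if (∀ x : S, ∀ ω ∈ VV f x.1, Lam f u S v x ω = 1) then ∏ x : S, ((VV f x.1).card : ℤ) else 0 := by
    intro v hv
    rw [Fintype.mem_piFinset] at hv
    rw [← Finset.prod_univ_sum, Finset.prod_congr rfl fun x _ => sum_Lam (x := x) hf hu hS hv]
    split_ifs with h
    · exact Finset.prod_congr rfl fun x _ => if_pos (h x)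
    · push Not at h
      obtain ⟨x, ω, hω, hne⟩ := h
      refine Finset.prod_eq_zero (Finset.mem_univ x) ?_
      rw [if_neg]
      intro hall
      exact hne (hall ω hω)
  rw [Finset.sum_congr rfl h1, ← Finset.sum_filter, Finset.sum_const, nsmul_eq_mul]
  rfl

/-- The sum of two admissible colourings. -/
theorem add_Adm (hf : Cub f) (hu : u ≠ 0) (hS : ∀ P ∈ S, Gd f P) {v w : S → k[X]}
    (hv : v ∈ Adm f u S) (hw : w ∈ Adm f u S) :
    (fun x : S => addc f x.1 (v x) (w x)) ∈ Adm f u S := by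
  rw [mem_Adm] at hv hw ⊢
  refine ⟨fun x => addc_mem hf (hS x.1 x.2) (hv.1 x) (hw.1 x), fun x ω hω => ?_⟩
  have h1 := hv.2 x ω hω
  have h2 := hw.2 x ω hω
  have key : Lam f u S (fun x : S => addc f x.1 (v x) (w x)) x ω =
      Lam f u S v x ω * Lam f u S w x ω := by
    have hx := hS x.1 x.2
    -- the alternating form
    have hfac : ∀ (c : ℤ), c * c = 1 → ∀ a b : k[X], a ∈ VV f x.1 → b ∈ VV f x.1 →
        (if addc f x.1 a b ≠ 1 ∧ ω ≠ 1 ∧ addc f x.1 a b ≠ ω then c else 1) =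
        (if a ≠ 1 ∧ ω ≠ 1 ∧ a ≠ ω then c else 1) * (if b ≠ 1 ∧ ω ≠ 1 ∧ b ≠ ω then c else 1) := by
      intro c hc a b ha hb
      rcases pair_cases' hf hx ha hb with ⟨rfl, rfl⟩ | ⟨rfl, h⟩ | ⟨h, rfl⟩ | ⟨h, rfl⟩ |
        ⟨R, g1, g2, g3, g12, g13, g23, g0⟩
      · simp [addc_one_left]
      · simp [addc_one_left]
      · simp [addc_one_right]
      · rw [addc_self, if_neg (fun h => h.1 rfl)]
        split_ifs
        · exact hc.symm
        · rfl
      · rw [addc_third hf g1 g2 g3 g12 g13 g23]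
        rcases (mem_VV_three g0).1 hω with hω' | hω' | hω' | hω'
        · rw [hω']
          simp
        · have e1 : ω ≠ 1 := hω' ▸ g1.ne_one
          have e2 : R ≠ ω := hω' ▸ Ne.symm g13
          have e3 : b ≠ ω := hω' ▸ Ne.symm g12
          rw [if_pos ⟨g3.ne_one, e1, e2⟩, if_neg (fun h => h.2.2 hω'.symm),
            if_pos ⟨g2.ne_one, e1, e3⟩, one_mul]
        · have e1 : ω ≠ 1 := hω' ▸ g2.ne_one
          have e2 : R ≠ ω := hω' ▸ Ne.symm g23
          have e3 : a ≠ ω := hω' ▸ g12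
          rw [if_pos ⟨g3.ne_one, e1, e2⟩, if_pos ⟨g1.ne_one, e1, e3⟩,
            if_neg (c := b ≠ 1 ∧ ω ≠ 1 ∧ b ≠ ω) (fun h => h.2.2 hω'.symm), mul_one]
        · have e1 : ω ≠ 1 := hω' ▸ g3.ne_one
          have e2 : a ≠ ω := hω' ▸ g13
          have e3 : b ≠ ω := hω' ▸ g23
          rw [if_neg (fun h => h.2.2 hω'.symm), if_pos ⟨g1.ne_one, e1, e2⟩,
            if_pos ⟨g2.ne_one, e1, e3⟩, hc]
    have hdgn : dgn f u x.1 (addc f x.1 (v x) (w x)) ω = dgn f u x.1 (v x) ω * dgn f u x.1 (w x) ω := by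
      -- all the signs `eta` at `x` are the same
      have heta : ∀ a : k[X], a ∈ VV f x.1 → dgn f u x.1 a ω = if a ≠ 1 ∧ ω ≠ 1 ∧ a ≠ ω then
          (if h : ∃ a' : k[X], a' ∈ VV f x.1 ∧ (a' ≠ 1 ∧ ω ≠ 1 ∧ a' ≠ ω) then
            lam (C u) x.1 * eta f x.1 h.choose ω else 1) else 1 := by
        intro a ha
        unfold dgn
        by_cases hc : a ≠ 1 ∧ ω ≠ 1 ∧ a ≠ ω
        · rw [if_pos hc, if_pos hc]
          have hex : ∃ a' : k[X], a' ∈ VV f x.1 ∧ (a' ≠ 1 ∧ ω ≠ 1 ∧ a' ≠ ω) := ⟨a, ha, hc⟩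
          rw [dif_pos hex]
          obtain ⟨hb1, hb2⟩ := hex.choose_spec
          generalize hex.choose = b at *
          by_cases hab : a = b
          · rw [hab]
          · have ga := ((mem_VV hf hx).1 ha).resolve_left hc.1
            have gb := ((mem_VV hf hx).1 hb1).resolve_left hb2.1
            have gω := ((mem_VV hf hx).1 hω).resolve_left hc.2.1
            rw [eta_symm hf ga gω hc.2.2, eta_symm hf gb gω hb2.2.2,
              eta_eq hf hx gω ga gb (Ne.symm hc.2.2) (Ne.symm hb2.2.2) hab]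
        · rw [if_neg hc, if_neg hc]
      rw [heta _ (addc_mem hf hx (hv.1 x) (hw.1 x)), heta _ (hv.1 x), heta _ (hw.1 x)]
      refine hfac _ ?_ _ _ (hv.1 x) (hw.1 x)
      split_ifs with hex
      · obtain ⟨hb1, hb2⟩ := hex.choose_spec
        have gb := ((mem_VV hf hx).1 hb1).resolve_left hb2.1
        have gω := ((mem_VV hf hx).1 hω).resolve_left hb2.2.1
        rw [mul_mul_mul_comm, lamC_sq hu, eta_sq hf hx gb gω hb2.2.2, one_mul]
      · norm_num
    unfold Lam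
    show dgn f u x.1 (addc f x.1 (v x) (w x)) ω *
      ∏ y ∈ Finset.univ.erase x, sig f y.1 (addc f y.1 (v y) (w y)) x.1 (addc f x.1 (v x) (w x)) ω = _
    rw [hdgn, mul_mul_mul_comm, ← Finset.prod_mul_distrib]
    congr 1
    refine Finset.prod_congr rfl fun y hy => ?_
    have hne : x.1 ≠ y.1 := fun h => (Finset.mem_erase.1 hy).1 (Subtype.ext h).symm
    have hy' := hS y.1 y.2
    have e1 := bb_add hf hy' hx (Ne.symm hne) (hv.1 y) (hw.1 y) hω
    have e2 := hfac (lam y.1 x.1) (lam_self_mul hx.iP (lam_primes hx hy' hne)) _ _ (hv.1 x) (hw.1 x)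
    unfold sig
    unfold bb at e1
    rw [e1, e2]
    ring
  rw [key, h1, h2, one_mul]

theorem addc_inv (hf : Cub f) {P : k[X]} (hP : Gd f P) {a b : k[X]} (ha : a ∈ VV f P)
    (hb : b ∈ VV f P) : addc f P (addc f P a b) b = a := by
  rcases pair_cases' hf hP ha hb with ⟨h1, h2⟩ | ⟨h1, h⟩ | ⟨h, h1⟩ | ⟨h, h1⟩ |
    ⟨R, g1, g2, g3, g12, g13, g23, g0⟩
  · rw [h1, h2, addc_one_left, addc_one_left]
  · rw [h1, addc_one_left, addc_self]
  · rw [h1, addc_one_right, addc_one_right]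
  · rw [h1, addc_self, addc_one_left]
  · rw [addc_third hf g1 g2 g3 g12 g13 g23,
      addc_third hf g3 g2 g1 (Ne.symm g23) (Ne.symm g13) (Ne.symm g12)]

theorem addc_fix (hf : Cub f) {P : k[X]} (hP : Gd f P) {a b : k[X]} (ha : a ∈ VV f P)
    (hb : b ∈ VV f P) (he : addc f P a b = a) : b = 1 := by
  rcases pair_cases' hf hP ha hb with ⟨h1, h2⟩ | ⟨h1, h⟩ | ⟨h, h1⟩ | ⟨h, h1⟩ |
    ⟨R, g1, g2, g3, g12, g13, g23, g0⟩
  · exact h2
  · rw [h1, addc_one_left] at he
    exact he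
  · exact h1
  · rw [← h1, addc_self] at he
    rw [← h1, ← he]
  · rw [addc_third hf g1 g2 g3 g12 g13 g23] at he
    exact absurd he.symm g13

/-- The number of the admissible colourings is one or even. -/
theorem even_Adm (hf : Cub f) (hu : u ≠ 0) (hS : ∀ P ∈ S, Gd f P) :
    (Adm f u S).card ≤ 1 ∨ Even (Adm f u S).card := by
  by_cases h : ∃ v ∈ Adm f u S, v ≠ fun _ => 1
  · right
    obtain ⟨v, hv, hne⟩ := h
    have hv' := (mem_Adm.1 hv).1
    refine even_of_inv (fun (a : S → k[X]) (x : S) => addc f x.1 (a x) (v x)) (Adm f u S)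
      (fun a ha => add_Adm hf hu hS ha hv) (fun a ha => ?_) (fun a ha he => ?_)
    · funext x
      exact addc_inv hf (hS x.1 x.2) ((mem_Adm.1 ha).1 x) (hv' x)
    · apply hne
      funext x
      exact addc_fix hf (hS x.1 x.2) ((mem_Adm.1 ha).1 x) (hv' x) (congrFun he x)
  · left
    push Not at h
    exact Finset.card_le_one.2 fun a ha b hb => (h a ha).trans (h b hb).symm

end fin

end Pool.Agent.H4.AV
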