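import Pool.Agent.H4.AV.Asy

/-!
# Proportions
-/

set_option autoImplicit false
set_option linter.all false

open Polynomial
open scoped Classical

namespace Pool.Agent.H4.AV

open Pool.Agent.H341R2.Sharp (lam)
open Pool.Agent.Y164.PS (lam_mem lam_eq_zero_iff lam_mul_left lam_irr Pr mem_Pr card_Pr_le card_Pr_ge
  abs_lam_le char_sum lam_one_left)
open Pool.Agent.X261.TD (ones)
open Pool.Agent.H4.SA

section fin

variable {k : Type} [Field k] [Fintype k] {f : k[X]} {u : k}

/-- The sign of a set of primes, as an integer. -/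
noncomputable def chiZ (f : k[X]) (S : Finset k[X]) : ℤ :=
  ∏ P ∈ S, (if (ones f P).card = 1 then -1 else 1)

omit [Fintype k] in
theorem chiZ_cast (S : Finset k[X]) : (chiZ f S : ℝ) = chi f S := by
  unfold chiZ chi psi
  push_cast
  rfl

omit [Fintype k] in
theorem chiZ_pm (S : Finset k[X]) : chiZ f S = 1 ∨ chiZ f S = -1 := by
  apply mul_self_eq_one_iff.1
  unfold chiZ
  rw [← Finset.prod_mul_distrib]
  refine Finset.prod_eq_one fun P _ => ?_
  split_ifs <;> norm_num

theorem VV_mod (hf : Cub f) {S : Finset k[X]} (hS : ∀ P ∈ S, Gd f P) :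
    (∏ P ∈ S, ((VV f P).card : ℤ)) ≡ chiZ f S [ZMOD 3] := by
  unfold chiZ
  apply Int.ModEq.prod
  intro P hP
  have hc := card_VV hf (hS P hP)
  rcases ones_cases hf (hS P hP) with h0 | ⟨Q, hQ, -, h0⟩ | ⟨Q1, Q2, Q3, h1, h2, h3, h12, h13, h23, h0⟩
  · rw [hc, h0, Finset.card_empty]
    decide
  · have h3 : (ones f P).card = 1 := by
      rw [Finset.card_eq_one]
      refine ⟨Q, ?_⟩
      ext T
      rw [h0, Finset.mem_singleton]
    rw [hc, h3]
    decide
  · have hl := lam_dlt_of_ne hf (hS P hP) h1 h2 h12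
    have hcard : (ones f P).card = 3 := by
      rcases card_ones hf (hS P hP) h1 with h4 | h4
      · exact h4.2
      · rw [h4.1] at hl
        norm_num at hl
    rw [hc, hcard]
    decide

/-- The residue of the number of the colourings. -/
theorem num_mod' (hf : Cub f) (hu : u ≠ 0) {S : Finset k[X]} (hS : ∀ P ∈ S, Gd f P) :
    ((Adm f u S).card : ℤ) ≡ chiZ f S [ZMOD 3] := by
  have h1 := num_mod hf hu hS
  have h2 := VV_mod hf hS
  have h3 : ((Adm f u S).card : ℤ) * ∏ P ∈ S, ((VV f P).card : ℤ) ≡ 1 [ZMOD 3] :=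
    (Int.modEq_iff_dvd.2 h1).symm
  have h4 : ((Adm f u S).card : ℤ) * chiZ f S ≡ 1 [ZMOD 3] :=
    ((Int.ModEq.refl _).mul h2).symm.trans h3
  rcases chiZ_pm (f := f) S with h | h
  · rw [h, mul_one] at h4
    rw [h]
    exact h4
  · rw [h] at h4 ⊢
    have := h4.mul_right (-1)
    rw [mul_assoc] at this
    norm_num at this
    exact this

theorem num_plus (hf : Cub f) (hu : u ≠ 0) {S : Finset k[X]} (hS : ∀ P ∈ S, Gd f P)
    (h : chi f S = 1) : (Adm f u S).card = 1 ∨ 4 ≤ (Adm f u S).card := by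
  have h1 := num_mod' hf hu hS
  have h2 : chiZ f S = 1 := by
    have := chiZ_cast (f := f) S
    rw [h] at this
    exact_mod_cast this
  rw [h2] at h1
  have h3 : (Adm f u S).card % 3 = 1 := by
    have : ((Adm f u S).card : ℤ) % 3 = 1 := h1
    omega
  rcases even_Adm hf hu hS with h4 | h4
  · omega
  · obtain ⟨m, hm⟩ := h4
    omega

theorem num_minus (hf : Cub f) (hu : u ≠ 0) {S : Finset k[X]} (hS : ∀ P ∈ S, Gd f P)
    (h : chi f S = -1) : (Adm f u S).card = 2 ∨ 8 ≤ (Adm f u S).card := by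
  have h1 := num_mod' hf hu hS
  have h2 : chiZ f S = -1 := by
    have := chiZ_cast (f := f) S
    rw [h] at this
    exact_mod_cast this
  rw [h2] at h1
  have h3 : (Adm f u S).card % 3 = 2 := by
    have : ((Adm f u S).card : ℤ) % 3 = (-1) % 3 := h1
    omega
  rcases even_Adm hf hu hS with h4 | h4
  · omega
  · obtain ⟨m, hm⟩ := h4
    omega

omit [Fintype k] in
theorem chi_pm (S : Finset k[X]) : chi f S = 1 ∨ chi f S = -1 := by
  rcases chiZ_pm (f := f) S with h | h
  · left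
    rw [← chiZ_cast, h]
    norm_num
  · right
    rw [← chiZ_cast, h]
    norm_num

/-- The sets of a given sign. -/
noncomputable def Sg (f : k[X]) (n : ℕ) (s : ℝ) : Finset (Finset k[X]) :=
  (SS f n).filter fun S => chi f S = s

/-- The number of the colourings. -/
noncomputable def NN (f : k[X]) (u : k) (S : Finset k[X]) : ℕ := (Adm f u S).card

theorem class_sum (hf : Cub f) (hu : u ≠ 0) {n : ℕ} {η : ℝ}
    (h0 : |∑ S ∈ SS f n, ((NN f u S : ℝ) - 3)| ≤ η)
    (h1 : |∑ S ∈ SS f n, ((NN f u S : ℝ) - 3) * chi f S| ≤ η) {s : ℝ} (hs : s = 1 ∨ s = -1) :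
    |∑ S ∈ Sg f n s, ((NN f u S : ℝ) - 3)| ≤ η := by
  have e1 : ∑ S ∈ Sg f n s, ((NN f u S : ℝ) - 3) =
      (∑ S ∈ SS f n, ((NN f u S : ℝ) - 3) + s * ∑ S ∈ SS f n, ((NN f u S : ℝ) - 3) * chi f S) / 2 := by
    unfold Sg
    rw [Finset.sum_filter, Finset.mul_sum, ← Finset.sum_add_distrib, Finset.sum_div]
    refine Finset.sum_congr rfl fun S _ => ?_
    rcases chi_pm (f := f) S with h | h <;> rcases hs with h' | h' <;> rw [h, h'] <;> norm_num
  rw [e1, abs_div, abs_of_pos (by norm_num : (0 : ℝ) < 2), div_le_iff₀ (by norm_num)]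
  refine (abs_add_le _ _).trans ?_
  rw [abs_mul]
  have h2 : |s| = 1 := by rcases hs with h' | h' <;> rw [h'] <;> norm_num
  rw [h2]
  linarith

/-- The sets with few colourings. -/
theorem prop_plus (hf : Cub f) (hu : u ≠ 0) {n : ℕ} {η : ℝ}
    (h : |∑ S ∈ Sg f n 1, ((NN f u S : ℝ) - 3)| ≤ η) :
    ((Sg f n 1).card - η) / 3 ≤ (((SS f n).filter fun S => NN f u S ≤ 1).card : ℝ) := by
  have h1 : ∀ S ∈ Sg f n 1, (1 : ℝ) - 3 * (if NN f u S ≤ 1 then 1 else 0) ≤ (NN f u S : ℝ) - 3 := by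
    intro S hS
    obtain ⟨hS1, hS2⟩ := Finset.mem_filter.1 hS
    rcases num_plus hf hu (mem_SS.1 hS1).1 hS2 with h2 | h2
    · have h3 : NN f u S = 1 := h2
      rw [h3, if_pos le_rfl]
      norm_num
    · have h3 : 4 ≤ NN f u S := h2
      rw [if_neg (by omega)]
      have : (4 : ℝ) ≤ NN f u S := by exact_mod_cast h3
      linarith
  have h2 := Finset.sum_le_sum h1
  rw [Finset.sum_sub_distrib, Finset.sum_const, nsmul_eq_mul, mul_one, ← Finset.mul_sum,
    ← Finset.sum_filter, Finset.sum_const, nsmul_eq_mul, mul_one] at h2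
  have h3 := (abs_le.1 h).2
  have h4 : (((Sg f n 1).filter fun S => NN f u S ≤ 1).card : ℝ) ≤
      ((SS f n).filter fun S => NN f u S ≤ 1).card := by
    exact_mod_cast Finset.card_le_card (Finset.filter_subset_filter _ (Finset.filter_subset _ _))
  linarith

theorem prop_minus (hf : Cub f) (hu : u ≠ 0) {n : ℕ} {η : ℝ}
    (h : |∑ S ∈ Sg f n (-1), ((NN f u S : ℝ) - 3)| ≤ η) :
    (5 * (Sg f n (-1)).card - η) / 6 ≤
      (((SS f n).filter fun S => chi f S = -1 ∧ NN f u S ≤ 2).card : ℝ) := by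
  have h1 : ∀ S ∈ Sg f n (-1), (5 : ℝ) - 6 * (if NN f u S ≤ 2 then 1 else 0) ≤ (NN f u S : ℝ) - 3 := by
    intro S hS
    obtain ⟨hS1, hS2⟩ := Finset.mem_filter.1 hS
    rcases num_minus hf hu (mem_SS.1 hS1).1 hS2 with h2 | h2
    · have h3 : NN f u S = 2 := h2
      rw [h3, if_pos le_rfl]
      norm_num
    · have h3 : 8 ≤ NN f u S := h2
      rw [if_neg (by omega)]
      have : (8 : ℝ) ≤ NN f u S := by exact_mod_cast h3
      linarith
  have h2 := Finset.sum_le_sum h1
  rw [Finset.sum_sub_distrib, Finset.sum_const, nsmul_eq_mul, ← Finset.mul_sum,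
    ← Finset.sum_filter, Finset.sum_const, nsmul_eq_mul, mul_one] at h2
  have h3 := (abs_le.1 h).2
  have h4 : (Sg f n (-1)).filter (fun S => NN f u S ≤ 2) =
      (SS f n).filter fun S => chi f S = -1 ∧ NN f u S ≤ 2 := by
    unfold Sg
    rw [Finset.filter_filter]
  rw [h4] at h2
  linarith

theorem log_plus {N : ℕ} (h : N = 1 ∨ 4 ≤ N) : Real.logb 2 N ≤ 2 / 3 * (N - 1) := by
  rcases h with h | h
  · rw [h]
    simp
  · have hN : (4 : ℝ) ≤ N := by exact_mod_cast h
    have h1 := Real.log_le_sub_one_of_pos (x := (N : ℝ) / 4) (by linarith)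
    have hl4 : Real.log 4 = 2 * Real.log 2 := by
      rw [show (4 : ℝ) = 2 ^ 2 by norm_num, Real.log_pow]
      norm_num
    rw [Real.log_div (by linarith) (by norm_num), hl4] at h1
    have hl := Real.log_two_gt_d9
    rw [← Real.log_div_log, div_le_iff₀ (by linarith)]
    nlinarith

theorem log_minus {N : ℕ} (h : N = 2 ∨ 8 ≤ N) : Real.logb 2 N ≤ 1 + 1 / 3 * (N - 2) := by
  rcases h with h | h
  · rw [h]
    norm_num
  · have hN : (8 : ℝ) ≤ N := by exact_mod_cast h
    have h1 := Real.log_le_sub_one_of_pos (x := (N : ℝ) / 8) (by linarith)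
    have hl4 : Real.log 8 = 3 * Real.log 2 := by
      rw [show (8 : ℝ) = 2 ^ 3 by norm_num, Real.log_pow]
      norm_num
    rw [Real.log_div (by linarith) (by norm_num), hl4] at h1
    have hl := Real.log_two_gt_d9
    rw [← Real.log_div_log, div_le_iff₀ (by linarith)]
    nlinarith

/-- The average of the logarithm. -/
theorem log_sum (hf : Cub f) (hu : u ≠ 0) {n : ℕ} {η : ℝ}
    (h1 : |∑ S ∈ Sg f n 1, ((NN f u S : ℝ) - 3)| ≤ η)
    (h2 : |∑ S ∈ Sg f n (-1), ((NN f u S : ℝ) - 3)| ≤ η) :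
    ∑ S ∈ SS f n, Real.logb 2 (NN f u S) ≤ 4 / 3 * (SS f n).card + η := by
  have e1 : SS f n = Sg f n 1 ∪ Sg f n (-1) := by
    ext S
    unfold Sg
    rw [Finset.mem_union, Finset.mem_filter, Finset.mem_filter]
    constructor
    · intro h
      rcases chi_pm (f := f) S with h' | h'
      · exact Or.inl ⟨h, h'⟩
      · exact Or.inr ⟨h, h'⟩
    · rintro (h | h)
      · exact h.1
      · exact h.1
  have e2 : Disjoint (Sg f n 1) (Sg f n (-1)) := by
    rw [Finset.disjoint_left]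
    intro S h3 h4
    have h5 := (Finset.mem_filter.1 h3).2
    have h6 := (Finset.mem_filter.1 h4).2
    rw [h5] at h6
    norm_num at h6
  have a1 : ∑ S ∈ Sg f n 1, Real.logb 2 (NN f u S) ≤
      ∑ S ∈ Sg f n 1, (4 / 3 + 2 / 3 * ((NN f u S : ℝ) - 3)) := by
    refine Finset.sum_le_sum fun S hS => ?_
    obtain ⟨hS1, hS2⟩ := Finset.mem_filter.1 hS
    have := log_plus (num_plus hf hu (mem_SS.1 hS1).1 hS2)
    unfold NN
    linarith
  have a2 : ∑ S ∈ Sg f n (-1), Real.logb 2 (NN f u S) ≤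
      ∑ S ∈ Sg f n (-1), (4 / 3 + 1 / 3 * ((NN f u S : ℝ) - 3)) := by
    refine Finset.sum_le_sum fun S hS => ?_
    obtain ⟨hS1, hS2⟩ := Finset.mem_filter.1 hS
    have := log_minus (num_minus hf hu (mem_SS.1 hS1).1 hS2)
    unfold NN
    linarith
  rw [Finset.sum_add_distrib, Finset.sum_const, nsmul_eq_mul, ← Finset.mul_sum] at a1 a2
  have h3 := (abs_le.1 h1).2
  have h4 := (abs_le.1 h2).2
  rw [e1, Finset.sum_union e2, Finset.card_union_of_disjoint e2]
  push_cast
  linarith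

/-- The number of the sets of each sign. -/
theorem card_Sg {n : ℕ} {η : ℝ} (h : |∑ S ∈ SS f n, chi f S| ≤ η) {s : ℝ} (hs : s = 1 ∨ s = -1) :
    ((SS f n).card - η) / 2 ≤ ((Sg f n s).card : ℝ) := by
  have e1 : ((Sg f n s).card : ℝ) = ((SS f n).card + s * ∑ S ∈ SS f n, chi f S) / 2 := by
    unfold Sg
    rw [Finset.card_eq_sum_ones, Finset.sum_filter, Finset.card_eq_sum_ones]
    push_cast
    rw [Finset.mul_sum, ← Finset.sum_add_distrib, Finset.sum_div]
    refine Finset.sum_congr rfl fun S _ => ?_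
    rcases chi_pm (f := f) S with h | h <;> rcases hs with h' | h' <;> rw [h, h'] <;> norm_num
  rw [e1]
  have h1 := abs_le.1 h
  rcases hs with h' | h' <;> rw [h'] <;> linarith [h1.1, h1.2]

end fin

end Pool.Agent.H4.AV
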