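import Pool.Agent.H4.AV.Rs

/-!
# Sums of the symbol over primes
-/

set_option autoImplicit false
set_option linter.all false

open Polynomial
open scoped Classical

namespace Pool.Agent.H4.AV

open Pool.Agent.H341R2.Sharp (lam)
open Pool.Agent.Y164.PS (lam_mem lam_eq_zero_iff lam_mul_left lam_irr Pr mem_Pr card_Pr_le card_Pr_ge
  abs_lam_le char_sum)
open Pool.Agent.X261.TD (ones)
open Pool.Agent.TH943.HJ (primes mem_primes)
open Pool.Agent.H4.SA

section gen

variable {k : Type} [Field k] {f : k[X]}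

/-- Not a constant times a square. -/
def Nsq (M : k[X]) : Prop := ∀ (c : k) (h : k[X]), M ≠ C c * h ^ 2

theorem Nsq.ne {M : k[X]} (h : Nsq M) : M ≠ 0 := fun h0 => h 0 0 (by rw [h0]; simp)

theorem nsq_of {M R : k[X]} (hR : Irreducible R) (h1 : R ∣ M) (h2 : ¬ R ^ 2 ∣ M) : Nsq M := by
  rintro c h rfl
  by_cases hc : c = 0
  · rw [hc] at h2
    simp at h2
  · have hcu : IsUnit (C c : k[X]) := isUnit_C.2 (isUnit_iff_ne_zero.2 hc)
    have h3 : R ∣ h := hR.prime.dvd_of_dvd_pow ((hR.prime.dvd_or_dvd h1).resolve_left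
      fun h' => hR.not_isUnit (isUnit_of_dvd_unit h' hcu))
    exact h2 ((pow_dvd_pow_of_dvd h3 2).mul_left _)

theorem Nsq.of_comp {M : k[X]} (h : Nsq (M.comp f)) : Nsq M := by
  rintro c g rfl
  exact h c (g.comp f) (by simp)

/-- A product over a coloured set is not a square. -/
theorem nsq_prod {K : Finset (Tri k)} (hc : Col f K) (g : Tri k → k[X])
    (hg : ∀ κ ∈ K, g κ ∣ κ.1.comp f ^ 2) {κ : Tri k} (hκ : κ ∈ K) {R : k[X]} (iR : Irreducible R)
    (h1 : R ∣ κ.1.comp f) (h2 : R ∣ g κ) (h3 : ¬ R ^ 2 ∣ g κ) {e : k[X]} (he : ¬ R ∣ e) :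
    Nsq (e * ∏ κ' ∈ K, g κ') := by
  have hrest : ¬ R ∣ e * ∏ κ' ∈ K.erase κ, g κ' := by
    intro h
    rcases iR.prime.dvd_or_dvd h with h | h
    · exact he h
    · obtain ⟨κ', hκ', h4⟩ := iR.prime.exists_mem_finset_dvd h
      have h5 := iR.prime.dvd_of_dvd_pow (h4.trans (hg κ' (Finset.mem_of_mem_erase hκ')))
      have hv := (hc.vd κ hκ).gd
      have hv' := (hc.vd κ' (Finset.mem_of_mem_erase hκ')).gd
      have hne : κ.1 ≠ κ'.1 := fun he => (Finset.mem_erase.1 hκ').1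
        (hc.inj κ hκ κ' (Finset.mem_of_mem_erase hκ') he).symm
      exact not_dvd_of_ne ⟨hv.mP, hv.iP⟩ ⟨hv'.mP, hv'.iP⟩ hne iR h1 h5
  rw [← Finset.mul_prod_erase K g hκ, mul_left_comm]
  refine nsq_of iR (h2.mul_right _) fun h => ?_
  exact h3 (iR.prime.pow_dvd_of_dvd_mul_right 2 hrest h)

/-- The types of the pairs of colours with a sign at the prime. -/
def tX (κ : Tri k) : Prop := κ.2.1 ≠ 1 ∧ κ.2.2 ≠ 1 ∧ κ.2.1 ≠ κ.2.2

/-- The factor of a coloured prime in the symbol of a prime of type `(1, w)`. -/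
noncomputable def loc (f : k[X]) (κ : Tri k) : k[X] :=
  zz f κ.1 κ.2.1 * (if tX κ then κ.1.comp f else 1)

/-- The factor of a coloured prime in the symbol of a prime of type `(1, 1)`. -/
noncomputable def loc0 (f : k[X]) (κ : Tri k) : k[X] := if tX κ then κ.1.comp f else 1

theorem loc_dvd (hf : Cub f) {κ : Tri k} (h : Vd f κ) : loc f κ ∣ κ.1.comp f ^ 2 := by
  unfold loc
  rw [pow_two]
  refine mul_dvd_mul (zz_dvd hf h.gd h.v) ?_
  split_ifs
  · exact dvd_rfl
  · exact one_dvd _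

theorem loc0_dvd {κ : Tri k} : loc0 f κ ∣ κ.1.comp f ^ 2 := by
  unfold loc0
  split_ifs
  · exact dvd_pow_self _ two_ne_zero
  · exact one_dvd _

theorem loc_prime (hf : Cub f) {κ : Tri k} (h : Vd f κ) (hv : κ.2.1 ≠ 1) :
    ∃ R, Irreducible R ∧ R ∣ κ.1.comp f ∧ R ∣ loc f κ ∧ ¬ R ^ 2 ∣ loc f κ := by
  have h1 := ((mem_VV hf h.gd).1 h.v).resolve_left hv
  have hsq := h.gd.sq
  by_cases hX : tX κ
  · refine ⟨κ.2.1, h1.iQ, h1.dvd, ?_, ?_⟩
    · unfold loc
      rw [if_pos hX]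
      exact h1.dvd.mul_left _
    · intro h2
      unfold loc at h2
      have hnd : ¬ κ.2.1 ∣ zz f κ.1 κ.2.1 := by
        intro h3
        apply h1.iQ.not_isUnit
        refine hsq _ ?_
        rw [h1.zz_mul]
        exact mul_dvd_mul dvd_rfl h3
      rw [if_pos hX, h1.zz_mul, mul_left_comm] at h2
      rw [pow_two] at h2
      have h4 := (mul_dvd_mul_iff_left h1.iQ.ne_zero).1 h2
      rcases h1.iQ.prime.dvd_or_dvd h4 with h5 | h5 <;> exact hnd h5
  · have hnu : ¬ IsUnit (zz f κ.1 κ.2.1) := by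
      intro hu
      have := h1.zz_deg hf
      rw [natDegree_eq_zero_of_isUnit hu] at this
      have := h.gd.iP.natDegree_pos
      omega
    obtain ⟨R, iR, hR⟩ := WfDvdMonoid.exists_irreducible_factor hnu (h1.zz_ne hf)
    have hz := zz_dvd hf h.gd h.v
    refine ⟨R, iR, hR.trans hz, ?_, ?_⟩
    · unfold loc
      exact hR.mul_right _
    · intro h2
      unfold loc at h2
      rw [if_neg hX, mul_one, pow_two] at h2
      exact iR.not_isUnit (hsq R (h2.trans hz))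

theorem loc0_prime (hf : Cub f) {κ : Tri k} (h : Vd f κ) (hX : tX κ) :
    ∃ R, Irreducible R ∧ R ∣ κ.1.comp f ∧ R ∣ loc0 f κ ∧ ¬ R ^ 2 ∣ loc0 f κ := by
  have h1 := ((mem_VV hf h.gd).1 h.v).resolve_left hX.1
  refine ⟨κ.2.1, h1.iQ, h1.dvd, ?_, ?_⟩
  · unfold loc0
    rw [if_pos hX]
    exact h1.dvd
  · intro h2
    unfold loc0 at h2
    rw [if_pos hX, pow_two] at h2
    exact h1.iQ.not_isUnit (h.gd.sq _ h2)

theorem natDegree_loc (hf : Cub f) {κ : Tri k} (h : Vd f κ) :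
    (loc f κ).natDegree ≤ 6 * κ.1.natDegree := by
  have h0 := Pool.Agent.X261.TD.comp_ne (f := f) hf.deg h.gd.iP.ne_zero
  have h1 := natDegree_le_of_dvd (loc_dvd hf h) (pow_ne_zero 2 h0)
  rw [natDegree_pow, natDegree_comp, hf.deg] at h1
  omega

theorem natDegree_loc0 (hf : Cub f) {κ : Tri k} (h : Vd f κ) :
    (loc0 f κ).natDegree ≤ 6 * κ.1.natDegree := by
  have h0 := Pool.Agent.X261.TD.comp_ne (f := f) hf.deg h.gd.iP.ne_zero
  have h1 := natDegree_le_of_dvd (loc0_dvd (f := f) (κ := κ)) (pow_ne_zero 2 h0)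
  rw [natDegree_pow, natDegree_comp, hf.deg] at h1
  omega

theorem loc_ne (hf : Cub f) {κ : Tri k} (h : Vd f κ) : loc f κ ≠ 0 := fun h0 => by
  have h1 := loc_dvd hf h
  rw [h0, zero_dvd_iff] at h1
  exact Pool.Agent.X261.TD.comp_ne (f := f) hf.deg h.gd.iP.ne_zero (pow_eq_zero_iff two_ne_zero |>.1 h1)

theorem loc0_ne (hf : Cub f) {κ : Tri k} (h : Vd f κ) : loc0 f κ ≠ 0 := by
  unfold loc0
  split_ifs
  · exact Pool.Agent.X261.TD.comp_ne (f := f) hf.deg h.gd.iP.ne_zero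
  · exact one_ne_zero

theorem natDegree_prodK {K : Finset (Tri k)} {g : Tri k → k[X]}
    (hg : ∀ κ ∈ K, (g κ).natDegree ≤ 6 * κ.1.natDegree) {m : ℕ}
    (hm : ∑ κ ∈ K, κ.1.natDegree = m) : (∏ κ ∈ K, g κ).natDegree ≤ 6 * m := by
  refine (natDegree_prod_le K g).trans ?_
  rw [← hm, Finset.mul_sum]
  exact Finset.sum_le_sum hg

theorem card_le_deg {K : Finset (Tri k)} (hc : Col f K) {m : ℕ}
    (hm : ∑ κ ∈ K, κ.1.natDegree = m) : K.card ≤ m := by
  rw [← hm, Finset.card_eq_sum_ones]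
  exact Finset.sum_le_sum fun κ hκ => (hc.vd κ hκ).gd.iP.natDegree_pos

end gen

section fin

variable {k : Type} [Field k] [Fintype k] {f : k[X]} {u : k}

theorem char_le (h2 : (2 : k) ≠ 0) {M : k[X]} (hM : Nsq M) {d : ℕ} (hd : 1 ≤ d) :
    |∑ P ∈ Pr k d, (lam M P : ℝ)| ≤ (5 * M.natDegree + 2) * rq k ^ d := by
  have hM0 := hM.ne
  set c := M.leadingCoeff with hc
  have hc0 : c ≠ 0 := leadingCoeff_ne_zero.2 hM0
  set M' := C c⁻¹ * M with hM'
  have hmon : M'.Monic := by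
    rw [hM', Monic, leadingCoeff_mul, leadingCoeff_C, ← hc, inv_mul_cancel₀ hc0]
  have heq : M = C c * M' := by
    rw [hM', ← mul_assoc, ← C_mul, mul_inv_cancel₀ hc0, C_1, one_mul]
  have hns : ∀ (a : k) (h : k[X]), M' ≠ C a * h ^ 2 := by
    intro a h he
    refine hM (c * a) h ?_
    rw [heq, he, C_mul, mul_assoc]
  have hdeg : M'.natDegree = M.natDegree := by
    rw [hM', natDegree_C_mul (inv_ne_zero hc0)]
  have h1 : 1 ≤ M'.natDegree := by
    by_contra h
    have h0 : M'.natDegree = 0 := by omega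
    have := hmon.natDegree_eq_zero.1 h0
    exact hns 1 1 (by rw [this]; simp)
  have key := char_sum (ringChar_ne h2) hmon h1 hns d hd
  have hsum : ∑ P ∈ Pr k d, (lam M P : ℝ) = ((quadraticChar k c ^ d : ℤ) : ℝ) *
      ∑ P ∈ Pr k d, (lam M' P : ℝ) := by
    rw [Finset.mul_sum]
    refine Finset.sum_congr rfl fun P hP => ?_
    rw [heq, lam_mul_left (C_ne_zero.2 hc0) hmon.ne_zero, lam_C, (mem_Pr.1 hP).2.2]
    push_cast
    rfl
  have habs : |((quadraticChar k c ^ d : ℤ) : ℝ)| = 1 := by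
    rcases quadraticChar_dichotomy hc0 with h | h
    · rw [h]; simp
    · rw [h]; push_cast; rw [abs_pow, abs_neg, abs_one, one_pow]
  rw [hsum, abs_mul, habs, one_mul]
  rw [hdeg] at key
  have hd' : (1 : ℝ) ≤ d := by exact_mod_cast hd
  have h3 : 0 ≤ |∑ P ∈ Pr k d, (lam M' P : ℝ)| := abs_nonneg _
  have h4 : Real.sqrt (Fintype.card k) = rq k := rfl
  rw [h4] at key
  nlinarith

/-- The sum over the primes of degree one. -/
theorem Rs_le (hf : Cub f) {M : k[X]} (hM : Nsq M) (hM' : Nsq (dlt f * M)) {d : ℕ} (hd : 1 ≤ d)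
    (K : Finset (Tri k)) (α β : ℝ) :
    |∑ R ∈ Rs f d K, (α + β * (lam (dlt f) R : ℝ)) * (lam M R : ℝ)| ≤
      (|α| + |β|) * ((5 * M.natDegree + 3 * K.card + 24) * rq k ^ d) := by
  have hdel : dlt f ≠ 0 := fun h => hM'.ne (by rw [h, zero_mul])
  have h1 : ∑ R ∈ Rs f d K, (α + β * (lam (dlt f) R : ℝ)) * (lam M R : ℝ) =
      α * ∑ R ∈ Pr k d, (lam M R : ℝ) + β * ∑ R ∈ Pr k d, (lam (dlt f * M) R : ℝ) -
      ∑ R ∈ Pr k d \ Rs f d K, (α + β * (lam (dlt f) R : ℝ)) * (lam M R : ℝ) := by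
    rw [eq_sub_iff_add_eq, add_comm, Finset.sum_sdiff (Rs_sub hf d K), Finset.mul_sum, Finset.mul_sum,
      ← Finset.sum_add_distrib]
    refine Finset.sum_congr rfl fun R _ => ?_
    rw [lam_mul_left hdel hM.ne]
    push_cast
    ring
  have h2 := char_le hf.two hM hd
  have h3 := char_le hf.two hM' hd
  have h4 : |∑ R ∈ Pr k d \ Rs f d K, (α + β * (lam (dlt f) R : ℝ)) * (lam M R : ℝ)| ≤
      (|α| + |β|) * (6 * rq k ^ d + 6 + 3 * K.card) := by
    refine (Finset.abs_sum_le_sum_abs _ _).trans ?_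
    have h5 : ∀ R ∈ Pr k d \ Rs f d K, |(α + β * (lam (dlt f) R : ℝ)) * (lam M R : ℝ)| ≤ |α| + |β| := by
      intro R _
      have e1 := abs_lam_le (dlt f) R
      have e2 := abs_lam_le M R
      rw [abs_mul]
      have e3 : |α + β * (lam (dlt f) R : ℝ)| ≤ |α| + |β| := by
        refine (abs_add_le _ _).trans ?_
        rw [abs_mul]
        have := abs_nonneg β
        nlinarith
      have := abs_nonneg (α + β * (lam (dlt f) R : ℝ))
      nlinarith
    refine (Finset.sum_le_card_nsmul _ _ _ h5).trans ?_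
    rw [nsmul_eq_mul, mul_comm]
    exact mul_le_mul_of_nonneg_left (card_compl hf hd K) (by positivity)
  have hdg : ((dlt f * M).natDegree : ℝ) ≤ M.natDegree + 2 := by
    have : (dlt f * M).natDegree ≤ M.natDegree + 2 := by
      have := natDegree_mul_le (p := dlt f) (q := M)
      have := dlt_deg (f := f)
      omega
    exact_mod_cast this
  have hr := rq_pow_one hf.two d
  rw [h1]
  have hA : |α * ∑ R ∈ Pr k d, (lam M R : ℝ)| ≤ |α| * ((5 * M.natDegree + 2) * rq k ^ d) := by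
    rw [abs_mul]
    exact mul_le_mul_of_nonneg_left h2 (abs_nonneg _)
  have hB : |β * ∑ R ∈ Pr k d, (lam (dlt f * M) R : ℝ)| ≤
      |β| * ((5 * (M.natDegree + 2) + 2) * rq k ^ d) := by
    rw [abs_mul]
    refine mul_le_mul_of_nonneg_left (h3.trans ?_) (abs_nonneg _)
    nlinarith
  refine (abs_sub _ _).trans ?_
  refine (add_le_add (abs_add_le _ _) le_rfl).trans ?_
  refine (add_le_add (add_le_add hA hB) h4).trans ?_
  have ha := abs_nonneg α
  have hb := abs_nonneg β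
  have hm : (0 : ℝ) ≤ M.natDegree := Nat.cast_nonneg _
  have hkc : (0 : ℝ) ≤ K.card := Nat.cast_nonneg _
  generalize rq k ^ d = r at *
  generalize (M.natDegree : ℝ) = m at *
  generalize (K.card : ℝ) = κ at *
  have e1 : |α| * (0 : ℝ) ≤ |α| * (16 * r - 6 + 3 * κ * (r - 1)) := by
    apply mul_le_mul_of_nonneg_left _ ha
    nlinarith
  have e2 : |β| * (0 : ℝ) ≤ |β| * (6 * r - 6 + 3 * κ * (r - 1)) := by
    apply mul_le_mul_of_nonneg_left _ hb
    nlinarith
  nlinarith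

end fin

end Pool.Agent.H4.AV
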