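import Pool.Agent.H4.AV.Fam

/-!
# The averages over the families of twists
-/

set_option autoImplicit false
set_option linter.all false

open Polynomial
open scoped Classical

namespace Pool.Agent.H4.AV

open Pool.Agent.H341R2.Sharp (lam)
open Pool.Agent.Y164.PS (lam_mul_left lam_mem)
open Pool.Agent.X261.TD (ones)
open Pool.Agent.TH943.HJ (primes mem_primes)
open Pool.Agent.H4.SA
open Pool.Agent.H4.SL
open Pool.Agent.Y784.SV (mem_US)
open Pool.Agent.Y711 (US)
open Pool.Agent.TH115.GD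

section gen

variable {k : Type} [Field k] {f : k[X]}

/-- The polynomial `dlt f` is a constant times a square only if `f` is a cube up to a constant
or additive up to a constant. -/
theorem nsq_dlt (hf : Cub f) (h : f.coeff 2 ^ 2 ≠ 3 * f.coeff 1) : Nsq (dlt f) := by
  intro c g he
  apply h
  have hd0 := dlt_ne hf.mon hf.deg hf.two hf.der
  have hc : c ≠ 0 := by
    rintro rfl
    apply hd0
    rw [he]
    simp
  have hg : g ≠ 0 := by
    rintro rfl
    apply hd0
    rw [he]
    simp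
  have h1 : g.natDegree ≤ 1 := by
    have h2 := dlt_deg (f := f)
    rw [he, natDegree_C_mul hc, natDegree_pow] at h2
    omega
  obtain ⟨α, β, rfl⟩ : ∃ α β : k, g = C α * X + C β := ⟨_, _, eq_X_add_C_of_natDegree_le_one h1⟩
  have e0 : (dlt f).coeff 0 = f.coeff 2 ^ 2 - 4 * f.coeff 1 := by
    unfold dlt
    simp only [coeff_add, coeff_sub, coeff_C_mul, coeff_X_pow, coeff_X, coeff_C]
    norm_num
  have e1 : (dlt f).coeff 1 = -(2 * f.coeff 2) := by
    unfold dlt
    simp only [coeff_add, coeff_sub, coeff_C_mul, coeff_X_pow, coeff_X, coeff_C]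
    norm_num
  have e2 : (dlt f).coeff 2 = -3 := by
    unfold dlt
    simp only [coeff_add, coeff_sub, coeff_C_mul, coeff_X_pow, coeff_X, coeff_C]
    norm_num
  have hx : C c * (C α * X + C β) ^ 2 = C (c * α ^ 2) * X ^ 2 + C (2 * c * α * β) * X + C (c * β ^ 2) := by
    simp only [C_mul, C_pow, map_ofNat]
    ring
  rw [he, hx] at e0 e1 e2
  simp only [coeff_add, coeff_C_mul, coeff_X_pow, coeff_X, coeff_C] at e0 e1 e2
  norm_num at e0 e1 e2
  have h4 : (16 : k) * (f.coeff 2 ^ 2 - 3 * f.coeff 1) = 0 := by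
    have key : (2 * c * α * β) ^ 2 = 4 * (c * α ^ 2) * (c * β ^ 2) := by ring
    rw [e0, e1, e2] at key
    linear_combination key
  have h16 : (16 : k) ≠ 0 := by
    have : (16 : k) = 2 ^ 4 := by norm_num
    rw [this]
    exact pow_ne_zero 4 hf.two
  exact sub_eq_zero.1 ((mul_eq_zero.1 h4).resolve_left h16)

end gen

section fin

variable {k : Type} [Field k] [Fintype k] {f : k[X]}

/-- If `dlt f` is a square, all the signs are positive. -/
theorem chi_one_of_sq (hf : Cub f) (h : ∃ g, dlt f = g ^ 2) {S : Finset k[X]}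
    (hS : ∀ P ∈ S, Gd f P) : chi f S = 1 := by
  obtain ⟨g, hg⟩ := h
  unfold chi
  refine Finset.prod_eq_one fun P hP => ?_
  rcases hw_cases hf (hS P hP) with ⟨-, h2, -⟩ | ⟨⟨R, hR, hl, -⟩, -, -⟩ | ⟨-, -, h2, -⟩
  · exact h2
  · exfalso
    have hg0 : g ≠ 0 := by
      rintro rfl
      exact dlt_ne hf.mon hf.deg hf.two hf.der (by rw [hg]; simp)
    rw [hg, pow_two, lam_mul_left hg0 hg0] at hl
    have h3 : (lam g R * lam g R : ℤ) = -1 := by exact_mod_cast hl
    nlinarith [mul_self_nonneg (lam g R)]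
  · exact h2

end fin

/-- The sets of the family. -/
theorem even_set {k : Type} [Field k] {f : k[X]} (hf : Cub f) (n : ℕ) :
    FamEven f n = {D | D ∈ Fam f n ∧ chi f (primes D) = 1} := by
  ext D
  unfold FamEven
  rw [Set.mem_setOf_eq, Set.mem_setOf_eq]
  exact and_congr_right fun h => (chi_even hf h.1.ne_zero).symm

theorem odd_set {k : Type} [Field k] {f : k[X]} (hf : Cub f) (n : ℕ) :
    FamOdd f n = {D | D ∈ Fam f n ∧ chi f (primes D) = -1} := by
  ext D
  unfold FamOdd
  rw [Set.mem_setOf_eq, Set.mem_setOf_eq]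
  exact and_congr_right fun h => (chi_odd hf h.1.ne_zero).symm

/-- The Selmer group, the Mordell-Weil group modulo two and the 2-primary part of the group of
Tate and Shafarevich are zero. -/
def Triv (K : Type) {k : Type} [Field k] [Field K] [Algebra k[X] K] [IsFractionRing k[X] K]
    (f : k[X]) (u : k) (D : k[X]) : Prop :=
  sel K f u D = 1 ∧ ShaTwo k (tw K f (C u * D)) ∧ ∀ P : Pt (tw K f (C u * D)) K, ∃ Q, P = Q + Q

theorem card_Fam_ge {k : Type} [Field k] [Fintype k] {f : k[X]} (hf : Cub f) {n : ℕ}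
    (hn : 4 ≤ n) : 2 / 9 * (Fintype.card k : ℝ) ^ n ≤ (Fam f n).ncard := by
  have h1 := card_SS_ge hf hn
  have h2 := ncard_eq hf n (fun _ => True)
  have h3 : ({D | D ∈ Fam f n ∧ True} : Set k[X]) = Fam f n := by
    ext D
    simp
  have h4 : ((SS f n).filter fun _ => True) = SS f n := by
    ext S
    simp
  rw [h3, h4] at h2
  rw [h2]
  exact h1

/-- The averages. -/
theorem averages_aux (ε : ℝ) (hε : 0 < ε) : ∃ n0 : ℕ, ∀ (k K : Type) [Field k] [Fintype k] [Field K]
    [Algebra k[X] K] [IsFractionRing k[X] K] (f : k[X]) (u : k), Cub f → u ≠ 0 →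
    ∀ n, n0 ≤ n →
      (∑ᶠ D ∈ Fam f n, (sel K f u D : ℝ) ≤ (3 + ε) * (Fam f n).ncard ∧
        ∑ᶠ D ∈ FamEven f n, (sel K f u D : ℝ) ≤ 3 * (FamEven f n).ncard + ε * (Fam f n).ncard ∧
        ∑ᶠ D ∈ FamOdd f n, (sel K f u D : ℝ) ≤ 3 * (FamOdd f n).ncard + ε * (Fam f n).ncard ∧
        ∑ᶠ D ∈ Fam f n, Real.logb 2 (sel K f u D) ≤ (4 / 3 + ε) * (Fam f n).ncard) ∧
      (1 / 3 * (FamEven f n).ncard - ε * (Fam f n).ncard ≤
          ({D | D ∈ Fam f n ∧ Triv K f u D} : Set k[X]).ncard ∧
        5 / 6 * (FamOdd f n).ncard - ε * (Fam f n).ncard ≤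
          ({D | D ∈ FamOdd f n ∧ sel K f u D ≤ 2} : Set k[X]).ncard) ∧
      (f.coeff 2 ^ 2 ≠ 3 * f.coeff 1 →
        |((FamEven f n).ncard : ℝ) - 1 / 2 * (Fam f n).ncard| ≤ ε * (Fam f n).ncard ∧
        (1 / 6 - ε) * (Fam f n).ncard ≤ ({D | D ∈ Fam f n ∧ Triv K f u D} : Set k[X]).ncard ∧
        (7 / 12 - ε) * (Fam f n).ncard ≤
          ({D | D ∈ Fam f n ∧ sel K f u D ≤ 2} : Set k[X]).ncard) ∧
      ((∃ g, dlt f = g ^ 2) →
        (1 / 3 - ε) * (Fam f n).ncard ≤ ({D | D ∈ Fam f n ∧ Triv K f u D} : Set k[X]).ncard) := by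
  obtain ⟨n0, h0⟩ := exists_n0 (ε := 2 / 9 * ε) (by linarith)
  refine ⟨n0, fun k K _ _ _ _ _ f u hf hu n hn => ?_⟩
  obtain ⟨hn4, hLn, hall⟩ := h0 n hn
  obtain ⟨hE1, hE2⟩ := hall k hf.two
  have hLL := LL_ge n
  have hq := qq_ge hf.two
  have hqn : 0 < qq k ^ n := by positivity
  have hT := card_SS_ge hf hn4
  have hcard : ((Fam f n).ncard : ℝ) = (SS f n).card := by
    have h1 := ncard_eq hf n (fun _ => True)
    have h2 : ({D | D ∈ Fam f n ∧ True} : Set k[X]) = Fam f n := by
      ext D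
      simp
    have h3 : ((SS f n).filter fun _ => True) = SS f n := by
      ext S
      simp
    rw [h2, h3] at h1
    exact h1
  have hT0 : (0 : ℝ) ≤ (SS f n).card := Nat.cast_nonneg _
  have hη : Er k (LL n) n * qq k ^ n ≤ ε * (SS f n).card := by
    have h1 := mul_le_mul_of_nonneg_right hE1 hqn.le
    have h2 := mul_le_mul_of_nonneg_left hT hε.le
    linarith
  have hη2 : ((LL n : ℝ) / n + 38 * (n + 1) ^ 2 / rq k ^ LL n) * qq k ^ n ≤ ε * (SS f n).card := by
    have h1 := mul_le_mul_of_nonneg_right hE2 hqn.le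
    have h2 := mul_le_mul_of_nonneg_left hT hε.le
    linarith
  set η := ε * ((SS f n).card : ℝ) with hηd
  have a0 : |∑ S ∈ SS f n, ((NN f u S : ℝ) - 3)| ≤ η := by
    have h1 := average hf hu (Or.inl rfl) hLL hLn
    simp only [pow_zero, mul_one] at h1
    exact h1.trans hη
  have a1 : |∑ S ∈ SS f n, ((NN f u S : ℝ) - 3) * chi f S| ≤ η := by
    have h1 := average hf hu (Or.inr rfl) hLL hLn
    simp only [pow_one] at h1
    exact h1.trans hη
  have b1 := class_sum hf hu a0 a1 (s := 1) (Or.inl rfl)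
  have b2 := class_sum hf hu a0 a1 (s := -1) (Or.inr rfl)
  -- the sets
  have sE : ((FamEven f n).ncard : ℝ) = (Sg f n 1).card := by
    rw [even_set hf]
    exact ncard_eq hf n fun S => chi f S = 1
  have sO : ((FamOdd f n).ncard : ℝ) = (Sg f n (-1)).card := by
    rw [odd_set hf]
    exact ncard_eq hf n fun S => chi f S = -1
  have hle : ∀ D ∈ Fam f n, (sel K f u D : ℝ) ≤ NN f u (primes D) := fun D hD => by
    exact_mod_cast (sel_le (K := K) hf hu hD).2.2
  have hle1 : ∀ D ∈ Fam f n, (1 : ℝ) ≤ sel K f u D := fun D hD => by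
    exact_mod_cast (sel_le (K := K) hf hu hD).2.1
  have hsub : ∀ {A B : Set k[X]}, A ⊆ B → B ⊆ Fam f n → (A.ncard : ℝ) ≤ B.ncard := by
    intro A B h1 h2
    exact_mod_cast Set.ncard_le_ncard h1 ((Fam_finite n).subset h2)
  have cP : ((Sg f n 1).card - η) / 3 ≤ (({D | D ∈ Fam f n ∧ Triv K f u D} : Set k[X]).ncard : ℝ) := by
    refine (prop_plus hf hu b1).trans ?_
    rw [← ncard_eq hf n fun S => NN f u S ≤ 1]
    exact hsub (fun D hD => ⟨hD.1, triv_of (K := K) hf hu hD.1 hD.2⟩) fun D hD => hD.1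
  have cM : (5 * (Sg f n (-1)).card - η) / 6 ≤
      (({D | D ∈ FamOdd f n ∧ sel K f u D ≤ 2} : Set k[X]).ncard : ℝ) := by
    refine (prop_minus hf hu b2).trans ?_
    rw [← ncard_eq hf n fun S => chi f S = -1 ∧ NN f u S ≤ 2]
    refine hsub (fun D hD => ?_) fun D hD => hD.1.1
    refine ⟨?_, ?_⟩
    · rw [odd_set hf]
      exact ⟨hD.1, hD.2.1⟩
    · have := (sel_le (K := K) hf hu hD.1).2.2
      have h5 := hD.2.2
      omega
  have hη0 : 0 ≤ η := by positivity
  refine ⟨⟨?_, ?_, ?_, ?_⟩, ⟨?_, ?_⟩, fun h3 => ?_, fun hsq => ?_⟩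
  · rw [finsum_eq hf n, hcard]
    have h1 : ∑ D ∈ US (dsc f) n, (sel K f u D : ℝ) ≤ ∑ D ∈ US (dsc f) n, (NN f u (primes D) : ℝ) :=
      Finset.sum_le_sum fun D hD => hle D (mem_Fam.2 hD)
    rw [← sum_SS hf n fun S => (NN f u S : ℝ)] at h1
    have h2 := (abs_le.1 a0).2
    rw [Finset.sum_sub_distrib, Finset.sum_const, nsmul_eq_mul] at h2
    linarith
  · rw [even_set hf, finsum_eq' hf n (fun S => chi f S = 1), hcard, ncard_eq hf n fun S => chi f S = 1]
    have h1 : ∑ D ∈ (US (dsc f) n).filter (fun D => chi f (primes D) = 1), (sel K f u D : ℝ) ≤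
        ∑ D ∈ (US (dsc f) n).filter (fun D => chi f (primes D) = 1), (NN f u (primes D) : ℝ) :=
      Finset.sum_le_sum fun D hD => hle D (mem_Fam.2 (Finset.mem_filter.1 hD).1)
    rw [Finset.sum_filter (fun D => chi f (primes D) = 1) fun D => (NN f u (primes D) : ℝ),
      ← sum_SS hf n fun S => if chi f S = 1 then (NN f u S : ℝ) else 0, ← Finset.sum_filter] at h1
    have h2 := (abs_le.1 b1).2
    rw [Finset.sum_sub_distrib, Finset.sum_const, nsmul_eq_mul] at h2
    unfold Sg at h2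
    linarith
  · rw [odd_set hf, finsum_eq' hf n (fun S => chi f S = -1), hcard, ncard_eq hf n fun S => chi f S = -1]
    have h1 : ∑ D ∈ (US (dsc f) n).filter (fun D => chi f (primes D) = -1), (sel K f u D : ℝ) ≤
        ∑ D ∈ (US (dsc f) n).filter (fun D => chi f (primes D) = -1), (NN f u (primes D) : ℝ) :=
      Finset.sum_le_sum fun D hD => hle D (mem_Fam.2 (Finset.mem_filter.1 hD).1)
    rw [Finset.sum_filter (fun D => chi f (primes D) = -1) fun D => (NN f u (primes D) : ℝ),
      ← sum_SS hf n fun S => if chi f S = -1 then (NN f u S : ℝ) else 0, ← Finset.sum_filter] at h1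
    have h2 := (abs_le.1 b2).2
    rw [Finset.sum_sub_distrib, Finset.sum_const, nsmul_eq_mul] at h2
    unfold Sg at h2
    linarith
  · rw [finsum_eq hf n, hcard]
    have h1 : ∑ D ∈ US (dsc f) n, Real.logb 2 (sel K f u D) ≤
        ∑ D ∈ US (dsc f) n, Real.logb 2 (NN f u (primes D)) := by
      refine Finset.sum_le_sum fun D hD => ?_
      have h5 := hle D (mem_Fam.2 hD)
      have h6 := hle1 D (mem_Fam.2 hD)
      exact Real.logb_le_logb_of_le (by norm_num) (by linarith) h5
    rw [← sum_SS hf n fun S => Real.logb 2 (NN f u S)] at h1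
    have h2 := log_sum hf hu b1 b2
    linarith
  · rw [sE, hcard]
    linarith
  · rw [sO, hcard]
    linarith
  · have hx := (sum_chi hf (nsq_dlt hf h3) (L := LL n) (n := n) (by omega)).trans hη2
    have d1 := card_Sg hx (s := 1) (Or.inl rfl)
    have d2 := card_Sg hx (s := -1) (Or.inr rfl)
    have d3 : ((Sg f n 1).card : ℝ) + (Sg f n (-1)).card = (SS f n).card := by
      have e1 : SS f n = Sg f n 1 ∪ Sg f n (-1) := by
        ext S
        unfold Sg
        rw [Finset.mem_union, Finset.mem_filter, Finset.mem_filter]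
        constructor
        · intro h
          rcases chi_pm (f := f) S with h' | h'
          · exact Or.inl ⟨h, h'⟩
          · exact Or.inr ⟨h, h'⟩
        · rintro (h | h)
          · exact h.1
          · exact h.1
      have e2 : Disjoint (Sg f n 1) (Sg f n (-1)) := by
        rw [Finset.disjoint_left]
        intro S h3 h4
        have h5 := (Finset.mem_filter.1 h3).2
        have h6 := (Finset.mem_filter.1 h4).2
        rw [h5] at h6
        norm_num at h6
      rw [e1, Finset.card_union_of_disjoint e2]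
      push_cast
      rfl
    refine ⟨?_, ?_, ?_⟩
    · rw [sE, hcard, abs_le]
      constructor <;> linarith
    · rw [hcard]
      linarith
    · rw [hcard]
      -- the even members with trivial groups, and the odd members with few elements
      have g1 : ((Sg f n 1).card - η) / 3 ≤
          (({D | D ∈ Fam f n ∧ (chi f (primes D) = 1 ∧ NN f u (primes D) ≤ 1)} : Set k[X]).ncard : ℝ) := by
        refine (prop_plus hf hu b1).trans ?_
        rw [ncard_eq hf n fun S => chi f S = 1 ∧ NN f u S ≤ 1]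
        have : (SS f n).filter (fun S => NN f u S ≤ 1) =
            (SS f n).filter fun S => chi f S = 1 ∧ NN f u S ≤ 1 := by
          refine Finset.filter_congr fun S hS => ?_
          constructor
          · intro h
            refine ⟨?_, h⟩
            rcases chi_pm (f := f) S with h' | h'
            · exact h'
            · exfalso
              rcases num_minus hf hu (mem_SS.1 hS).1 h' with h5 | h5 <;>
                (unfold NN at h; omega)
          · intro h
            exact h.2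
        rw [this]
      have g2 := prop_minus hf hu b2
      rw [← ncard_eq hf n fun S => chi f S = -1 ∧ NN f u S ≤ 2] at g2
      set A : Set k[X] := {D | D ∈ Fam f n ∧ (chi f (primes D) = 1 ∧ NN f u (primes D) ≤ 1)} with hA
      set B : Set k[X] := {D | D ∈ Fam f n ∧ (chi f (primes D) = -1 ∧ NN f u (primes D) ≤ 2)} with hB
      have hAf : A.Finite := (Fam_finite n).subset fun D hD => hD.1
      have hBf : B.Finite := (Fam_finite n).subset fun D hD => hD.1
      have hdis : Disjoint A B := by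
        rw [Set.disjoint_left]
        intro D h4 h5
        have h6 := h4.2.1
        have h7 := h5.2.1
        rw [h6] at h7
        norm_num at h7
      have h5 : ((A ∪ B).ncard : ℝ) = A.ncard + B.ncard := by
        exact_mod_cast Set.ncard_union_eq hdis hAf hBf
      have h6 : ((A ∪ B).ncard : ℝ) ≤ ({D | D ∈ Fam f n ∧ sel K f u D ≤ 2} : Set k[X]).ncard := by
        refine hsub (fun D hD => ?_) fun D hD => hD.1
        rcases hD with hD | hD
        · refine ⟨hD.1, ?_⟩
          have := (sel_le (K := K) hf hu hD.1).2.2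
          have h5 := hD.2.2
          omega
        · refine ⟨hD.1, ?_⟩
          have := (sel_le (K := K) hf hu hD.1).2.2
          have h5 := hD.2.2
          omega
      linarith
  · rw [hcard]
    have h1 : Sg f n 1 = SS f n := Finset.filter_true_of_mem fun S hS =>
      chi_one_of_sq hf hsq (mem_SS.1 hS).1
    rw [h1] at cP
    linarith

/-- The mean values and the proportions. -/
theorem averages (ε : ℝ) (hε : 0 < ε) : ∃ n0 : ℕ, ∀ (k K : Type) [Field k] [Fintype k] [Field K]
    [Algebra k[X] K] [IsFractionRing k[X] K] (f : k[X]) (u : k), Cub f → u ≠ 0 →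
    ∀ n, n0 ≤ n →
      (∑ᶠ D ∈ Fam f n, (sel K f u D : ℝ) ≤ (3 + ε) * (Fam f n).ncard ∧
        ∑ᶠ D ∈ FamEven f n, (sel K f u D : ℝ) ≤ 3 * (FamEven f n).ncard + ε * (Fam f n).ncard ∧
        ∑ᶠ D ∈ FamOdd f n, (sel K f u D : ℝ) ≤ 3 * (FamOdd f n).ncard + ε * (Fam f n).ncard) ∧
      (1 / 3 * (FamEven f n).ncard - ε * (Fam f n).ncard ≤
          ({D | D ∈ Fam f n ∧ Triv K f u D} : Set k[X]).ncard ∧
        5 / 6 * (FamOdd f n).ncard - ε * (Fam f n).ncard ≤
          ({D | D ∈ FamOdd f n ∧ sel K f u D ≤ 2} : Set k[X]).ncard) ∧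
      (f.coeff 2 ^ 2 ≠ 3 * f.coeff 1 →
        |((FamEven f n).ncard : ℝ) - 1 / 2 * (Fam f n).ncard| ≤ ε * (Fam f n).ncard ∧
        (1 / 6 - ε) * (Fam f n).ncard ≤ ({D | D ∈ Fam f n ∧ Triv K f u D} : Set k[X]).ncard ∧
        (7 / 12 - ε) * (Fam f n).ncard ≤
          ({D | D ∈ Fam f n ∧ sel K f u D ≤ 2} : Set k[X]).ncard) ∧
      ((∃ g, dlt f = g ^ 2) →
        (1 / 3 - ε) * (Fam f n).ncard ≤ ({D | D ∈ Fam f n ∧ Triv K f u D} : Set k[X]).ncard) := by
  obtain ⟨n0, h0⟩ := averages_aux ε hε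
  refine ⟨n0, fun k K _ _ _ _ _ f u hf hu n hn => ?_⟩
  obtain ⟨⟨h1, h2, h3, -⟩, h5⟩ := h0 k K f u hf hu n hn
  exact ⟨⟨h1, h2, h3⟩, h5⟩

/-- The mean value of the logarithm. -/
theorem log_average (ε : ℝ) (hε : 0 < ε) : ∃ n0 : ℕ, ∀ (k K : Type) [Field k] [Fintype k]
    [Field K] [Algebra k[X] K] [IsFractionRing k[X] K] (f : k[X]) (u : k), Cub f → u ≠ 0 →
    ∀ n, n0 ≤ n →
      ∑ᶠ D ∈ Fam f n, Real.logb 2 (sel K f u D) ≤ (4 / 3 + ε) * (Fam f n).ncard := by
  obtain ⟨n0, h0⟩ := averages_aux ε hε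
  exact ⟨n0, fun k K _ _ _ _ _ f u hf hu n hn => (h0 k K f u hf hu n hn).1.2.2.2⟩

end Pool.Agent.H4.AV
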