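import Pool.Agent.H4.AV.KK

/-!
# The primes of degree one over the primes of a given degree
-/

set_option autoImplicit false
set_option linter.all false

open Polynomial
open scoped Classical

namespace Pool.Agent.H4.AV

open Pool.Agent.H341R2.Sharp (lam)
open Pool.Agent.Y164.PS (lam_mem lam_eq_zero_iff lam_mul_left lam_irr Pr mem_Pr card_Pr_le card_Pr_ge
  abs_lam_le char_sum)
open Pool.Agent.X261.TD (ones)
open Pool.Agent.TH943.HJ (primes mem_primes)
open Pool.Agent.H4.SA

section gen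

variable {k : Type} [Field k]

theorem sum_deg_primes {g : k[X]} (hg : g ≠ 0) : ∑ R ∈ primes g, R.natDegree ≤ g.natDegree := by
  have h1 : (∏ R ∈ primes g, R) ∣ g := by
    apply Finset.prod_dvd_of_coprime
    · intro R hR S hS hn
      have hR1 := (mem_primes hg R).1 hR
      have hS1 := (mem_primes hg S).1 hS
      exact Pool.Agent.X261.TD.coprime_of_ne ⟨hR1.1, hR1.2.1⟩ ⟨hS1.1, hS1.2.1⟩ hn
    · intro R hR
      exact ((mem_primes hg R).1 hR).2.2
  have h2 := natDegree_le_of_dvd h1 hg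
  rwa [natDegree_prod_of_monic _ _ (fun R hR => ((mem_primes hg R).1 hR).1)] at h2

theorem card_primes_le {g : k[X]} (hg : g ≠ 0) : (primes g).card ≤ g.natDegree := by
  refine le_trans ?_ (sum_deg_primes hg)
  rw [Finset.card_eq_sum_ones]
  exact Finset.sum_le_sum fun R hR => ((mem_primes hg R).1 hR).2.1.natDegree_pos

theorem card_over_le {f P : k[X]} (hd : f.natDegree = 3) (mP : P.Monic) (iP : Irreducible P) :
    (primes (P.comp f)).card ≤ 3 := by
  have hg := Pool.Agent.X261.TD.comp_ne (f := f) hd iP.ne_zero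
  have h1 := Pool.Agent.X261.TD.sum_degree (f := f) hd iP.ne_zero
  have h2 : (primes (P.comp f)).card * P.natDegree ≤ ∑ R ∈ primes (P.comp f), R.natDegree := by
    rw [← smul_eq_mul]
    refine Finset.card_nsmul_le_sum _ _ _ fun R hR => ?_
    obtain ⟨-, h3, h4⟩ := (mem_primes hg R).1 hR
    exact Nat.le_of_dvd h3.natDegree_pos (Pool.Agent.X261.TD.degree_dvd mP iP h3 h4)
  exact Nat.le_of_mul_le_mul_right (h2.trans h1) iP.natDegree_pos

/-- A prime of `k[x]` lies over a prime of `k[t]`. -/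
theorem exists_below (f : k[X]) (hd : f.natDegree = 3) {R : k[X]} (iR : Irreducible R) :
    ∃ P : k[X], P.Monic ∧ Irreducible P ∧ R ∣ P.comp f := by
  haveI : Fact (Irreducible R) := ⟨iR⟩
  haveI : Module.Finite k (AdjoinRoot R) := (AdjoinRoot.powerBasis iR.ne_zero).finite
  set y : AdjoinRoot R := AdjoinRoot.mk R f with hy
  have hint : IsIntegral k y := Algebra.IsIntegral.isIntegral y
  refine ⟨minpoly k y, minpoly.monic hint, minpoly.irreducible hint, ?_⟩
  rw [← AdjoinRoot.mk_eq_zero, ← AdjoinRoot.aeval_eq, aeval_comp, AdjoinRoot.aeval_eq, ← hy]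
  exact minpoly.aeval k y

end gen

section fin

variable {k : Type} [Field k] [Fintype k] {f : k[X]} {u : k}

/-- The number of elements of `k`. -/
noncomputable def qq (k : Type) [Fintype k] : ℝ := Fintype.card k

/-- The square root of the number of elements of `k`. -/
noncomputable def rq (k : Type) [Fintype k] : ℝ := Real.sqrt (Fintype.card k)

theorem qq_ge (h2 : (2 : k) ≠ 0) : 3 ≤ qq k := by
  have h3 : 3 ≤ Fintype.card k := by
    by_contra h
    have h1 : 1 < Fintype.card k := Fintype.one_lt_card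
    have h4 : Fintype.card k = 2 := by omega
    have h5 : ((Fintype.card k : ℕ) : k) = 0 := FiniteField.cast_card_eq_zero k
    rw [h4] at h5
    exact h2 (by exact_mod_cast h5)
  unfold qq
  exact_mod_cast h3

theorem rq_sq : rq k * rq k = qq k := Real.mul_self_sqrt (Nat.cast_nonneg _)

theorem rq_nonneg : 0 ≤ rq k := Real.sqrt_nonneg _

theorem rq_ge (h2 : (2 : k) ≠ 0) : 17 / 10 ≤ rq k := by
  have h := qq_ge h2
  unfold rq
  apply Real.le_sqrt_of_sq_le
  have : (qq k) = (Fintype.card k : ℝ) := rfl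
  rw [← this]
  linarith

theorem rq_one (h2 : (2 : k) ≠ 0) : 1 ≤ rq k := by
  have := rq_ge h2
  linarith

theorem rq_pow_one (h2 : (2 : k) ≠ 0) (d : ℕ) : 1 ≤ rq k ^ d := one_le_pow₀ (rq_one h2)

theorem rq_pow_sq (d : ℕ) : rq k ^ d * rq k ^ d = qq k ^ d := by
  rw [← mul_pow, rq_sq]

/-- The number of the primes of degree at most `d / 2`. -/
theorem card_small (h2 : (2 : k) ≠ 0) (d : ℕ) :
    (((Finset.Icc 1 (d / 2)).biUnion (Pr k)).card : ℝ) ≤ 2 * rq k ^ d := by
  have hq := qq_ge h2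
  have h1 : (((Finset.Icc 1 (d / 2)).biUnion (Pr k)).card : ℝ) ≤ ∑ e ∈ Finset.Icc 1 (d / 2), qq k ^ e := by
    have h0 : (((Finset.Icc 1 (d / 2)).biUnion (Pr k)).card : ℝ) ≤
        ((∑ e ∈ Finset.Icc 1 (d / 2), (Pr k e).card : ℕ) : ℝ) :=
      Nat.cast_le.2 Finset.card_biUnion_le
    refine le_trans h0 ?_
    push_cast
    refine Finset.sum_le_sum fun e he => ?_
    rw [Finset.mem_Icc] at he
    have h3 := card_Pr_le (k := k) (ringChar_ne h2) e he.1
    have h4 : (1 : ℝ) ≤ e := by exact_mod_cast he.1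
    have h5 : (0 : ℝ) ≤ (Pr k e).card := Nat.cast_nonneg _
    have h6 : (Fintype.card k : ℝ) = qq k := rfl
    rw [h6] at h3
    nlinarith
  have h3 : ∀ h : ℕ, ∑ e ∈ Finset.Icc 1 h, qq k ^ e ≤ 2 * qq k ^ h - 2 := by
    intro h
    induction h with
    | zero => simp
    | succ h ih =>
      rw [Finset.sum_Icc_succ_top (by omega), pow_succ]
      have : 1 ≤ qq k ^ h := one_le_pow₀ (by linarith)
      nlinarith
  have h4 : qq k ^ (d / 2) ≤ rq k ^ d := by
    have h5 : rq k ^ (2 * (d / 2)) = qq k ^ (d / 2) := by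
      rw [pow_mul, pow_two, rq_sq]
    rw [← h5]
    exact pow_le_pow_right₀ (rq_one h2) (by omega)
  have h5 := h3 (d / 2)
  linarith

/-- The ramified primes of degree `d`. -/
noncomputable def Bp (f : k[X]) (d : ℕ) : Finset k[X] := (Pr k d).filter fun P => ¬ Gd f P

/-- There are at most two ramified primes. -/
theorem card_Bp (hf : Cub f) (d : ℕ) : (Bp f d).card ≤ 2 := by
  have hdeg : (derivative f).natDegree ≤ 2 := by
    have h := natDegree_derivative_le f
    rw [hf.deg] at h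
    exact h
  refine le_trans ?_ ((card_primes_le hf.der).trans hdeg)
  have h1 : ∀ P ∈ Bp f d, ∃ R, R ∈ primes (derivative f) ∧ R ∣ P.comp f := by
    intro P hP
    unfold Bp at hP
    rw [Finset.mem_filter, mem_Pr] at hP
    obtain ⟨⟨mP, iP, -⟩, hng⟩ := hP
    have hns : ¬ Squarefree (P.comp f) := fun h => hng ⟨mP, iP, h⟩
    have hg := Pool.Agent.X261.TD.comp_ne (f := f) hf.deg iP.ne_zero
    rw [← not_not (a := Squarefree (P.comp f)), not_not, squarefree_iff_irreducible_sq_not_dvd_of_ne_zero hg] at hns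
    push Not at hns
    obtain ⟨R, iR, hR⟩ := hns
    refine ⟨normalize R, ?_, ?_⟩
    · rw [mem_primes hf.der]
      refine ⟨monic_normalize iR.ne_zero, (normalize_associated R).symm.irreducible iR, ?_⟩
      rw [normalize_dvd_iff]
      -- `R` divides the derivative of `P(f)`
      obtain ⟨Z, hZ⟩ := hR
      have h2 : R ∣ derivative (P.comp f) := by
        rw [hZ, mul_assoc, derivative_mul, derivative_mul]
        exact dvd_add ((dvd_mul_right R Z).mul_left _) ((dvd_mul_right R _))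
      rw [derivative_comp] at h2
      rcases iR.prime.dvd_or_dvd h2 with h3 | h3
      · exact h3
      · exfalso
        have hsep : P.Separable := PerfectField.separable_of_irreducible iP
        obtain ⟨a, b, hab⟩ := hsep
        have h4 := congrArg (fun g : k[X] => g.comp f) hab
        simp only [add_comp, mul_comp, one_comp] at h4
        have h5 : R ∣ P.comp f := by
          rw [hZ, mul_assoc]
          exact dvd_mul_right _ _
        exact iR.not_isUnit (isUnit_of_dvd_one (h4 ▸ dvd_add (h5.mul_left _) (h3.mul_left _)))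
    · rw [normalize_dvd_iff]
      obtain ⟨Z, hZ⟩ := hR
      rw [hZ, mul_assoc]
      exact dvd_mul_right _ _
  choose! g hg using h1
  refine Finset.card_le_card_of_injOn g (fun P hP => (hg P hP).1) ?_
  intro P hP P' hP' he
  have h2 := Finset.mem_filter.1 hP
  have h3 := Finset.mem_filter.1 hP'
  rw [mem_Pr] at h2 h3
  have h4 := (hg P hP).2
  have h5 := (hg P' hP').2
  rw [← he] at h5
  have h6 := ((mem_primes hf.der (g P)).1 (hg P hP).1).2.1
  exact Pool.Agent.X261.TD.same_prime ⟨h2.1.1, h2.1.2.1⟩ ⟨h3.1.1, h3.1.2.1⟩ h6 h4 h5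

/-- The type `(1, w)`. -/
def tB (κ : Tri k) : Prop := κ.2.1 = 1 ∧ κ.2.2 ≠ 1

/-- The primes of degree one over the primes of degree `d` which are not in `K`. -/
noncomputable def Rs (f : k[X]) (d : ℕ) (K : Finset (Tri k)) : Finset k[X] :=
  ((fr f d K).filter tB).image fun κ => κ.2.2

theorem tB_one (hf : Cub f) {κ : Tri k} (h : Vd f κ) (hB : tB κ) : One f κ.1 κ.2.2 :=
  ((mem_VV hf h.gd).1 h.w).resolve_left hB.2

theorem mem_Rs (hf : Cub f) {d : ℕ} {K : Finset (Tri k)} {R : k[X]} : R ∈ Rs f d K ↔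
    ∃ P, Gd f P ∧ P.natDegree = d ∧ (∀ κ' ∈ K, κ'.1 ≠ P) ∧ One f P R := by
  unfold Rs
  rw [Finset.mem_image]
  constructor
  · rintro ⟨κ, hκ, rfl⟩
    rw [Finset.mem_filter, mem_fr] at hκ
    exact ⟨κ.1, hκ.1.1.gd, hκ.1.2.1, hκ.1.2.2, tB_one hf hκ.1.1 hκ.2⟩
  · rintro ⟨P, h1, h2, h3, h4⟩
    refine ⟨(P, 1, R), ?_, rfl⟩
    rw [Finset.mem_filter, mem_fr]
    exact ⟨⟨⟨h1, one_mem_VV, (mem_VV hf h1).2 (Or.inr h4)⟩, h2, h3⟩, rfl, h4.ne_one⟩

theorem sum_Rs (hf : Cub f) {M : Type} [AddCommMonoid M] (d : ℕ) (K : Finset (Tri k))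
    (g : k[X] → M) : ∑ κ ∈ (fr f d K).filter tB, g κ.2.2 = ∑ R ∈ Rs f d K, g R := by
  unfold Rs
  rw [Finset.sum_image]
  intro κ hκ κ' hκ' he
  rw [Finset.mem_coe, Finset.mem_filter, mem_fr] at hκ hκ'
  have h1 := tB_one hf hκ.1.1 hκ.2
  have h2 := tB_one hf hκ'.1.1 hκ'.2
  simp only at he
  have h3 : κ.1 = κ'.1 := Pool.Agent.X261.TD.same_prime ⟨h1.mP, h1.iP⟩ ⟨h2.mP, h2.iP⟩ h1.iQ h1.dvd
    (he ▸ h2.dvd)
  exact Prod.ext h3 (Prod.ext (hκ.2.1.trans hκ'.2.1.symm) he)

theorem Rs_sub (hf : Cub f) (d : ℕ) (K : Finset (Tri k)) : Rs f d K ⊆ Pr k d := by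
  intro R hR
  obtain ⟨P, h1, h2, -, h4⟩ := (mem_Rs hf).1 hR
  exact mem_Pr.2 ⟨h4.mQ, h4.iQ, h4.deg.trans h2⟩

/-- There are few exceptional primes. -/
theorem card_compl (hf : Cub f) {d : ℕ} (hd : 1 ≤ d) (K : Finset (Tri k)) :
    ((Pr k d \ Rs f d K).card : ℝ) ≤ 6 * rq k ^ d + 6 + 3 * K.card := by
  set B : Finset k[X] := (Finset.Icc 1 (d / 2)).biUnion (Pr k) ∪ Bp f d ∪
    ((K.filter fun κ => Gd f κ.1).image Prod.fst) with hB
  have hBm : ∀ P ∈ B, P.Monic ∧ Irreducible P := by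
    intro P hP
    rw [hB, Finset.mem_union, Finset.mem_union] at hP
    rcases hP with (hP | hP) | hP
    · obtain ⟨e, -, he⟩ := Finset.mem_biUnion.1 hP
      rw [mem_Pr] at he
      exact ⟨he.1, he.2.1⟩
    · have h := Finset.mem_filter.1 hP
      rw [mem_Pr] at h
      exact ⟨h.1.1, h.1.2.1⟩
    · obtain ⟨κ, hκ, rfl⟩ := Finset.mem_image.1 hP
      have := (Finset.mem_filter.1 hκ).2
      exact ⟨this.mP, this.iP⟩
  have h1 : Pr k d \ Rs f d K ⊆ B.biUnion fun P => primes (P.comp f) := by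
    intro R hR
    rw [Finset.mem_sdiff, mem_Pr] at hR
    obtain ⟨⟨mR, iR, dR⟩, hR2⟩ := hR
    obtain ⟨P, mP, iP, hP⟩ := exists_below f hf.deg iR
    rw [Finset.mem_biUnion]
    have hg := Pool.Agent.X261.TD.comp_ne (f := f) hf.deg iP.ne_zero
    refine ⟨P, ?_, (mem_primes hg R).2 ⟨mR, iR, hP⟩⟩
    obtain ⟨c, hc⟩ := Pool.Agent.X261.TD.degree_dvd mP iP iR hP
    rw [dR] at hc
    rw [hB, Finset.mem_union, Finset.mem_union]
    by_cases hc1 : c = 1
    · rw [hc1, mul_one] at hc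
      by_cases hg' : Gd f P
      · right
        by_contra hK
        apply hR2
        refine (mem_Rs hf).2 ⟨P, hg', hc.symm, fun κ' h' he => ?_, ⟨mP, iP, mR, iR, hP, by rw [dR, hc]⟩⟩
        apply hK
        exact Finset.mem_image.2 ⟨κ', Finset.mem_filter.2 ⟨h', he ▸ hg'⟩, he⟩
      · left; right
        exact Finset.mem_filter.2 ⟨mem_Pr.2 ⟨mP, iP, hc.symm⟩, hg'⟩
    · left; left
      rw [Finset.mem_biUnion]
      refine ⟨P.natDegree, ?_, mem_Pr.2 ⟨mP, iP, rfl⟩⟩
      rw [Finset.mem_Icc]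
      refine ⟨iP.natDegree_pos, ?_⟩
      rw [Nat.le_div_iff_mul_le (by norm_num)]
      have h2 : 2 ≤ c := by
        rcases Nat.lt_or_ge c 2 with h3 | h3
        · have : c = 0 := by omega
          rw [this] at hc
          omega
        · exact h3
      rw [hc]
      exact Nat.mul_le_mul_left _ h2
  have h2 : (Pr k d \ Rs f d K).card ≤ 3 * B.card := by
    refine (Finset.card_le_card h1).trans (Finset.card_biUnion_le.trans ?_)
    rw [mul_comm, ← smul_eq_mul]
    exact Finset.sum_le_card_nsmul _ _ _ fun P hP => card_over_le hf.deg (hBm P hP).1 (hBm P hP).2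
  have h3 : B.card ≤ ((Finset.Icc 1 (d / 2)).biUnion (Pr k)).card + 2 + K.card := by
    rw [hB]
    refine (Finset.card_union_le _ _).trans ?_
    refine Nat.add_le_add ((Finset.card_union_le _ _).trans (Nat.add_le_add_left (card_Bp hf d) _)) ?_
    exact Finset.card_image_le.trans (Finset.card_filter_le _ _)
  have h4 := card_small hf.two d
  have h5 : ((Pr k d \ Rs f d K).card : ℝ) ≤ 3 * (((Finset.Icc 1 (d / 2)).biUnion (Pr k)).card + 2 + K.card) := by
    exact_mod_cast h2.trans (Nat.mul_le_mul_left 3 h3)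
  linarith

end fin

end Pool.Agent.H4.AV
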