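import Pool.Agent.H4.AV.Dec

/-!
# The total
-/

set_option autoImplicit false
set_option linter.all false

open Polynomial
open scoped Classical

namespace Pool.Agent.H4.AV

open Pool.Agent.H341R2.Sharp (lam)
open Pool.Agent.Y164.PS (lam_mem lam_eq_zero_iff lam_mul_left lam_irr Pr mem_Pr card_Pr_le card_Pr_ge
  abs_lam_le char_sum lam_one_left)
open Pool.Agent.X261.TD (ones)
open Pool.Agent.TH943.HJ (primes mem_primes)
open Pool.Agent.H4.SA

section fin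

variable {k : Type} [Field k] [Fintype k] {f : k[X]} {u : k}

/-- The large primes have two different nontrivial colours. -/
def A2 (L : ℕ) (κ : Tri k) : Prop := L < κ.1.natDegree → tX κ

/-- The large primes have trivial colours. -/
def A3 (L : ℕ) (κ : Tri k) : Prop := L < κ.1.natDegree → t0 κ

/-- The sign of a set of primes. -/
noncomputable def chi (f : k[X]) (S : Finset k[X]) : ℝ := ∏ P ∈ S, psi f P

theorem sum_ite_KA (A : Tri k → Prop) (n : ℕ) :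
    ∑ K ∈ KK f n, (if ∀ κ ∈ K, A κ then wK f K else 0) = mass f A n := by
  unfold mass KA
  rw [Finset.sum_filter]

omit [Fintype k] in
theorem cn_zero {τ : Tri k → Prop} {L : ℕ} {K : Finset (Tri k)} (h : cn τ L K = 0) {κ : Tri k}
    (hκ : κ ∈ K) (hL : L < κ.1.natDegree) : ¬ τ κ := by
  intro hτ
  unfold cn at h
  rw [Nat.cast_eq_zero, Finset.card_eq_zero] at h
  have : κ ∈ (∅ : Finset (Tri k)) := by
    rw [← h]
    exact Finset.mem_filter.2 ⟨hκ, hL, hτ⟩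
  exact absurd this (Finset.notMem_empty _)

omit [Fintype k] in
theorem EE_zero {L : ℕ} {K : Finset (Tri k)} (h : EE L K = 0) {κ : Tri k}
    (hκ : κ ∈ K) (hL : L < κ.1.natDegree) : ¬ tA κ ∧ ¬ tB κ ∧ ¬ tC κ := by
  have h1 := cn_nonneg tA L K
  have h2 := cn_nonneg tB L K
  have h3 := cn_nonneg tC L K
  unfold EE at h
  exact ⟨cn_zero (by linarith) hκ hL, cn_zero (by linarith) hκ hL, cn_zero (by linarith) hκ hL⟩

omit [Fintype k] in
theorem types (κ : Tri k) : t0 κ ∨ tA κ ∨ tB κ ∨ tC κ ∨ tX κ := by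
  unfold t0 tA tB tC tX
  by_cases h1 : κ.2.1 = 1
  · by_cases h2 : κ.2.2 = 1
    · exact Or.inl ⟨h1, h2⟩
    · exact Or.inr (Or.inr (Or.inl ⟨h1, h2⟩))
  · by_cases h2 : κ.2.2 = 1
    · exact Or.inr (Or.inl ⟨h1, h2⟩)
    · by_cases h3 : κ.2.1 = κ.2.2
      · exact Or.inr (Or.inr (Or.inr (Or.inl ⟨h1, h3⟩)))
      · exact Or.inr (Or.inr (Or.inr (Or.inr ⟨h1, h2, h3⟩)))

omit [Fintype k] in
theorem Mn_noX {K : Finset (Tri k)} (h : Mn K) : ¬ ∃ κ ∈ K, tX κ := by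
  rintro ⟨κ, hκ, h1, h2, h3⟩
  rcases h with h | h | h
  · exact h2 (h κ hκ)
  · exact h1 (h κ hκ)
  · exact h3 (h κ hκ)

theorem pointwise (hf : Cub f) (hu : u ≠ 0) (e L : ℕ) {K : Finset (Tri k)} (hc : Col f K) :
    |FF f u e K - ((if Mn K then FF f u e K else 0) +
      (if ¬ Mn K ∧ 0 < EE L K then FF f u e K else 0) + G2 f u e L K * cn t0 L K)| ≤
      (if ∀ κ ∈ K, A2 L κ then wK f K else 0) + (if ∀ κ ∈ K, A3 L κ then wK f K else 0) := by
  have hw := wK_nonneg (f := f) K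
  have hp : 0 ≤ (if ∀ κ ∈ K, A2 L κ then wK f K else 0) + (if ∀ κ ∈ K, A3 L κ then wK f K else 0) := by
    have h1 : 0 ≤ (if ∀ κ ∈ K, A2 L κ then wK f K else 0) := by split_ifs <;> linarith
    have h2 : 0 ≤ (if ∀ κ ∈ K, A3 L κ then wK f K else 0) := by split_ifs <;> linarith
    linarith
  have hG : G2 f u e L K * cn t0 L K =
      if (∃ κ ∈ K, tX κ) ∧ EE L K = 0 ∧ 0 < cn t0 L K then FF f u e K else 0 := by
    unfold G2
    split_ifs with h
    · exact div_mul_cancel₀ _ h.2.2.ne'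
    · rw [zero_mul]
  rw [hG]
  by_cases hM : Mn K
  · rw [if_pos hM, if_neg (fun h => h.1 hM), if_neg (fun h => Mn_noX hM h.1)]
    simpa using hp
  · rw [if_neg hM]
    by_cases hE : 0 < EE L K
    · rw [if_pos ⟨hM, hE⟩, if_neg (fun h => hE.ne' h.2.1)]
      simpa using hp
    · have hE0 : EE L K = 0 := le_antisymm (not_lt.1 hE) (EE_nonneg L K)
      rw [if_neg (fun h => hE h.2)]
      by_cases hX : ∃ κ ∈ K, tX κ
      · by_cases hz : 0 < cn t0 L K
        · rw [if_pos ⟨hX, hE0, hz⟩]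
          simpa using hp
        · have hz0 : cn t0 L K = 0 := le_antisymm (not_lt.1 hz) (cn_nonneg _ _ _)
          rw [if_neg (fun h => hz h.2.2), add_zero, add_zero, sub_zero, abs_FF hf hu e hc,
            if_pos (c := ∀ κ ∈ K, A2 L κ)]
          · have h2 : 0 ≤ (if ∀ κ ∈ K, A3 L κ then wK f K else 0) := by split_ifs <;> linarith
            linarith
          · intro κ hκ hL
            obtain ⟨h1, h2, h3⟩ := EE_zero hE0 hκ hL
            have h4 := cn_zero hz0 hκ hL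
            have := types κ
            tauto
      · rw [if_neg (fun h => hX h.1), add_zero, add_zero, sub_zero, abs_FF hf hu e hc,
          if_pos (c := ∀ κ ∈ K, A3 L κ)]
        · have h2 : 0 ≤ (if ∀ κ ∈ K, A2 L κ then wK f K else 0) := by split_ifs <;> linarith
          linarith
        · intro κ hκ hL
          obtain ⟨h1, h2, h3⟩ := EE_zero hE0 hκ hL
          have h4 : ¬ tX κ := fun h => hX ⟨κ, hκ, h⟩
          have := types κ
          tauto

omit [Fintype k] in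
theorem Mn_ite (x : ℝ) (K : Finset (Tri k)) : (if Mn K then x else 0) =
    (if ∀ κ ∈ K, κ.2.2 = 1 then x else 0) + (if ∀ κ ∈ K, κ.2.1 = 1 then x else 0) +
      (if ∀ κ ∈ K, κ.2.1 = κ.2.2 then x else 0) - 2 * (if ∀ κ ∈ K, t0 κ then x else 0) := by
  by_cases h1 : ∀ κ ∈ K, κ.2.2 = 1 <;> by_cases h2 : ∀ κ ∈ K, κ.2.1 = 1 <;>
    by_cases h3 : ∀ κ ∈ K, κ.2.1 = κ.2.2
  · have h0 : ∀ κ ∈ K, t0 κ := fun κ hκ => ⟨h2 κ hκ, h1 κ hκ⟩
    rw [if_pos h1, if_pos h2, if_pos h3, if_pos h0, if_pos (c := Mn K) (Or.inl h1)]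
    ring
  · exact absurd (fun κ hκ => (h2 κ hκ).trans (h1 κ hκ).symm) h3
  · exact absurd (fun κ hκ => (h3 κ hκ).trans (h1 κ hκ)) h2
  · have h0 : ¬ ∀ κ ∈ K, t0 κ := fun h => h2 fun κ hκ => (h κ hκ).1
    rw [if_pos h1, if_neg h2, if_neg h3, if_neg h0, if_pos (c := Mn K) (Or.inl h1)]
    ring
  · exact absurd (fun κ hκ => (h3 κ hκ).symm.trans (h2 κ hκ)) h1
  · have h0 : ¬ ∀ κ ∈ K, t0 κ := fun h => h1 fun κ hκ => (h κ hκ).2
    rw [if_neg h1, if_pos h2, if_neg h3, if_neg h0, if_pos (c := Mn K) (Or.inr (Or.inl h2))]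
    ring
  · have h0 : ¬ ∀ κ ∈ K, t0 κ := fun h => h1 fun κ hκ => (h κ hκ).2
    rw [if_neg h1, if_neg h2, if_pos h3, if_neg h0, if_pos (c := Mn K) (Or.inr (Or.inr h3))]
    ring
  · have h0 : ¬ ∀ κ ∈ K, t0 κ := fun h => h1 fun κ hκ => (h κ hκ).2
    rw [if_neg h1, if_neg h2, if_neg h3, if_neg h0, if_neg]
    · ring
    · rintro (h | h | h)
      · exact h1 h
      · exact h2 h
      · exact h3 h

/-- The main term. -/
theorem sum_main (hf : Cub f) (e n : ℕ) :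
    ∑ K ∈ KK f n, (if ∀ κ ∈ K, κ.2.2 = 1 then FF f u e K else 0) =
      ∑ S ∈ SS f n, chi f S ^ e := by
  rw [sum_KK]
  refine Finset.sum_congr rfl fun S hS => ?_
  have hS' := (mem_SS.1 hS).1
  have e1 : ∀ K ∈ col S (VW f), (if ∀ κ ∈ K, κ.2.2 = 1 then FF f u e K else 0) =
      ∏ κ ∈ K, (if κ.2.2 = 1 then hw f e κ.1 else 0) := by
    intro K _
    rw [Finset.prod_ite_zero]
    split_ifs with h
    · unfold FF
      rw [sgn_main hf h]
      simp [hK]
    · rfl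
  rw [Finset.sum_congr rfl e1, sum_col_prod]
  unfold chi
  rw [← Finset.prod_pow]
  refine Finset.prod_congr rfl fun P hP => ?_
  unfold VW
  rw [Finset.sum_product]
  have e2 : ∀ v ∈ VV f P, ∑ w ∈ VV f P, (if w = 1 then hw f e P else 0) = hw f e P := by
    intro v _
    rw [Finset.sum_ite_eq' (VV f P) 1 (fun _ => hw f e P), if_pos one_mem_VV]
  show ∑ v ∈ VV f P, ∑ w ∈ VV f P, (if w = 1 then hw f e P else 0) = psi f P ^ e
  rw [Finset.sum_congr rfl e2, Finset.sum_const, nsmul_eq_mul]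
  have h5 : ((VV f P).card : ℝ) ≠ 0 := by
    have : 0 < (VV f P).card := card_VV_pos
    exact_mod_cast this.ne'
  unfold hw
  rw [mul_div_cancel₀ _ h5]

theorem sum_Mn (hf : Cub f) (hu : u ≠ 0) (e L n : ℕ) :
    |∑ K ∈ KK f n, (if Mn K then FF f u e K else 0) - 3 * ∑ S ∈ SS f n, chi f S ^ e| ≤
      2 * mass f (A3 L) n := by
  have hall : ∀ (p : Tri k → Prop) (K : Finset (Tri k)), (∀ κ ∈ rotK f K, p κ) ↔
      ∀ κ ∈ K, p (rot f κ) := by
    intro p K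
    constructor
    · intro h κ hκ
      exact h _ (mem_rotK.2 ⟨κ, hκ, rfl⟩)
    · intro h κ hκ
      obtain ⟨κ', h', rfl⟩ := mem_rotK.1 hκ
      exact h κ' h'
  have eB : ∑ K ∈ KK f n, (if ∀ κ ∈ K, κ.2.1 = 1 then FF f u e K else 0) =
      ∑ K ∈ KK f n, (if ∀ κ ∈ K, κ.2.2 = 1 then FF f u e K else 0) := by
    rw [← sum_rot hf n fun K => if ∀ κ ∈ K, κ.2.1 = 1 then FF f u e K else 0]
    refine Finset.sum_congr rfl fun K hK => ?_
    have hc := (mem_KK.1 hK).1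
    have h1 : (∀ κ ∈ rotK f K, κ.2.1 = 1) ↔ ∀ κ ∈ K, κ.2.2 = 1 := by
      rw [hall fun κ => κ.2.1 = 1]
      exact forall₂_congr fun κ hκ => (rot_types hf (hc.vd κ hκ)).2.2.2.1
    rw [FF_rotK hf e hc]
    by_cases h2 : ∀ κ ∈ K, κ.2.2 = 1
    · rw [if_pos h2, if_pos (h1.2 h2)]
    · rw [if_neg h2, if_neg fun h => h2 (h1.1 h)]
  have eC : ∑ K ∈ KK f n, (if ∀ κ ∈ K, κ.2.1 = κ.2.2 then FF f u e K else 0) =
      ∑ K ∈ KK f n, (if ∀ κ ∈ K, κ.2.2 = 1 then FF f u e K else 0) := by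
    rw [← sum_rot hf n fun K => if ∀ κ ∈ K, κ.2.2 = 1 then FF f u e K else 0]
    refine Finset.sum_congr rfl fun K hK => ?_
    have hc := (mem_KK.1 hK).1
    have h1 : (∀ κ ∈ rotK f K, κ.2.2 = 1) ↔ ∀ κ ∈ K, κ.2.1 = κ.2.2 := by
      rw [hall fun κ => κ.2.2 = 1]
      exact forall₂_congr fun κ hκ => (rot_types hf (hc.vd κ hκ)).2.2.1
    rw [FF_rotK hf e hc]
    by_cases h2 : ∀ κ ∈ K, κ.2.1 = κ.2.2
    · rw [if_pos h2, if_pos (h1.2 h2)]
    · rw [if_neg h2, if_neg fun h => h2 (h1.1 h)]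
  rw [Finset.sum_congr rfl fun K _ => Mn_ite (FF f u e K) K, Finset.sum_sub_distrib,
    Finset.sum_add_distrib, Finset.sum_add_distrib, eB, eC, sum_main hf e n, ← Finset.mul_sum]
  have e3 : ∑ S ∈ SS f n, chi f S ^ e + ∑ S ∈ SS f n, chi f S ^ e + ∑ S ∈ SS f n, chi f S ^ e -
      2 * ∑ K ∈ KK f n, (if ∀ κ ∈ K, t0 κ then FF f u e K else 0) - 3 * ∑ S ∈ SS f n, chi f S ^ e =
      - (2 * ∑ K ∈ KK f n, (if ∀ κ ∈ K, t0 κ then FF f u e K else 0)) := by ring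
  rw [e3, abs_neg, abs_mul, abs_of_pos (by norm_num : (0 : ℝ) < 2)]
  refine mul_le_mul_of_nonneg_left ?_ (by norm_num)
  rw [← sum_ite_KA]
  refine (Finset.abs_sum_le_sum_abs _ _).trans (Finset.sum_le_sum fun K hK => ?_)
  have hc := (mem_KK.1 hK).1
  by_cases h : ∀ κ ∈ K, t0 κ
  · rw [if_pos h, abs_FF hf hu e hc, if_pos (c := ∀ κ ∈ K, A3 L κ) fun κ hκ _ => h κ hκ]
  · rw [if_neg h, abs_zero]
    have := wK_nonneg (f := f) K
    split_ifs <;> linarith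

/-- The sum over the coloured sets. -/
theorem total (hf : Cub f) (hu : u ≠ 0) {e : ℕ} {a b α β : ℝ} (hh : Wt f (hw f e) a b α β)
    (L n : ℕ) : |∑ K ∈ KK f n, FF f u e K - 3 * ∑ S ∈ SS f n, chi f S ^ e| ≤
      (3 * (|α| + |β|) + (1 + |a| + |b|)) * (33 * Real.exp 4 * (n + 1) ^ 6) / rq k ^ L * qq k ^ n +
      mass f (A2 L) n + 3 * mass f (A3 L) n := by
  set T1 := ∑ K ∈ KK f n, (if Mn K then FF f u e K else 0) with hT1
  set T2 := ∑ K ∈ KK f n, (if ¬ Mn K ∧ 0 < EE L K then FF f u e K else 0) with hT2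
  set T3 := ∑ K ∈ KK f n, G2 f u e L K * cn t0 L K with hT3
  have h1 : |∑ K ∈ KK f n, FF f u e K - (T1 + T2 + T3)| ≤ mass f (A2 L) n + mass f (A3 L) n := by
    rw [hT1, hT2, hT3, ← Finset.sum_add_distrib, ← Finset.sum_add_distrib, ← Finset.sum_sub_distrib,
      ← sum_ite_KA, ← sum_ite_KA, ← Finset.sum_add_distrib]
    exact (Finset.abs_sum_le_sum_abs _ _).trans (Finset.sum_le_sum fun K hK =>
      pointwise hf hu e L (mem_KK.1 hK).1)
  have h2 : |T2| ≤ 3 * ((|α| + |β|) * (33 * Real.exp 4 * (n + 1) ^ 6) / rq k ^ L * qq k ^ n) := by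
    rw [hT2, sum_G1 hf e L n, abs_mul, abs_of_pos (by norm_num : (0 : ℝ) < 3)]
    exact mul_le_mul_of_nonneg_left (sumG1_le hf hu hh L n) (by norm_num)
  have h3 : |T3| ≤ (1 + |a| + |b|) * (33 * Real.exp 4 * (n + 1) ^ 6) / rq k ^ L * qq k ^ n :=
    sumG2_le hf hu hh L n
  have h4 : |T1 - 3 * ∑ S ∈ SS f n, chi f S ^ e| ≤ 2 * mass f (A3 L) n := sum_Mn hf hu e L n
  have e1 : ∑ K ∈ KK f n, FF f u e K - 3 * ∑ S ∈ SS f n, chi f S ^ e =
      (∑ K ∈ KK f n, FF f u e K - (T1 + T2 + T3)) + T2 + T3 + (T1 - 3 * ∑ S ∈ SS f n, chi f S ^ e) := by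
    ring
  rw [e1]
  refine (abs_add_le _ _).trans ?_
  refine (add_le_add (abs_add_le _ _) le_rfl).trans ?_
  refine (add_le_add (add_le_add (abs_add_le _ _) le_rfl) le_rfl).trans ?_
  have e2 : (3 * (|α| + |β|) + (1 + |a| + |b|)) * (33 * Real.exp 4 * (n + 1) ^ 6) / rq k ^ L * qq k ^ n =
      3 * ((|α| + |β|) * (33 * Real.exp 4 * (n + 1) ^ 6) / rq k ^ L * qq k ^ n) +
      (1 + |a| + |b|) * (33 * Real.exp 4 * (n + 1) ^ 6) / rq k ^ L * qq k ^ n := by ring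
  rw [e2]
  linarith

/-- The number of the admissible colourings as a weighted sum. -/
theorem sum_Adm (hf : Cub f) (hu : u ≠ 0) (e n : ℕ) :
    ∑ K ∈ KK f n, FF f u e K = ∑ S ∈ SS f n, ((Adm f u S).card : ℝ) * chi f S ^ e := by
  rw [sum_KK]
  refine Finset.sum_congr rfl fun S hS => ?_
  have hS' := (mem_SS.1 hS).1
  have hnum := num_col hf hu hS'
  have hpos : (∏ P ∈ S, ((VV f P).card : ℝ)) ≠ 0 := by
    refine Finset.prod_ne_zero_iff.2 fun P _ => ?_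
    have : 0 < (VV f P).card := card_VV_pos
    exact_mod_cast this.ne'
  have e1 : ∀ K ∈ col S (VW f), FF f u e K =
      (chi f S ^ e / ∏ P ∈ S, ((VV f P).card : ℝ)) * (sgn f u K : ℝ) := by
    intro K hK'
    have hc := col_col hS' hK'
    have e2 : hK f e K = ∏ P ∈ S, hw f e P := by
      have e3 : S = K.image Prod.fst := by
        ext a
        rw [(mem_col.1 hK').2.2, Finset.mem_image]
      unfold hK
      rw [e3, Finset.prod_image fun a ha b hb he => hc.inj a ha b hb he]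
    unfold FF
    rw [e2]
    congr 1
    unfold hw chi
    rw [Finset.prod_div_distrib, ← Finset.prod_pow]
  have e4 : ((Adm f u S).card : ℝ) * ∏ P ∈ S, ((VV f P).card : ℝ) =
      ∑ K ∈ col S (VW f), (sgn f u K : ℝ) := by exact_mod_cast hnum
  rw [Finset.sum_congr rfl e1, ← Finset.mul_sum, ← e4]
  field_simp

end fin

end Pool.Agent.H4.AV
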