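import Pool.Agent.H4.AV.Psum

/-!
# Adding a prime to a coloured set
-/

set_option autoImplicit false
set_option linter.all false

open Polynomial
open scoped Classical

namespace Pool.Agent.H4.AV

open Pool.Agent.H341R2.Sharp (lam)
open Pool.Agent.Y164.PS (lam_mem lam_eq_zero_iff lam_mul_left lam_irr Pr mem_Pr card_Pr_le card_Pr_ge
  abs_lam_le char_sum lam_one_left)
open Pool.Agent.X261.TD (ones)
open Pool.Agent.TH943.HJ (primes mem_primes)
open Pool.Agent.H4.SA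

section fin

variable {k : Type} [Field k] [Fintype k] {f : k[X]} {u : k}

/-- The type `(1, 1)`. -/
def t0 (κ : Tri k) : Prop := κ.2.1 = 1 ∧ κ.2.2 = 1

/-- The sign in the law of reciprocity. -/
noncomputable def epsK (d : ℕ) (K : Finset (Tri k)) : ℤ :=
  ∏ κ ∈ K, (if tX κ then eps k ^ (d * κ.1.natDegree) else 1)

theorem epsK_pm (d : ℕ) (K : Finset (Tri k)) : epsK d K = 1 ∨ epsK d K = -1 := by
  apply mul_self_eq_one_iff.1
  unfold epsK
  rw [← Finset.prod_mul_distrib]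
  refine Finset.prod_eq_one fun κ _ => ?_
  split_ifs
  · rcases eps_pow_cases (k := k) (d * κ.1.natDegree) with h | h <;> rw [h] <;> norm_num
  · norm_num

/-- The factor of a prime in the symbol of a prime of type `(1, 1)`. -/
noncomputable def locP (κ : Tri k) : k[X] := if tX κ then κ.1 else 1

omit [Fintype k] in
theorem locP_comp (κ : Tri k) : (locP κ).comp f = loc0 f κ := by
  unfold locP loc0
  split_ifs
  · rfl
  · exact one_comp

omit [Fintype k] in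
theorem locP_prod_comp (K : Finset (Tri k)) :
    (∏ κ ∈ K, locP κ).comp f = ∏ κ ∈ K, loc0 f κ := by
  rw [Polynomial.prod_comp]
  exact Finset.prod_congr rfl fun κ _ => locP_comp κ

omit [Fintype k] in
theorem locP_ne {κ : Tri k} (h : Vd f κ) : locP κ ≠ 0 := by
  unfold locP
  split_ifs
  · exact h.gd.iP.ne_zero
  · exact one_ne_zero

theorem fac_sg (hf : Cub f) {d : ℕ} {K : Finset (Tri k)} (hK : Col f K) {κ : Tri k}
    (hκ : κ ∈ fr f d K) (h1 : κ.2.1 = 1) {κ' : Tri k} (hκ' : κ' ∈ K) :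
    sg f κ κ' = (if tX κ' then eps k ^ (d * κ'.1.natDegree) * lam κ'.1 κ.1 else 1) := by
  have h2 : (if κ'.2.2 = 1 then (1 : ℤ) else lam (zz f κ.1 κ.2.1) κ'.2.2) = 1 := by
    split_ifs
    · rfl
    · rw [h1, zz_one, lam_one_left]
  have hd := (mem_fr.1 hκ).2.1
  unfold sg sig
  rw [h2, one_mul]
  by_cases h : tX κ'
  · rw [if_pos h, if_pos (show κ'.2.1 ≠ 1 ∧ κ'.2.2 ≠ 1 ∧ κ'.2.1 ≠ κ'.2.2 from h), lam_rec, hd]
  · rw [if_neg h, if_neg (show ¬ (κ'.2.1 ≠ 1 ∧ κ'.2.2 ≠ 1 ∧ κ'.2.1 ≠ κ'.2.2) from h)]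

theorem facB (hf : Cub f) {d : ℕ} {K : Finset (Tri k)} (hK : Col f K) {κ : Tri k}
    (hκ : κ ∈ fr f d K) (hB : tB κ) :
    dg f u κ * ∏ κ' ∈ K, (sg f κ' κ * sg f κ κ') =
      epsK d K * lam (∏ κ' ∈ K, loc f κ') κ.2.2 := by
  obtain ⟨h1, h2, h3⟩ := mem_fr.1 hκ
  have ho := tB_one hf h1 hB
  have e1 : dg f u κ = 1 := by
    unfold dg dgn
    exact if_neg fun h => h.1 hB.1
  rw [e1, one_mul, lam_prod_left K _ (fun κ' h' => loc_ne hf (hK.vd κ' h')), epsK,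
    ← Finset.prod_mul_distrib]
  refine Finset.prod_congr rfl fun κ' h' => ?_
  have hv' := hK.vd κ' h'
  rw [fac_sg hf hK hκ hB.1 h']
  have e2 : sg f κ' κ = lam (zz f κ'.1 κ'.2.1) κ.2.2 := by
    unfold sg sig
    rw [if_neg hB.2, if_neg (fun h => h.1 hB.1), mul_one]
  rw [e2]
  unfold loc
  by_cases hX : tX κ'
  · rw [if_pos hX, if_pos hX, if_pos hX, lam_mul_left (zz_ne_zero hf hv'.gd hv'.v)
      (Pool.Agent.X261.TD.comp_ne (f := f) hf.deg hv'.gd.iP.ne_zero), ho.lam_comp hf.rc κ'.1]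
    ring
  · rw [if_neg hX, if_neg hX, if_neg hX, mul_one, mul_one, one_mul]

theorem fac0 (hf : Cub f) {d : ℕ} {K : Finset (Tri k)} (hK : Col f K) {κ : Tri k}
    (hκ : κ ∈ fr f d K) (h0 : t0 κ) :
    dg f u κ * ∏ κ' ∈ K, (sg f κ' κ * sg f κ κ') =
      epsK d K * lam (∏ κ' ∈ K, locP κ') κ.1 := by
  have e1 : dg f u κ = 1 := by
    unfold dg dgn
    exact if_neg fun h => h.1 h0.1
  rw [e1, one_mul, lam_prod_left K _ (fun κ' h' => locP_ne (hK.vd κ' h')), epsK,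
    ← Finset.prod_mul_distrib]
  refine Finset.prod_congr rfl fun κ' h' => ?_
  rw [fac_sg hf hK hκ h0.1 h']
  have e2 : sg f κ' κ = 1 := by
    unfold sg sig
    rw [if_pos h0.2, if_neg (fun h => h.1 h0.1), mul_one]
  rw [e2, one_mul]
  unfold locP
  split_ifs
  · rfl
  · rw [lam_one_left, one_mul]

/-- The weight of a prime. -/
structure Wt (f : k[X]) (h : k[X] → ℝ) (a b α β : ℝ) : Prop where
  z : ∀ P, Gd f P → h P = 1 - ∑ R ∈ ones f P, (a + b * (lam (dlt f) R : ℝ))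
  o : ∀ P R, Gd f P → One f P R → h P = α + β * (lam (dlt f) R : ℝ)

/-- The sign of a prime. -/
noncomputable def psi (f P : k[X]) : ℝ := if (ones f P).card = 1 then -1 else 1

omit [Fintype k] in
theorem psi_pm (P : k[X]) : psi f P = 1 ∨ psi f P = -1 := by
  unfold psi
  split_ifs
  · exact Or.inr rfl
  · exact Or.inl rfl

/-- The weights of the primes. -/
noncomputable def hw (f : k[X]) (e : ℕ) (P : k[X]) : ℝ := psi f P ^ e / (VV f P).card

theorem psi_of (hf : Cub f) {P R : k[X]} (hP : Gd f P) (h : One f P R) :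
    psi f P = lam (dlt f) R := by
  unfold psi
  rcases card_ones hf hP h with ⟨h1, h2⟩ | ⟨h1, h2⟩
  · rw [h1, if_neg (by rw [h2]; norm_num)]
    norm_num
  · rw [h1, if_pos h2]
    norm_num

/-- The values of the weights. -/
theorem hw_cases (hf : Cub f) {P : k[X]} (hP : Gd f P) :
    ((ones f P = ∅) ∧ psi f P = 1 ∧ (VV f P).card = 1) ∨
    ((∃ R, One f P R ∧ (lam (dlt f) R : ℝ) = -1 ∧ ∀ T, T ∈ ones f P ↔ T = R) ∧ psi f P = -1 ∧
      (VV f P).card = 2) ∨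
    ((ones f P).card = 3 ∧ (∀ R ∈ ones f P, (lam (dlt f) R : ℝ) = 1) ∧ psi f P = 1 ∧
      (VV f P).card = 4) := by
  have hc := card_VV hf hP
  rcases ones_cases hf hP with h0 | ⟨Q, hQ, hl, h0⟩ | ⟨Q1, Q2, Q3, h1, h2, h3, h12, h13, h23, h0⟩
  · left
    refine ⟨h0, ?_, ?_⟩
    · unfold psi
      rw [h0, if_neg (by simp)]
    · rw [hc, h0]
      simp
  · right; left
    have h1 : (ones f P).card = 1 := by
      rw [Finset.card_eq_one]
      refine ⟨Q, ?_⟩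
      ext T
      rw [h0, Finset.mem_singleton]
    refine ⟨⟨Q, hQ, by rw [hl]; norm_num, h0⟩, ?_, ?_⟩
    · unfold psi
      rw [if_pos h1]
    · rw [hc, h1]
  · right; right
    have hl := lam_dlt_of_ne hf hP h1 h2 h12
    have hcard : (ones f P).card = 3 := by
      rcases card_ones hf hP h1 with h4 | h4
      · exact h4.2
      · rw [h4.1] at hl
        norm_num at hl
    refine ⟨hcard, fun R hR => ?_, ?_, ?_⟩
    · have hR' := (mem_ones hf hP.mP hP.iP).1 hR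
      rcases card_ones hf hP hR' with h4 | h4
      · rw [h4.1]
        norm_num
      · rw [hcard] at h4
        norm_num at h4
    · unfold psi
      rw [hcard, if_neg (by norm_num)]
    · rw [hc, hcard]

theorem hw_wt0 (hf : Cub f) : Wt f (hw f 0) (3 / 8) (-1 / 8) (3 / 8) (-1 / 8) := by
  constructor
  · intro P hP
    unfold hw
    rcases hw_cases hf hP with ⟨h0, -, h1⟩ | ⟨⟨R, hR, hl, h0⟩, -, h1⟩ | ⟨h0, hl, -, h1⟩
    · rw [h1, h0]
      simp
    · have h2 : ones f P = {R} := by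
        ext T
        rw [h0, Finset.mem_singleton]
      rw [h1, h2, Finset.sum_singleton, hl]
      norm_num
    · rw [h1, Finset.sum_congr rfl fun R hR => by rw [hl R hR], Finset.sum_const, h0]
      norm_num
  · intro P R hP hR
    unfold hw
    have hR' := (mem_ones hf hP.mP hP.iP).2 hR
    rcases hw_cases hf hP with ⟨h0, -, h1⟩ | ⟨⟨T, hT, hl, h0⟩, -, h1⟩ | ⟨h0, hl, -, h1⟩
    · rw [h0] at hR'
      exact absurd hR' (Finset.notMem_empty _)
    · rw [(h0 R).1 hR', hl, h1]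
      norm_num
    · rw [hl R hR', h1]
      norm_num

theorem hw_wt1 (hf : Cub f) : Wt f (hw f 1) (7 / 8) (-5 / 8) (-1 / 8) (3 / 8) := by
  constructor
  · intro P hP
    unfold hw
    rcases hw_cases hf hP with ⟨h0, h2, h1⟩ | ⟨⟨R, hR, hl, h0⟩, h2, h1⟩ | ⟨h0, hl, h2, h1⟩
    · rw [h1, h0, h2]
      simp
    · have h3 : ones f P = {R} := by
        ext T
        rw [h0, Finset.mem_singleton]
      rw [h1, h2, h3, Finset.sum_singleton, hl]
      norm_num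
    · rw [h1, h2, Finset.sum_congr rfl fun R hR => by rw [hl R hR], Finset.sum_const, h0]
      norm_num
  · intro P R hP hR
    unfold hw
    have hR' := (mem_ones hf hP.mP hP.iP).2 hR
    rcases hw_cases hf hP with ⟨h0, h2, h1⟩ | ⟨⟨T, hT, hl, h0⟩, h2, h1⟩ | ⟨h0, hl, h2, h1⟩
    · rw [h0] at hR'
      exact absurd hR' (Finset.notMem_empty _)
    · rw [(h0 R).1 hR', hl, h1, h2]
      norm_num
    · rw [hl R hR', h1, h2]
      norm_num

/-- The sum over the primes of type `(1, w)`. -/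
theorem sumB (hf : Cub f) {h : k[X] → ℝ} {a b α β : ℝ} (hh : Wt f h a b α β) {d : ℕ} (hd : 1 ≤ d)
    {K : Finset (Tri k)} {m : ℕ} (hK : K ∈ KK f m) {κ : Tri k} (hκ : κ ∈ K) (hv : κ.2.1 ≠ 1) :
    |∑ κ' ∈ (fr f d K).filter tB, h κ'.1 * ((dg f u κ' * ∏ κ'' ∈ K, (sg f κ'' κ' * sg f κ' κ'') : ℤ) : ℝ)| ≤
      (|α| + |β|) * ((33 * m + 24) * rq k ^ d) := by
  obtain ⟨hc, hm⟩ := mem_KK.1 hK
  set M := ∏ κ' ∈ K, loc f κ' with hM
  have e1 : ∑ κ' ∈ (fr f d K).filter tB, h κ'.1 * ((dg f u κ' * ∏ κ'' ∈ K, (sg f κ'' κ' * sg f κ' κ'') : ℤ) : ℝ) =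
      (epsK d K : ℝ) * ∑ R ∈ Rs f d K, (α + β * (lam (dlt f) R : ℝ)) * (lam M R : ℝ) := by
    rw [← sum_Rs hf, Finset.mul_sum]
    refine Finset.sum_congr rfl fun κ' h' => ?_
    obtain ⟨h1, h2⟩ := Finset.mem_filter.1 h'
    rw [facB hf hc h1 h2, hh.o _ _ (mem_fr.1 h1).1.gd (tB_one hf (mem_fr.1 h1).1 h2)]
    push_cast
    ring
  have e2 : |(epsK d K : ℝ)| = 1 := by
    rcases epsK_pm d K with h | h <;> rw [h] <;> norm_num
  rw [e1, abs_mul, e2, one_mul]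
  obtain ⟨R, iR, r1, r2, r3⟩ := loc_prime hf (hc.vd κ hκ) hv
  have hn1 : Nsq M := by
    have := nsq_prod hc (loc f) (fun κ' h' => loc_dvd hf (hc.vd κ' h')) hκ iR r1 r2 r3
      (e := 1) (fun h => iR.not_isUnit (isUnit_of_dvd_one h))
    rwa [one_mul] at this
  have hn2 : Nsq (dlt f * M) := nsq_prod hc (loc f) (fun κ' h' => loc_dvd hf (hc.vd κ' h')) hκ iR r1 r2 r3
    ((hc.vd κ hκ).gd.not_dlt hf iR r1)
  refine (Rs_le hf hn1 hn2 hd K α β).trans ?_
  have h3 : (M.natDegree : ℝ) ≤ 6 * m := by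
    exact_mod_cast natDegree_prodK (fun κ' h' => natDegree_loc hf (hc.vd κ' h')) hm
  have h4 : (K.card : ℝ) ≤ m := by exact_mod_cast card_le_deg hc hm
  have h5 := rq_pow_one hf.two d
  refine mul_le_mul_of_nonneg_left (mul_le_mul_of_nonneg_right ?_ (by linarith)) (by positivity)
  linarith

/-- The good primes of degree `d` which are not in `K`. -/
noncomputable def Gf (f : k[X]) (d : ℕ) (K : Finset (Tri k)) : Finset k[X] :=
  (Gp f d).filter fun P => ∀ κ' ∈ K, κ'.1 ≠ P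

theorem sum_t0 {M : Type} [AddCommMonoid M] (d : ℕ) (K : Finset (Tri k)) (g : k[X] → M) :
    ∑ κ ∈ (fr f d K).filter t0, g κ.1 = ∑ P ∈ Gf f d K, g P := by
  refine Finset.sum_bij' (fun κ _ => κ.1) (fun P _ => (P, 1, 1)) ?_ ?_ ?_ ?_ ?_
  · intro κ hκ
    rw [Finset.mem_filter, mem_fr] at hκ
    unfold Gf
    rw [Finset.mem_filter, mem_Gp]
    exact ⟨⟨hκ.1.1.gd, hκ.1.2.1⟩, hκ.1.2.2⟩
  · intro P hP
    unfold Gf at hP
    rw [Finset.mem_filter, mem_Gp] at hP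
    rw [Finset.mem_filter, mem_fr]
    exact ⟨⟨⟨hP.1.1, one_mem_VV, one_mem_VV⟩, hP.1.2, hP.2⟩, rfl, rfl⟩
  · intro κ hκ
    rw [Finset.mem_filter] at hκ
    exact Prod.ext rfl (Prod.ext hκ.2.1.symm hκ.2.2.symm)
  · intro P _
    rfl
  · intro κ _
    rfl

theorem Rs_eq (hf : Cub f) (d : ℕ) (K : Finset (Tri k)) :
    Rs f d K = (Gf f d K).biUnion fun P => ones f P := by
  ext R
  rw [mem_Rs hf, Finset.mem_biUnion]
  constructor
  · rintro ⟨P, h1, h2, h3, h4⟩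
    exact ⟨P, Finset.mem_filter.2 ⟨mem_Gp.2 ⟨h1, h2⟩, h3⟩, (mem_ones hf h1.mP h1.iP).2 h4⟩
  · rintro ⟨P, hP, hR⟩
    unfold Gf at hP
    rw [Finset.mem_filter, mem_Gp] at hP
    exact ⟨P, hP.1.1, hP.1.2, hP.2, (mem_ones hf hP.1.1.mP hP.1.1.iP).1 hR⟩

theorem sum_Rs' (hf : Cub f) {M : Type} [AddCommMonoid M] (d : ℕ) (K : Finset (Tri k))
    (g : k[X] → M) : ∑ R ∈ Rs f d K, g R = ∑ P ∈ Gf f d K, ∑ R ∈ ones f P, g R := by
  rw [Rs_eq hf]
  refine Finset.sum_biUnion fun P hP P' hP' hne => ?_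
  show Disjoint (ones f P) (ones f P')
  rw [Finset.disjoint_left]
  intro R h1 h2
  have g1 := mem_Gp.1 (Finset.mem_filter.1 hP).1
  have g2 := mem_Gp.1 (Finset.mem_filter.1 hP').1
  have o1 := (mem_ones hf g1.1.mP g1.1.iP).1 h1
  have o2 := (mem_ones hf g2.1.mP g2.1.iP).1 h2
  exact hne (Pool.Agent.X261.TD.same_prime ⟨o1.mP, o1.iP⟩ ⟨o2.mP, o2.iP⟩ o1.iQ o1.dvd o2.dvd)

theorem Gf_sub (d : ℕ) (K : Finset (Tri k)) : Gf f d K ⊆ Pr k d := fun P hP =>
  (Finset.mem_filter.1 (Finset.mem_filter.1 hP).1).1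

theorem card_Gf (hf : Cub f) (d : ℕ) (K : Finset (Tri k)) :
    (Pr k d \ Gf f d K).card ≤ 2 + K.card := by
  have h1 : Pr k d \ Gf f d K ⊆ Bp f d ∪ K.image Prod.fst := by
    intro P hP
    rw [Finset.mem_sdiff] at hP
    rw [Finset.mem_union]
    by_cases hg : Gd f P
    · right
      by_contra hK
      apply hP.2
      unfold Gf Gp
      rw [Finset.mem_filter, Finset.mem_filter]
      refine ⟨⟨hP.1, hg⟩, fun κ' h' he => hK ?_⟩
      exact Finset.mem_image.2 ⟨κ', h', he⟩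
    · left
      exact Finset.mem_filter.2 ⟨hP.1, hg⟩
  refine (Finset.card_le_card h1).trans ((Finset.card_union_le _ _).trans ?_)
  exact Nat.add_le_add (card_Bp hf d) Finset.card_image_le

/-- The sum over the primes of type `(1, 1)`. -/
theorem sum0 (hf : Cub f) {h : k[X] → ℝ} {a b α β : ℝ} (hh : Wt f h a b α β) {d : ℕ} (hd : 1 ≤ d)
    {K : Finset (Tri k)} {m : ℕ} (hK : K ∈ KK f m) {κ : Tri k} (hκ : κ ∈ K) (hX : tX κ) :
    |∑ κ' ∈ (fr f d K).filter t0, h κ'.1 * ((dg f u κ' * ∏ κ'' ∈ K, (sg f κ'' κ' * sg f κ' κ'') : ℤ) : ℝ)| ≤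
      (1 + |a| + |b|) * ((33 * m + 24) * rq k ^ d) := by
  obtain ⟨hc, hm⟩ := mem_KK.1 hK
  set M := ∏ κ' ∈ K, locP κ' with hM
  have hMc : M.comp f = ∏ κ' ∈ K, loc0 f κ' := locP_prod_comp K
  have e1 : ∑ κ' ∈ (fr f d K).filter t0, h κ'.1 * ((dg f u κ' * ∏ κ'' ∈ K, (sg f κ'' κ' * sg f κ' κ'') : ℤ) : ℝ) =
      (epsK d K : ℝ) * (∑ P ∈ Gf f d K, (lam M P : ℝ) -
        ∑ R ∈ Rs f d K, (a + b * (lam (dlt f) R : ℝ)) * (lam (M.comp f) R : ℝ)) := by
    rw [sum_Rs' hf, ← Finset.sum_sub_distrib, Finset.mul_sum, ← sum_t0]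
    refine Finset.sum_congr rfl fun κ' h' => ?_
    obtain ⟨h1, h2⟩ := Finset.mem_filter.1 h'
    have hg := (mem_fr.1 h1).1.gd
    rw [fac0 hf hc h1 h2, hh.z _ hg]
    have e3 : ∀ R ∈ ones f κ'.1, (a + b * (lam (dlt f) R : ℝ)) * (lam (M.comp f) R : ℝ) =
        (a + b * (lam (dlt f) R : ℝ)) * (lam M κ'.1 : ℝ) := by
      intro R hR
      rw [((mem_ones hf hg.mP hg.iP).1 hR).lam_comp hf.rc M]
    rw [Finset.sum_congr rfl e3, ← Finset.sum_mul]
    push_cast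
    ring
  have e2 : |(epsK d K : ℝ)| = 1 := by
    rcases epsK_pm d K with h | h <;> rw [h] <;> norm_num
  rw [e1, abs_mul, e2, one_mul]
  obtain ⟨R, iR, r1, r2, r3⟩ := loc0_prime hf (hc.vd κ hκ) hX
  have hn1 : Nsq (M.comp f) := by
    have := nsq_prod hc (loc0 f) (fun κ' h' => loc0_dvd) hκ iR r1 r2 r3
      (e := 1) (fun h => iR.not_isUnit (isUnit_of_dvd_one h))
    rwa [one_mul, ← hMc] at this
  have hn2 : Nsq (dlt f * M.comp f) := by
    rw [hMc]
    exact nsq_prod hc (loc0 f) (fun κ' h' => loc0_dvd) hκ iR r1 r2 r3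
      ((hc.vd κ hκ).gd.not_dlt hf iR r1)
  have b1 := Rs_le hf hn1 hn2 hd K a b
  have b2 := char_le hf.two hn1.of_comp hd
  have h3 : ((M.comp f).natDegree : ℝ) ≤ 6 * m := by
    rw [hMc]
    exact_mod_cast natDegree_prodK (fun κ' h' => natDegree_loc0 hf (hc.vd κ' h')) hm
  have h3' : (M.natDegree : ℝ) ≤ 2 * m := by
    have := h3
    rw [natDegree_comp, hf.deg] at this
    push_cast at this
    linarith
  have h4 : (K.card : ℝ) ≤ m := by exact_mod_cast card_le_deg hc hm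
  have h5 := rq_pow_one hf.two d
  have b3 : |∑ P ∈ Gf f d K, (lam M P : ℝ)| ≤ (5 * M.natDegree + 2) * rq k ^ d + (2 + K.card) := by
    have e4 : ∑ P ∈ Gf f d K, (lam M P : ℝ) = ∑ P ∈ Pr k d, (lam M P : ℝ) -
        ∑ P ∈ Pr k d \ Gf f d K, (lam M P : ℝ) := by
      rw [eq_sub_iff_add_eq, add_comm, Finset.sum_sdiff (Gf_sub d K)]
    rw [e4]
    refine (abs_sub _ _).trans (add_le_add b2 ?_)
    refine (Finset.abs_sum_le_sum_abs _ _).trans ?_
    refine (Finset.sum_le_card_nsmul _ _ 1 fun P _ => abs_lam_le M P).trans ?_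
    rw [nsmul_eq_mul, mul_one]
    exact_mod_cast card_Gf hf d K
  have b4 : (5 * ((M.comp f).natDegree : ℝ) + 3 * K.card + 24) * rq k ^ d ≤ (33 * m + 24) * rq k ^ d :=
    mul_le_mul_of_nonneg_right (by linarith) (by linarith)
  have b5 : (5 * (M.natDegree : ℝ) + 2) * rq k ^ d + (2 + K.card) ≤ (33 * m + 24) * rq k ^ d := by
    have hm0 : (0 : ℝ) ≤ m := Nat.cast_nonneg _
    have : (5 * (M.natDegree : ℝ) + 2) * rq k ^ d ≤ (10 * m + 2) * rq k ^ d :=
      mul_le_mul_of_nonneg_right (by linarith) (by linarith)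
    nlinarith
  have ha := abs_nonneg a
  have hb := abs_nonneg b
  refine (abs_sub _ _).trans ?_
  have b6 := b3.trans b5
  have b7 : (|a| + |b|) * ((5 * ((M.comp f).natDegree : ℝ) + 3 * K.card + 24) * rq k ^ d) ≤
      (|a| + |b|) * ((33 * m + 24) * rq k ^ d) := mul_le_mul_of_nonneg_left b4 (by positivity)
  have b8 := b1.trans b7
  linarith

end fin

end Pool.Agent.H4.AV
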